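import Pool.Agent.Lib.H89D.Defs

/-!
# CS1: sums of `RS` over divisors
-/

namespace Pool.Agent.Lib.H89D

/-- PROOF. The left side is the sum of `gcd (u, v)` over the pairs `(u, v)` with `u v ∣ m`
(`q = u v`) and `u gcd (u, v) ∣ ρ`; `u` and `v` are divisors of `n ρ`, so there are at most `d(n ρ)²`
pairs, and each `e = gcd (u, v)` is one of the terms of the sum on the right, because `e ∣ u` and
`u e ∣ ρ` give `e² ∣ ρ` (so `1 ≤ e ≤ ρ`). -/
theorem cs1 {n ρ m : ℕ} (hn : 1 ≤ n) (hρ : 1 ≤ ρ) (hm : m ∣ n * ρ) :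
    ∑ q ∈ m.divisors, RS q ρ ≤ (n * ρ).divisors.card ^ 2 *
      ∑ e ∈ (Finset.Icc 1 ρ).filter (fun e => e ^ 2 ∣ ρ), e := by
  set E := ∑ e ∈ (Finset.Icc 1 ρ).filter (fun e => e ^ 2 ∣ ρ), e with hE
  have hnr : n * ρ ≠ 0 := by positivity
  have hm0 : m ≠ 0 := by
    rintro rfl
    exact hnr (zero_dvd_iff.1 hm)
  have h1 : ∀ q ∈ m.divisors, RS q ρ ≤ (n * ρ).divisors.card * E := by
    intro q hq
    have hqm := Nat.dvd_of_mem_divisors hq
    have hq0 : q ≠ 0 := by
      rintro rfl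
      exact hm0 (zero_dvd_iff.1 hqm)
    unfold RS
    have h2 : ∀ u ∈ q.divisors.filter (fun u => u * Nat.gcd u (q / u) ∣ ρ),
        Nat.gcd u (q / u) ≤ E := by
      intro u hu
      obtain ⟨hu1, hu2⟩ := Finset.mem_filter.1 hu
      have hu0 : 0 < u := Nat.pos_of_mem_divisors hu1
      have he0 : 0 < Nat.gcd u (q / u) := Nat.gcd_pos_of_pos_left _ hu0
      have he2 : Nat.gcd u (q / u) ^ 2 ∣ ρ := by
        rw [pow_two]
        exact (Nat.mul_dvd_mul_right (Nat.gcd_dvd_left u (q / u)) _).trans hu2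
      have hle : Nat.gcd u (q / u) ≤ ρ := by
        have := Nat.le_of_dvd hρ he2
        nlinarith
      exact Finset.single_le_sum (f := fun e => e) (fun _ _ => Nat.zero_le _)
        (Finset.mem_filter.2 ⟨Finset.mem_Icc.2 ⟨he0, hle⟩, he2⟩)
    refine (Finset.sum_le_sum h2).trans ?_
    rw [Finset.sum_const, smul_eq_mul]
    apply Nat.mul_le_mul_right
    refine (Finset.card_filter_le _ _).trans ?_
    exact Finset.card_le_card (Nat.divisors_subset_of_dvd hnr (hqm.trans hm))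
  refine (Finset.sum_le_sum h1).trans ?_
  rw [Finset.sum_const, smul_eq_mul, pow_two, mul_assoc]
  exact Nat.mul_le_mul_right _ (Finset.card_le_card (Nat.divisors_subset_of_dvd hnr hm))

end Pool.Agent.Lib.H89D
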