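import Pool.Agent.Lib.H89D.Defs

/-!
# CS2: a mean value
-/

namespace Pool.Agent.Lib.H89D

lemma CS2_harm (Y : ℕ) : ∑ k ∈ Finset.Icc 1 Y, (1 / (k : ℝ)) ≤ 1 + Real.log Y := by
  have h := harmonic_le_one_add_log Y
  rw [harmonic_eq_sum_Icc] at h
  push_cast at h
  simpa only [one_div] using h

lemma CS2_inner (Y e : ℕ) (he : 1 ≤ e) :
    ∑ ρ ∈ (Finset.Icc 1 Y).filter (fun ρ => e ^ 2 ∣ ρ), (1 / (ρ : ℝ)) ≤
      (1 / (e : ℝ) ^ 2) * ∑ k ∈ Finset.Icc 1 Y, (1 / (k : ℝ)) := by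
  have he2 : 0 < e ^ 2 := by positivity
  have hinj : Set.InjOn (fun ρ : ℕ => ρ / e ^ 2)
      ((Finset.Icc 1 Y).filter (fun ρ => e ^ 2 ∣ ρ) : Finset ℕ) := by
    intro a ha b hb hab
    have ha' := (Finset.mem_filter.1 (Finset.mem_coe.1 ha)).2
    have hb' := (Finset.mem_filter.1 (Finset.mem_coe.1 hb)).2
    obtain ⟨a', rfl⟩ := ha'
    obtain ⟨b', rfl⟩ := hb'
    simp only [Nat.mul_div_cancel_left _ he2] at hab
    rw [hab]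
  have h1 : ∑ ρ ∈ (Finset.Icc 1 Y).filter (fun ρ => e ^ 2 ∣ ρ), (1 / (ρ : ℝ)) =
      ∑ k ∈ ((Finset.Icc 1 Y).filter (fun ρ => e ^ 2 ∣ ρ)).image (fun ρ : ℕ => (ρ / e ^ 2 : ℕ)),
        (1 / (e : ℝ) ^ 2) * (1 / ((k : ℕ) : ℝ)) := by
    rw [Finset.sum_image hinj]
    refine Finset.sum_congr rfl fun ρ hρ => ?_
    obtain ⟨k, rfl⟩ := (Finset.mem_filter.1 hρ).2
    rw [Nat.mul_div_cancel_left _ he2]
    push_cast
    rw [one_div_mul_one_div]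
  rw [h1, ← Finset.mul_sum]
  apply mul_le_mul_of_nonneg_left _ (by positivity)
  apply Finset.sum_le_sum_of_subset_of_nonneg
  · intro k hk
    obtain ⟨ρ, hρ, rfl⟩ := Finset.mem_image.1 hk
    obtain ⟨h2, h3⟩ := Finset.mem_filter.1 hρ
    obtain ⟨h4, h5⟩ := Finset.mem_Icc.1 h2
    refine Finset.mem_Icc.2 ⟨Nat.div_pos (Nat.le_of_dvd h4 h3) he2, (Nat.div_le_self _ _).trans h5⟩
  · intro _ _ _
    positivity

/-- PROOF. Exchange the sums: for given `e` (only `e ≤ Y` occurs) the sum of `1 / ρ` over the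
multiples `ρ = e² ρ' ≤ Y` is at most `e⁻² (1 + log Y)`; and `∑_{e ≤ Y} e e⁻² ≤ 1 + log Y`
(Mathlib: `harmonic`, `harmonic_le_one_add_log`). -/
theorem cs2 (Y : ℕ) (hY : 1 ≤ Y) :
    ∑ ρ ∈ Finset.Icc 1 Y, (1 / (ρ : ℝ)) *
      ∑ e ∈ (Finset.Icc 1 ρ).filter (fun e => e ^ 2 ∣ ρ), (e : ℝ) ≤
      (1 + Real.log Y) ^ 2 := by
  have hlog : 0 ≤ Real.log Y := Real.log_natCast_nonneg Y
  have hH := CS2_harm Y
  set H := ∑ k ∈ Finset.Icc 1 Y, (1 / (k : ℝ)) with hHd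
  have hH0 : 0 ≤ H := Finset.sum_nonneg fun _ _ => by positivity
  have h1 : ∀ ρ ∈ Finset.Icc 1 Y, (1 / (ρ : ℝ)) *
      ∑ e ∈ (Finset.Icc 1 ρ).filter (fun e => e ^ 2 ∣ ρ), (e : ℝ) ≤
      ∑ e ∈ Finset.Icc 1 Y, if e ^ 2 ∣ ρ then (e : ℝ) * (1 / (ρ : ℝ)) else 0 := by
    intro ρ hρ
    obtain ⟨h2, h3⟩ := Finset.mem_Icc.1 hρ
    rw [Finset.mul_sum, ← Finset.sum_filter]
    calc ∑ e ∈ (Finset.Icc 1 ρ).filter (fun e => e ^ 2 ∣ ρ), (1 / (ρ : ℝ)) * (e : ℝ)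
        = ∑ e ∈ (Finset.Icc 1 ρ).filter (fun e => e ^ 2 ∣ ρ), (e : ℝ) * (1 / (ρ : ℝ)) :=
          Finset.sum_congr rfl fun _ _ => mul_comm _ _
      _ ≤ _ := by
          apply Finset.sum_le_sum_of_subset_of_nonneg
          · exact Finset.filter_subset_filter _ (Finset.Icc_subset_Icc le_rfl h3)
          · intro _ _ _
            positivity
  refine (Finset.sum_le_sum h1).trans ?_
  rw [Finset.sum_comm]
  have h4 : ∀ e ∈ Finset.Icc 1 Y,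
      ∑ ρ ∈ Finset.Icc 1 Y, (if e ^ 2 ∣ ρ then (e : ℝ) * (1 / (ρ : ℝ)) else 0) ≤
        (1 / (e : ℝ)) * H := by
    intro e he
    obtain ⟨h5, h6⟩ := Finset.mem_Icc.1 he
    rw [← Finset.sum_filter, ← Finset.mul_sum]
    have he0 : (0 : ℝ) < e := by exact_mod_cast h5
    calc (e : ℝ) * ∑ ρ ∈ (Finset.Icc 1 Y).filter (fun ρ => e ^ 2 ∣ ρ), (1 / (ρ : ℝ))
        ≤ (e : ℝ) * ((1 / (e : ℝ) ^ 2) * H) :=
          mul_le_mul_of_nonneg_left (CS2_inner Y e h5) he0.le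
      _ = (1 / (e : ℝ)) * H := by
          field_simp
  refine (Finset.sum_le_sum h4).trans ?_
  rw [← Finset.sum_mul, ← hHd, pow_two]
  exact mul_le_mul hH hH hH0 (by linarith)

end Pool.Agent.Lib.H89D
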