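import Pool.Agent.Lib.H89D.Defs

/-!
# CS3: the sum over the imaginary part
-/

namespace Pool.Agent.Lib.H89D

lemma CS3_count (q : ℕ) (hq : 1 ≤ q) (Z : ℝ) (hZ : (q : ℝ) ≤ Z) :
    (((Finset.Icc (-⌊Z⌋) ⌊Z⌋).filter (fun y => (q : ℤ) ∣ y)).card : ℝ) ≤ 3 * Z / q := by
  have hq0 : (0 : ℝ) < q := by exact_mod_cast hq
  have hq0' : (0 : ℤ) < q := by exact_mod_cast hq
  have hsub : (Finset.Icc (-⌊Z⌋) ⌊Z⌋).filter (fun y => (q : ℤ) ∣ y) ⊆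
      (Finset.Icc (-⌊Z / q⌋) ⌊Z / q⌋).image (fun k => (q : ℤ) * k) := by
    intro y hy
    obtain ⟨h1, h2⟩ := Finset.mem_filter.1 hy
    obtain ⟨h3, h4⟩ := Finset.mem_Icc.1 h1
    obtain ⟨k, rfl⟩ := h2
    refine Finset.mem_image.2 ⟨k, Finset.mem_Icc.2 ⟨?_, ?_⟩, rfl⟩
    · rw [neg_le, Int.le_floor, le_div_iff₀ hq0]
      have h5 : ((-(q * k) : ℤ) : ℝ) ≤ Z := Int.le_floor.1 (by linarith)
      push_cast at h5 ⊢
      linarith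
    · rw [Int.le_floor, le_div_iff₀ hq0]
      have h5 : ((q * k : ℤ) : ℝ) ≤ Z := Int.le_floor.1 h4
      push_cast at h5
      linarith
  have h1 := (Finset.card_le_card hsub).trans Finset.card_image_le
  rw [Int.card_Icc] at h1
  have hfl : 0 ≤ ⌊Z / q⌋ := Int.floor_nonneg.2 (div_nonneg (by linarith) hq0.le)
  have h2 : (((⌊Z / q⌋ + 1 - -⌊Z / q⌋).toNat : ℕ) : ℝ) = 2 * (⌊Z / q⌋ : ℝ) + 1 := by
    have h3 : (((⌊Z / q⌋ + 1 - -⌊Z / q⌋).toNat : ℕ) : ℤ) = 2 * ⌊Z / q⌋ + 1 := by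
      rw [Int.toNat_of_nonneg (by omega)]
      ring
    exact_mod_cast h3
  have h3 : (((Finset.Icc (-⌊Z⌋) ⌊Z⌋).filter (fun y => (q : ℤ) ∣ y)).card : ℝ) ≤
      2 * (⌊Z / q⌋ : ℝ) + 1 := by
    rw [← h2]
    exact_mod_cast h1
  have h4 : (⌊Z / q⌋ : ℝ) ≤ Z / q := Int.floor_le _
  have h5 : 1 ≤ Z / q := by rw [le_div_iff₀ hq0]; linarith
  calc _ ≤ 2 * (⌊Z / q⌋ : ℝ) + 1 := h3
    _ ≤ 3 * (Z / q) := by linarith
    _ = 3 * Z / q := by ring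

/-- PROOF. Group the integers `y` by `q = gcd (m, y)`, a divisor of `m`: the number of `y` with
`|y| ≤ Z` and `q ∣ y` is at most `2 Z / q + 1 ≤ 3 Z / q`, as `q ≤ m ≤ Z`. -/
theorem cs3 (m ρ : ℕ) (hm : 1 ≤ m) (Z : ℝ) (hZ : (m : ℝ) ≤ Z) :
    ∑ y ∈ Finset.Icc (-⌊Z⌋) ⌊Z⌋, ((Int.gcd m y : ℕ) : ℝ) * RS (Int.gcd m y) ρ ≤
      3 * Z * ∑ q ∈ m.divisors, (RS q ρ : ℝ) := by
  have hmap : ∀ y ∈ Finset.Icc (-⌊Z⌋) ⌊Z⌋, Int.gcd m y ∈ m.divisors := by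
    intro y _
    rw [Nat.mem_divisors]
    refine ⟨?_, by omega⟩
    have := Int.gcd_dvd_left (m : ℤ) y
    exact_mod_cast this
  rw [← Finset.sum_fiberwise_of_maps_to hmap, Finset.mul_sum]
  refine Finset.sum_le_sum fun q hq => ?_
  have hqm := Nat.dvd_of_mem_divisors hq
  have hq1 : 1 ≤ q := Nat.pos_of_mem_divisors hq
  have hqm' : q ≤ m := Nat.le_of_dvd hm hqm
  have hq0 : (0 : ℝ) < q := by exact_mod_cast hq1
  have hqZ : (q : ℝ) ≤ Z := le_trans (by exact_mod_cast hqm') hZ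
  calc ∑ y ∈ (Finset.Icc (-⌊Z⌋) ⌊Z⌋).filter (fun y => Int.gcd m y = q),
        ((Int.gcd m y : ℕ) : ℝ) * RS (Int.gcd m y) ρ
      = ∑ y ∈ (Finset.Icc (-⌊Z⌋) ⌊Z⌋).filter (fun y => Int.gcd m y = q),
        ((q : ℕ) : ℝ) * RS q ρ := by
        refine Finset.sum_congr rfl fun y hy => ?_
        rw [(Finset.mem_filter.1 hy).2]
    _ = (((Finset.Icc (-⌊Z⌋) ⌊Z⌋).filter (fun y => Int.gcd m y = q)).card : ℝ) *
        ((q : ℝ) * RS q ρ) := by rw [Finset.sum_const, nsmul_eq_mul]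
    _ ≤ (((Finset.Icc (-⌊Z⌋) ⌊Z⌋).filter (fun y => (q : ℤ) ∣ y)).card : ℝ) *
        ((q : ℝ) * RS q ρ) := by
        apply mul_le_mul_of_nonneg_right _ (by positivity)
        have : (Finset.Icc (-⌊Z⌋) ⌊Z⌋).filter (fun y => Int.gcd m y = q) ⊆
            (Finset.Icc (-⌊Z⌋) ⌊Z⌋).filter (fun y => (q : ℤ) ∣ y) := by
          intro y hy
          obtain ⟨h1, h2⟩ := Finset.mem_filter.1 hy
          refine Finset.mem_filter.2 ⟨h1, ?_⟩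
          rw [← h2]
          exact Int.gcd_dvd_right _ _
        exact_mod_cast Finset.card_le_card this
    _ ≤ (3 * Z / q) * ((q : ℝ) * RS q ρ) := by
        apply mul_le_mul_of_nonneg_right (CS3_count q hq1 Z hqZ) (by positivity)
    _ = 3 * Z * RS q ρ := by
        field_simp

end Pool.Agent.Lib.H89D
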