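import Mathlib

/-!
# CD: dyadic summation
-/

namespace Pool.Agent.Lib.H89D

lemma CD_low {s : ℝ} (hs : 1 ≤ s) : (2 : ℝ) ^ ⌊Real.logb 2 s⌋₊ ≤ s := by
  have h0 : 0 ≤ Real.logb 2 s := Real.logb_nonneg (by norm_num) hs
  have h1 := Nat.floor_le h0
  rw [Real.le_logb_iff_rpow_le (by norm_num) (by linarith), Real.rpow_natCast] at h1
  exact h1

lemma CD_high {s : ℝ} (hs : 1 ≤ s) : s ≤ (2 : ℝ) ^ (⌊Real.logb 2 s⌋₊ + 1) := by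
  have h1 := (Nat.lt_floor_add_one (Real.logb 2 s)).le
  rw [Real.logb_le_iff_le_rpow (by norm_num) (by linarith)] at h1
  have h2 : (((⌊Real.logb 2 s⌋₊ : ℕ) : ℝ) + 1) = ((⌊Real.logb 2 s⌋₊ + 1 : ℕ) : ℝ) := by
    push_cast; ring
  rw [h2, Real.rpow_natCast] at h1
  exact h1

/-- Dyadic summation.
PROOF. For `k ≤ log₂ T` the elements with `2 ^ k ≤ s i < 2 ^ (k + 1)` are at most
`C (2 ^ (k + 1)) ^ ε (4 · 4 ^ k + 16 · 16 ^ k / n⁸)` in number and contribute at most `4 ^ (-k)` each. The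
sum over the at most `1 + log₂ T` values of `k` is at most
`C (1 + log₂ T) (2 T) ^ ε (4 + 16 T² / n⁸)`, and `1 + log₂ T ≤ C' T ^ ε`. -/
theorem dyadic_sum {ε C : ℝ} (hε : 0 < ε) (hC : 0 < C) : ∃ C' : ℝ, 0 < C' ∧
    ∀ (n : ℕ), 1 ≤ n → ∀ {ι : Type} (S : Finset ι) (s : ι → ℝ), (∀ i ∈ S, 1 ≤ s i) →
    (∀ Y : ℝ, 1 ≤ Y → ({i | i ∈ S ∧ s i ≤ Y}.ncard : ℝ) ≤
      C * Y ^ ε * (Y ^ 2 + Y ^ 4 / (n : ℝ) ^ 8)) →
    ∀ T : ℝ, 1 ≤ T → (∀ i ∈ S, s i ≤ T) →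
      ∑ i ∈ S, (s i ^ 2)⁻¹ ≤ C' * T ^ (2 * ε) * (1 + T ^ 2 / (n : ℝ) ^ 8) := by
  refine ⟨(1 + 2 / ε) * (16 * C * (2 : ℝ) ^ ε), by positivity, ?_⟩
  intro n hn ι S s hs hcount T hT hsT
  have hn0 : (0 : ℝ) < n := by exact_mod_cast hn
  have hT0 : 0 < T := by linarith
  set K := ⌊Real.logb 2 T⌋₊ with hK
  set B := 16 * C * (2 : ℝ) ^ ε * T ^ ε * (1 + T ^ 2 / (n : ℝ) ^ 8) with hB
  have hB0 : 0 ≤ B := by positivity
  have hmap : ∀ i ∈ S, ⌊Real.logb 2 (s i)⌋₊ ∈ Finset.range (K + 1) := by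
    intro i hi
    rw [Finset.mem_range, Nat.lt_succ_iff]
    apply Nat.floor_le_floor
    exact Real.logb_le_logb_of_le (by norm_num) (by linarith [hs i hi]) (hsT i hi)
  rw [← Finset.sum_fiberwise_of_maps_to hmap]
  have hfib : ∀ k ∈ Finset.range (K + 1),
      ∑ i ∈ S.filter (fun i => ⌊Real.logb 2 (s i)⌋₊ = k), (s i ^ 2)⁻¹ ≤ B := by
    intro k hk
    have hkK : k ≤ K := Nat.lt_succ_iff.1 (Finset.mem_range.1 hk)
    have hkT : (2 : ℝ) ^ k ≤ T := (pow_le_pow_right₀ (by norm_num) hkK).trans (CD_low hT)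
    have h2k : (1 : ℝ) ≤ 2 ^ k := one_le_pow₀ (by norm_num)
    have hY : (1 : ℝ) ≤ 2 ^ (k + 1) := one_le_pow₀ (by norm_num)
    have h1 := hcount (2 ^ (k + 1)) hY
    have hterm : ∀ i ∈ S.filter (fun i => ⌊Real.logb 2 (s i)⌋₊ = k),
        (s i ^ 2)⁻¹ ≤ ((4 : ℝ) ^ k)⁻¹ := by
      intro i hi
      obtain ⟨hi1, hi2⟩ := Finset.mem_filter.1 hi
      have h2 := CD_low (hs i hi1)
      rw [hi2] at h2
      apply inv_anti₀ (by positivity)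
      calc (4 : ℝ) ^ k = (2 ^ k) ^ 2 := by rw [← pow_mul, mul_comm, pow_mul]; norm_num
        _ ≤ s i ^ 2 := by gcongr
    refine (Finset.sum_le_sum hterm).trans ?_
    rw [Finset.sum_const, nsmul_eq_mul]
    have hcard : ((S.filter (fun i => ⌊Real.logb 2 (s i)⌋₊ = k)).card : ℝ) ≤
        ({i | i ∈ S ∧ s i ≤ 2 ^ (k + 1)}.ncard : ℝ) := by
      have hfin : {i | i ∈ S ∧ s i ≤ (2 : ℝ) ^ (k + 1)}.Finite :=
        S.finite_toSet.subset fun i hi => hi.1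
      rw [← Set.ncard_coe_finset]
      have : (S.filter (fun i => ⌊Real.logb 2 (s i)⌋₊ = k) : Set ι) ⊆
          {i | i ∈ S ∧ s i ≤ (2 : ℝ) ^ (k + 1)} := by
        intro i hi
        obtain ⟨hi1, hi2⟩ := Finset.mem_filter.1 (Finset.mem_coe.1 hi)
        have h2 := CD_high (hs i hi1)
        rw [hi2] at h2
        exact ⟨hi1, h2⟩
      exact_mod_cast Set.ncard_le_ncard this hfin
    have h4 : (0 : ℝ) < 4 ^ k := by positivity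
    have hpow : ((2 : ℝ) ^ (k + 1)) ^ ε ≤ (2 : ℝ) ^ ε * T ^ ε := by
      rw [← Real.mul_rpow (by norm_num) hT0.le]
      apply Real.rpow_le_rpow (by positivity) _ hε.le
      rw [pow_succ]
      linarith
    have h5 : (((2 : ℝ) ^ (k + 1)) ^ 2 + ((2 : ℝ) ^ (k + 1)) ^ 4 / (n : ℝ) ^ 8) * ((4 : ℝ) ^ k)⁻¹ ≤
        16 * (1 + T ^ 2 / (n : ℝ) ^ 8) := by
      have e1 : ((2 : ℝ) ^ (k + 1)) ^ 2 = 4 * (2 ^ k) ^ 2 := by rw [pow_succ]; ring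
      have e2 : ((2 : ℝ) ^ (k + 1)) ^ 4 = 16 * (2 ^ k) ^ 4 := by rw [pow_succ]; ring
      have e3 : (4 : ℝ) ^ k = (2 ^ k) ^ 2 := by rw [← pow_mul, mul_comm, pow_mul]; norm_num
      rw [e1, e2, e3]
      have h6 : (0 : ℝ) < 2 ^ k := by positivity
      have h7 : (4 * ((2 : ℝ) ^ k) ^ 2 + 16 * (2 ^ k) ^ 4 / (n : ℝ) ^ 8) * (((2 : ℝ) ^ k) ^ 2)⁻¹ =
          4 + 16 * ((2 ^ k) ^ 2 / (n : ℝ) ^ 8) := by
        field_simp
      rw [h7]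
      have h8 : ((2 : ℝ) ^ k) ^ 2 / (n : ℝ) ^ 8 ≤ T ^ 2 / (n : ℝ) ^ 8 := by gcongr
      linarith
    have h9 : 0 ≤ ((2 : ℝ) ^ (k + 1)) ^ ε := by positivity
    calc ((S.filter (fun i => ⌊Real.logb 2 (s i)⌋₊ = k)).card : ℝ) * ((4 : ℝ) ^ k)⁻¹
        ≤ (C * (2 ^ (k + 1)) ^ ε * ((2 ^ (k + 1)) ^ 2 + (2 ^ (k + 1)) ^ 4 / (n : ℝ) ^ 8)) *
          ((4 : ℝ) ^ k)⁻¹ := by
          apply mul_le_mul_of_nonneg_right (hcard.trans h1) (by positivity)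
      _ = (C * (2 ^ (k + 1)) ^ ε) * (((2 ^ (k + 1)) ^ 2 + (2 ^ (k + 1)) ^ 4 / (n : ℝ) ^ 8) *
          ((4 : ℝ) ^ k)⁻¹) := by ring
      _ ≤ (C * ((2 : ℝ) ^ ε * T ^ ε)) * (16 * (1 + T ^ 2 / (n : ℝ) ^ 8)) := by
          apply mul_le_mul (mul_le_mul_of_nonneg_left hpow hC.le) h5 (by positivity) (by positivity)
      _ = B := by rw [hB]; ring
  refine (Finset.sum_le_sum hfib).trans ?_
  rw [Finset.sum_const, Finset.card_range, nsmul_eq_mul]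
  have hKle : ((K + 1 : ℕ) : ℝ) ≤ (1 + 2 / ε) * T ^ ε := by
    have h1 : (K : ℝ) ≤ Real.logb 2 T := Nat.floor_le (Real.logb_nonneg (by norm_num) hT)
    have h2 : Real.log T ≤ T ^ ε / ε := Real.log_le_rpow_div hT0.le hε
    have h3 : (1 / 2 : ℝ) < Real.log 2 := by linarith [Real.log_two_gt_d9]
    have h4 : Real.logb 2 T ≤ 2 * (T ^ ε / ε) := by
      rw [Real.logb, div_le_iff₀ (by linarith)]
      have h5 : 0 ≤ T ^ ε / ε := by positivity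
      nlinarith
    have h6 : 1 ≤ T ^ ε := Real.one_le_rpow hT hε.le
    push_cast
    calc (K : ℝ) + 1 ≤ 2 * (T ^ ε / ε) + T ^ ε := by linarith
      _ = (1 + 2 / ε) * T ^ ε := by ring
  calc ((K + 1 : ℕ) : ℝ) * B ≤ ((1 + 2 / ε) * T ^ ε) * B := mul_le_mul_of_nonneg_right hKle hB0
    _ = (1 + 2 / ε) * (16 * C * (2 : ℝ) ^ ε) * T ^ (2 * ε) * (1 + T ^ 2 / (n : ℝ) ^ 8) := by
        rw [hB, two_mul, Real.rpow_add hT0]
        ring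

end Pool.Agent.Lib.H89D
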