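import Pool.Agent.Lib.H56D.Defs
import Pool.Agent.Lib.H89D.CD

/-!
# CE: the sum over the group elements
-/

namespace Pool.Agent.Lib.H89D

open Pool.Agent.Lib.H56.Gen
open Pool.Agent.Lib.H56.Picard (mat)
open Pool.Agent.Lib.H56D (fro)
open scoped ENNReal

/-- The count, as a property of the ring. -/
def Count (q : QD) : Prop := ∀ ε : ℝ, 0 < ε → ∃ C : ℝ, 0 < C ∧ ∀ n : ℕ, 1 ≤ n → ∀ T : ℝ, 1 ≤ T →
    {g : Gam q | g ∈ GamN q (n : ℂ) ∧ g ≠ 1 ∧ ∀ i j, ‖mat g.1 i j‖ ≤ T}.Finite ∧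
      ({g : Gam q | g ∈ GamN q (n : ℂ) ∧ g ≠ 1 ∧ ∀ i j, ‖mat g.1 i j‖ ≤ T}.ncard : ℝ) ≤
        C * T ^ ε * (T ^ 2 + T ^ 4 / (n : ℝ) ^ 8)

lemma CE_entry {g : Pool.Agent.Lib.H56.Picard.SU21} (i j : Fin 3) : ‖mat g i j‖ ≤ √(fro g) := by
  apply Real.le_sqrt_of_sq_le
  rw [← Complex.normSq_eq_norm_sq]
  unfold fro
  calc Complex.normSq (mat g i j) ≤ ∑ j', Complex.normSq (mat g i j') :=
        Finset.single_le_sum (f := fun j' => Complex.normSq (mat g i j'))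
          (fun _ _ => Complex.normSq_nonneg _) (Finset.mem_univ j)
    _ ≤ _ := Finset.single_le_sum (f := fun i' => ∑ j', Complex.normSq (mat g i' j'))
          (fun _ _ => Finset.sum_nonneg fun _ _ => Complex.normSq_nonneg _) (Finset.mem_univ i)

lemma CE_one_le {q : QD} (g : Gam q) : 1 ≤ fro g.1 := by
  have hex : ∃ i j, mat g.1 i j ≠ 0 := by
    by_contra h
    push Not at h
    have h1 : mat g.1 = 0 := Matrix.ext fun i j => h i j
    have h2 : mat g.1 * mat (g.1)⁻¹ = 1 := by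
      rw [← Pool.Agent.Lib.H56.Picard.mat_mul, mul_inv_cancel, Pool.Agent.Lib.H56.Picard.mat_one]
    rw [h1, Matrix.zero_mul] at h2
    have h3 := congrFun (congrFun h2 0) 0
    simp at h3
  obtain ⟨i, j, hij⟩ := hex
  have h1 := one_le_normSq (g.2 i j) hij
  have h2 : Complex.normSq (mat g.1 i j) ≤ fro g.1 := by
    unfold fro
    calc Complex.normSq (mat g.1 i j) ≤ ∑ j', Complex.normSq (mat g.1 i j') :=
          Finset.single_le_sum (f := fun j' => Complex.normSq (mat g.1 i j'))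
            (fun _ _ => Complex.normSq_nonneg _) (Finset.mem_univ j)
      _ ≤ _ := Finset.single_le_sum (f := fun i' => ∑ j', Complex.normSq (mat g.1 i' j'))
            (fun _ _ => Finset.sum_nonneg fun _ _ => Complex.normSq_nonneg _) (Finset.mem_univ i)
  linarith

open Classical in
/-- The sum over the non-trivial elements of `Γ(n)` of bounded size.

PROOF. `Count` with exponent `ε' = ε / 16` and `dyadic_sum`, applied to `s = √(fro g) ≥ 1` (each entry is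
at most `s`, so `{s ≤ Y}` is contained in the set of `Count` with `T = Y`; `fro g ≥ 1` because a row is not
zero and its entries are in `OO q`). With `T = R ≤ K n⁴` the bound of `dyadic_sum` is
`C' T ^ (2 ε') (1 + T² / n⁸) ≤ C'' n ^ (8 ε')`. The `ENNReal` sum is a finite sum, the set being
finite. -/
theorem count_sum_of {q : QD} (hq : Count q) {ε K : ℝ} (hε : 0 < ε) (hK : 0 < K) :
    ∃ C : ℝ, ∀ n : ℕ, 1 ≤ n → ∀ R : ℝ, 1 ≤ R → R ≤ K * (n : ℝ) ^ 4 →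
      ∑' g : GamN q (n : ℂ), (if g ≠ 1 ∧ fro g.1.1 ≤ R ^ 2 then ENNReal.ofReal (fro g.1.1)⁻¹ else 0) ≤
        ENNReal.ofReal (C * (n : ℝ) ^ ε) := by
  set δ := ε / 16 with hδ
  have hδ0 : 0 < δ := by positivity
  obtain ⟨C1, hC1, h1⟩ := hq δ hδ0
  obtain ⟨C2, hC2, h2⟩ := dyadic_sum hδ0 hC1
  set K1 := max K 1 with hK1
  have hK1' : 1 ≤ K1 := le_max_right _ _
  refine ⟨C2 * K1 ^ (2 * δ) * (1 + K1 ^ 2), fun n hn R hR hRn => ?_⟩
  have hn1 : (1 : ℝ) ≤ n := by exact_mod_cast hn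
  have hn0 : (0 : ℝ) < n := by linarith
  have hR0 : 0 < R := by linarith
  have hmap : ∀ Y : ℝ, 1 ≤ Y → Set.MapsTo (fun g : GamN q (n : ℂ) => (g.1 : Gam q))
      {g : GamN q (n : ℂ) | g ≠ 1 ∧ √(fro g.1.1) ≤ Y}
      {g : Gam q | g ∈ GamN q (n : ℂ) ∧ g ≠ 1 ∧ ∀ i j, ‖mat g.1 i j‖ ≤ Y} := by
    rintro Y _ g ⟨hg1, hg2⟩
    refine ⟨g.2, fun h => hg1 (Subtype.ext h), fun i j => (CE_entry i j).trans hg2⟩
  have hfinY : ∀ Y : ℝ, 1 ≤ Y → {g : GamN q (n : ℂ) | g ≠ 1 ∧ √(fro g.1.1) ≤ Y}.Finite := by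
    intro Y hY
    exact Set.Finite.of_injOn (hmap Y hY) Subtype.val_injective.injOn (h1 n hn Y hY).1
  set S := (hfinY R hR).toFinset with hS
  have hmemS : ∀ g : GamN q (n : ℂ), g ∈ S ↔ g ≠ 1 ∧ √(fro g.1.1) ≤ R := by
    intro g
    rw [hS, Set.Finite.mem_toFinset]
    rfl
  have hfroR : ∀ g : GamN q (n : ℂ), fro g.1.1 ≤ R ^ 2 ↔ √(fro g.1.1) ≤ R := by
    intro g
    rw [Real.sqrt_le_left hR0.le]
  have hfro0 : ∀ g : GamN q (n : ℂ), 0 ≤ fro g.1.1 := fun g => by linarith [CE_one_le g.1]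
  have hsum := h2 n hn S (fun g => √(fro g.1.1)) (fun g _ => by
      have := CE_one_le g.1
      exact Real.one_le_sqrt.2 this)
    (fun Y hY => by
      refine le_trans ?_ (h1 n hn Y hY).2
      have h3 : {i : GamN q (n : ℂ) | i ∈ S ∧ √(fro i.1.1) ≤ Y} ⊆
          {g : GamN q (n : ℂ) | g ≠ 1 ∧ √(fro g.1.1) ≤ Y} := by
        rintro i ⟨hi1, hi2⟩
        exact ⟨((hmemS i).1 hi1).1, hi2⟩
      have h4 := Set.ncard_le_ncard h3 (hfinY Y hY)
      have h5 := Set.ncard_le_ncard_of_injOn _ (hmap Y hY) Subtype.val_injective.injOn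
        (h1 n hn Y hY).1
      exact_mod_cast h4.trans h5) R hR (fun g hg => ((hmemS g).1 hg).2)
  have htsum : ∑' g : GamN q (n : ℂ),
      (if g ≠ 1 ∧ fro g.1.1 ≤ R ^ 2 then ENNReal.ofReal (fro g.1.1)⁻¹ else 0) =
      ENNReal.ofReal (∑ g ∈ S, ((√(fro g.1.1)) ^ 2)⁻¹) := by
    rw [tsum_eq_sum (s := S)]
    · rw [ENNReal.ofReal_sum_of_nonneg (fun _ _ => by positivity)]
      refine Finset.sum_congr rfl fun g hg => ?_
      have h3 := (hmemS g).1 hg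
      rw [if_pos ⟨h3.1, (hfroR g).2 h3.2⟩, Real.sq_sqrt (hfro0 g)]
    · intro g hg
      rw [if_neg]
      rintro ⟨h3, h4⟩
      exact hg ((hmemS g).2 ⟨h3, (hfroR g).1 h4⟩)
  rw [htsum]
  apply ENNReal.ofReal_le_ofReal
  refine hsum.trans ?_
  have hRK : R ≤ K1 * (n : ℝ) ^ 4 :=
    hRn.trans (mul_le_mul_of_nonneg_right (le_max_left _ _) (by positivity))
  have e1 : R ^ (2 * δ) ≤ K1 ^ (2 * δ) * (n : ℝ) ^ ε := by
    calc R ^ (2 * δ) ≤ (K1 * (n : ℝ) ^ 4) ^ (2 * δ) :=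
          Real.rpow_le_rpow hR0.le hRK (by positivity)
      _ = K1 ^ (2 * δ) * ((n : ℝ) ^ 4) ^ (2 * δ) := Real.mul_rpow (by linarith) (by positivity)
      _ = K1 ^ (2 * δ) * (n : ℝ) ^ (8 * δ) := by
          rw [← Real.rpow_natCast, ← Real.rpow_mul hn0.le]
          norm_num
          left
          ring_nf
      _ ≤ K1 ^ (2 * δ) * (n : ℝ) ^ ε := by
          apply mul_le_mul_of_nonneg_left _ (by positivity)
          exact Real.rpow_le_rpow_of_exponent_le hn1 (by rw [hδ]; linarith)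
  have e2 : R ^ 2 / (n : ℝ) ^ 8 ≤ K1 ^ 2 := by
    rw [div_le_iff₀ (by positivity)]
    calc R ^ 2 ≤ (K1 * (n : ℝ) ^ 4) ^ 2 := by gcongr
      _ = K1 ^ 2 * (n : ℝ) ^ 8 := by ring
  calc C2 * R ^ (2 * δ) * (1 + R ^ 2 / (n : ℝ) ^ 8)
      ≤ C2 * (K1 ^ (2 * δ) * (n : ℝ) ^ ε) * (1 + K1 ^ 2) := by
        apply mul_le_mul (mul_le_mul_of_nonneg_left e1 hC2.le) (by linarith) (by positivity)
        positivity
    _ = C2 * K1 ^ (2 * δ) * (1 + K1 ^ 2) * (n : ℝ) ^ ε := by ring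

end Pool.Agent.Lib.H89D
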