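import Mathlib

/-!
# I1B: a sum of greatest common divisors
-/

namespace Pool.Agent.Lib.H89D

/-- Residues divisible by a divisor `g` of `n`. -/
lemma card_dvd_val (n : ℕ) [NeZero n] {g : ℕ} (hg : g ∣ n) :
    (Finset.univ.filter (fun c : ZMod n => g ∣ c.val)).card ≤ n / g := by
  have hn : 0 < n := Nat.pos_of_ne_zero (NeZero.ne n)
  have hg0 : 0 < g := Nat.pos_of_dvd_of_pos hg hn
  rw [← Finset.card_range (n / g)]
  refine Finset.card_le_card_of_injOn (fun c => c.val / g) ?_ ?_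
  · intro c hc
    simp only [Finset.coe_filter, Finset.mem_univ, true_and, Set.mem_ofPred_eq] at hc
    rw [Finset.coe_range, Set.mem_Iio]
    rw [Nat.div_lt_div_right (Nat.pos_iff_ne_zero.1 hg0) hc hg]
    exact ZMod.val_lt c
  · intro c hc d hd h
    simp only [Finset.coe_filter, Finset.mem_univ, true_and, Set.mem_ofPred_eq] at hc hd
    apply ZMod.val_injective n
    obtain ⟨x, hx⟩ := hc
    obtain ⟨y, hy⟩ := hd
    simp only at h
    rw [hx, hy, Nat.mul_div_cancel_left _ hg0, Nat.mul_div_cancel_left _ hg0] at h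
    rw [hx, hy, h]

/-- PROOF. Group by `g = gcd (c.1.val, c.2.val, n)`, a divisor of `n`: at most `(n / g)²` pairs are
divisible by `g`, so the sum is at most `∑_{g ∣ n} g (n / g)² ≤ n² d(n)`. -/
theorem gcd_sum (n : ℕ) [NeZero n] :
    ∑ c : ZMod n × ZMod n, Nat.gcd (Nat.gcd c.1.val c.2.val) n ≤ n ^ 2 * n.divisors.card := by
  have hn : 0 < n := Nat.pos_of_ne_zero (NeZero.ne n)
  have h1 : ∀ c : ZMod n × ZMod n, Nat.gcd (Nat.gcd c.1.val c.2.val) n ≤
      ∑ g ∈ n.divisors, if g ∣ c.1.val ∧ g ∣ c.2.val then g else 0 := by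
    intro c
    have e1 : Nat.gcd (Nat.gcd c.1.val c.2.val) n ∈ n.divisors :=
      Nat.mem_divisors.2 ⟨Nat.gcd_dvd_right _ _, hn.ne'⟩
    have e2 : Nat.gcd (Nat.gcd c.1.val c.2.val) n ∣ c.1.val ∧
        Nat.gcd (Nat.gcd c.1.val c.2.val) n ∣ c.2.val :=
      ⟨(Nat.gcd_dvd_left _ _).trans (Nat.gcd_dvd_left _ _),
        (Nat.gcd_dvd_left _ _).trans (Nat.gcd_dvd_right _ _)⟩
    have e3 := Finset.single_le_sum (s := n.divisors)
      (f := fun g => if g ∣ c.1.val ∧ g ∣ c.2.val then g else 0) (fun _ _ => Nat.zero_le _) e1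
    simp only [if_pos e2] at e3
    exact e3
  refine (Finset.sum_le_sum fun c _ => h1 c).trans ?_
  rw [Finset.sum_comm]
  have h2 : ∀ g ∈ n.divisors, (∑ c : ZMod n × ZMod n,
      if g ∣ c.1.val ∧ g ∣ c.2.val then g else 0) ≤ n ^ 2 := by
    intro g hg
    have hgn := Nat.dvd_of_mem_divisors hg
    have hg0 : 0 < g := Nat.pos_of_dvd_of_pos hgn hn
    rw [← Finset.sum_filter, Finset.sum_const, smul_eq_mul]
    have e1 : (Finset.univ.filter (fun c : ZMod n × ZMod n => g ∣ c.1.val ∧ g ∣ c.2.val)) =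
        (Finset.univ.filter (fun c : ZMod n => g ∣ c.val)) ×ˢ
          (Finset.univ.filter (fun c : ZMod n => g ∣ c.val)) := by
      ext c
      simp
    rw [e1, Finset.card_product]
    have e2 := card_dvd_val n hgn
    have e3 : n / g ≤ n := Nat.div_le_self _ _
    have e4 : n / g * g = n := Nat.div_mul_cancel hgn
    calc (Finset.univ.filter (fun c : ZMod n => g ∣ c.val)).card *
          (Finset.univ.filter (fun c : ZMod n => g ∣ c.val)).card * g
        ≤ (n / g) * (n / g) * g := Nat.mul_le_mul_right _ (Nat.mul_le_mul e2 e2)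
      _ = (n / g) * n := by rw [mul_assoc, e4]
      _ ≤ n * n := Nat.mul_le_mul_right _ e3
      _ = n ^ 2 := (sq n).symm
  calc _ ≤ ∑ g ∈ n.divisors, n ^ 2 := Finset.sum_le_sum h2
    _ = n ^ 2 * n.divisors.card := by
      rw [Finset.sum_const, smul_eq_mul, mul_comm]

end Pool.Agent.Lib.H89D
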