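import Pool.Agent.Lib.H89D.I1
import Pool.Agent.Lib.H89D.I1B

/-!
# I1C: isotropic vectors modulo `n`
-/

namespace Pool.Agent.Lib.H89D

open Classical in
lemma ncard_prod_le {A B : Type*} [Fintype A] [Fintype B] (P : A × B → Prop) (f : B → ℕ)
    (h : ∀ b, {a : A | P (a, b)}.ncard ≤ f b) : {v : A × B | P v}.ncard ≤ ∑ b, f b := by
  have e1 : {v : A × B | P v}.ncard = ∑ b : B, {a : A | P (a, b)}.ncard := by
    rw [Set.ncard_eq_toFinset_card']
    have e2 : ∀ b : B, {a : A | P (a, b)}.ncard = ∑ a : A, if P (a, b) then 1 else 0 := by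
      intro b
      rw [Set.ncard_eq_toFinset_card', Finset.sum_boole, Nat.cast_id]
      congr 1
      ext a
      simp
    simp only [e2]
    rw [Finset.sum_comm, ← Fintype.sum_prod_type (f := fun v : A × B => if P v then 1 else 0),
      Finset.sum_boole, Nat.cast_id]
    congr 1
    ext v
    simp
  rw [e1]
  exact Finset.sum_le_sum fun b _ => h b

/-- Isotropic vectors modulo `n`: `2 Re (star a c) + |b|² = 0` in the ring `ℤ[ω]`, `ω² = t ω - N`.

PROOF. For each `b` and `c` use `lin_count` with `α = 2 c₁ + t c₂`, `β = t c₁ + 2 N c₂`: at most `n g`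
solutions `a`, `g = gcd (α, β, n)`. Now `2 N α - t β = D c₁` and `-t α + 2 β = D c₂`, so
`g ∣ gcd (D c₁, D c₂, n) ∣ D gcd (c₁, c₂, n)`, `g ≤ D gcd (c₁, c₂, n)`; then `gcd_sum`. -/
theorem iso_count (n : ℕ) [NeZero n] (t N : ℤ) (D : ℕ) (hD : 4 * N - t ^ 2 = D) (h0 : 0 < D) :
    {v : (ZMod n × ZMod n) × (ZMod n × ZMod n) × (ZMod n × ZMod n) |
      (2 * v.2.2.1 + t * v.2.2.2) * v.1.1 + (t * v.2.2.1 + 2 * N * v.2.2.2) * v.1.2 +
        (v.2.1.1 ^ 2 + t * v.2.1.1 * v.2.1.2 + N * v.2.1.2 ^ 2) = 0}.ncard ≤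
      D * (n ^ 5 * n.divisors.card) := by
  have hn : 1 ≤ n := Nat.one_le_iff_ne_zero.2 (NeZero.ne n)
  refine (ncard_prod_le _ (fun w : (ZMod n × ZMod n) × (ZMod n × ZMod n) =>
    n * (D * Nat.gcd (Nat.gcd w.2.1.val w.2.2.val) n)) ?_).trans ?_
  · rintro ⟨b, c⟩
    have h1 := lin_count n hn (2 * c.1 + t * c.2) (t * c.1 + 2 * N * c.2)
      (-(b.1 ^ 2 + t * b.1 * b.2 + N * b.2 ^ 2))
    have h2 : {a : ZMod n × ZMod n | (2 * c.1 + t * c.2) * a.1 + (t * c.1 + 2 * N * c.2) * a.2 +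
        (b.1 ^ 2 + t * b.1 * b.2 + N * b.2 ^ 2) = 0} = {p : ZMod n × ZMod n |
        (2 * c.1 + t * c.2) * p.1 + (t * c.1 + 2 * N * c.2) * p.2 =
          -(b.1 ^ 2 + t * b.1 * b.2 + N * b.2 ^ 2)} := by
      ext a
      simp only [Set.mem_ofPred_eq]
      exact add_eq_zero_iff_eq_neg
    show {a : ZMod n × ZMod n | (2 * c.1 + t * c.2) * a.1 + (t * c.1 + 2 * N * c.2) * a.2 +
        (b.1 ^ 2 + t * b.1 * b.2 + N * b.2 ^ 2) = 0}.ncard ≤ _
    rw [h2]
    refine h1.trans (Nat.mul_le_mul_left _ ?_)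
    set α : ZMod n := 2 * c.1 + t * c.2 with hα
    set β : ZMod n := t * c.1 + 2 * N * c.2 with hβ
    set g := Nat.gcd (Nat.gcd α.val β.val) n with hg
    have hgn : g ∣ n := Nat.gcd_dvd_right _ _
    have ga : (g : ℤ) ∣ α.val := by
      exact_mod_cast (Nat.gcd_dvd_left _ _).trans (Nat.gcd_dvd_left _ _)
    have gb : (g : ℤ) ∣ β.val := by
      exact_mod_cast (Nat.gcd_dvd_left _ _).trans (Nat.gcd_dvd_right _ _)
    have hgn' : (g : ℤ) ∣ n := by exact_mod_cast hgn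
    have k1 : (n : ℤ) ∣ 2 * N * α.val - t * β.val - D * c.1.val := by
      rw [← ZMod.intCast_zmod_eq_zero_iff_dvd]
      push_cast
      rw [ZMod.natCast_zmod_val, ZMod.natCast_zmod_val, ZMod.natCast_zmod_val, hα, hβ]
      have : ((D : ℕ) : ZMod n) = 4 * (N : ZMod n) - (t : ZMod n) ^ 2 := by
        have := congrArg (Int.cast : ℤ → ZMod n) hD
        push_cast at this
        exact this.symm
      rw [this]
      ring
    have k2 : (n : ℤ) ∣ -t * α.val + 2 * β.val - D * c.2.val := by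
      rw [← ZMod.intCast_zmod_eq_zero_iff_dvd]
      push_cast
      rw [ZMod.natCast_zmod_val, ZMod.natCast_zmod_val, ZMod.natCast_zmod_val, hα, hβ]
      have : ((D : ℕ) : ZMod n) = 4 * (N : ZMod n) - (t : ZMod n) ^ 2 := by
        have := congrArg (Int.cast : ℤ → ZMod n) hD
        push_cast at this
        exact this.symm
      rw [this]
      ring
    have d1 : g ∣ D * c.1.val := by
      have e := (dvd_sub (dvd_sub (Dvd.dvd.mul_left ga (2 * N)) (Dvd.dvd.mul_left gb t))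
        (hgn'.trans k1))
      have e' : 2 * N * (α.val : ℤ) - t * β.val - (2 * N * α.val - t * β.val - D * c.1.val) =
        ((D * c.1.val : ℕ) : ℤ) := by push_cast; ring
      rw [e'] at e
      exact_mod_cast e
    have d2 : g ∣ D * c.2.val := by
      have e := (dvd_sub (dvd_add (Dvd.dvd.mul_left ga (-t)) (Dvd.dvd.mul_left gb 2))
        (hgn'.trans k2))
      have e' : -t * (α.val : ℤ) + 2 * β.val - (-t * α.val + 2 * β.val - D * c.2.val) =
        ((D * c.2.val : ℕ) : ℤ) := by push_cast; ring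
      rw [e'] at e
      exact_mod_cast e
    have d3 : g ∣ D * n := hgn.mul_left D
    have d4 : g ∣ D * Nat.gcd (Nat.gcd c.1.val c.2.val) n := by
      rw [← Nat.gcd_mul_left, ← Nat.gcd_mul_left]
      exact Nat.dvd_gcd (Nat.dvd_gcd d1 d2) d3
    refine Nat.le_of_dvd ?_ d4
    exact Nat.mul_pos h0 (Nat.gcd_pos_of_pos_right _ hn)
  · rw [Fintype.sum_prod_type]
    simp only [← Finset.mul_sum]
    have h1 := gcd_sum n
    rw [Finset.sum_const, Finset.card_univ, Fintype.card_prod, ZMod.card, smul_eq_mul]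
    calc n * (D * (n * n * ∑ c : ZMod n × ZMod n, Nat.gcd (Nat.gcd c.1.val c.2.val) n))
        ≤ n * (D * (n * n * (n ^ 2 * n.divisors.card))) := by gcongr
      _ = D * (n ^ 5 * n.divisors.card) := by ring

/-- The unipotent radical modulo `n`: pairs `(k, g)` with `2 Re g + |k|² = 0`.

PROOF. For each `k` and each second coordinate of `g` at most two first coordinates: `2 x = r` has at most
two solutions in `ZMod n`. -/
theorem bor_count (n : ℕ) [NeZero n] (t N : ℤ) :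
    {v : (ZMod n × ZMod n) × (ZMod n × ZMod n) |
      2 * v.2.1 + t * v.2.2 + (v.1.1 ^ 2 + t * v.1.1 * v.1.2 + N * v.1.2 ^ 2) = 0}.ncard ≤
      2 * n ^ 3 := by
  have hn : 1 ≤ n := Nat.one_le_iff_ne_zero.2 (NeZero.ne n)
  have h0 : {v : (ZMod n × ZMod n) × (ZMod n × ZMod n) |
      2 * v.2.1 + t * v.2.2 + (v.1.1 ^ 2 + t * v.1.1 * v.1.2 + N * v.1.2 ^ 2) = 0}.ncard ≤
      {v : (ZMod n × ZMod n) × (ZMod n × ZMod n) |
      2 * v.1.1 + t * v.1.2 + (v.2.1 ^ 2 + t * v.2.1 * v.2.2 + N * v.2.2 ^ 2) = 0}.ncard := by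
    refine Set.ncard_le_ncard_of_injOn Prod.swap (fun v hv => hv) ?_ (Set.toFinite _)
    intro v _ w _ h
    exact Prod.swap_injective h
  refine h0.trans ((ncard_prod_le _ (fun _ : ZMod n × ZMod n => n * 2) ?_).trans ?_)
  · intro k
    have h1 := lin_count n hn 2 t (-(k.1 ^ 2 + t * k.1 * k.2 + N * k.2 ^ 2))
    have h2 : {g : ZMod n × ZMod n | 2 * g.1 + t * g.2 +
        (k.1 ^ 2 + t * k.1 * k.2 + N * k.2 ^ 2) = 0} = {p : ZMod n × ZMod n |
        2 * p.1 + t * p.2 = -(k.1 ^ 2 + t * k.1 * k.2 + N * k.2 ^ 2)} := by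
      ext a
      simp only [Set.mem_ofPred_eq]
      exact add_eq_zero_iff_eq_neg
    show {g : ZMod n × ZMod n | 2 * g.1 + t * g.2 +
        (k.1 ^ 2 + t * k.1 * k.2 + N * k.2 ^ 2) = 0}.ncard ≤ _
    rw [h2]
    refine h1.trans (Nat.mul_le_mul_left _ ?_)
    have h3 : Nat.gcd (Nat.gcd (2 : ZMod n).val (t : ZMod n).val) n ∣ 2 := by
      have e1 : Nat.gcd (Nat.gcd (2 : ZMod n).val (t : ZMod n).val) n ∣ (2 : ZMod n).val :=
        (Nat.gcd_dvd_left _ _).trans (Nat.gcd_dvd_left _ _)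
      have e2 : Nat.gcd (Nat.gcd (2 : ZMod n).val (t : ZMod n).val) n ∣ n := Nat.gcd_dvd_right _ _
      generalize Nat.gcd (Nat.gcd (2 : ZMod n).val (t : ZMod n).val) n = g at e1 e2 ⊢
      have e3 : (2 : ZMod n).val = 2 % n := by
        have := ZMod.val_natCast n 2
        rwa [Nat.cast_ofNat] at this
      rw [e3] at e1
      exact (Nat.dvd_mod_iff e2).1 e1
    exact Nat.le_of_dvd (by norm_num) h3
  · rw [Finset.sum_const, Finset.card_univ, Fintype.card_prod, ZMod.card, smul_eq_mul]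
    apply le_of_eq
    ring

end Pool.Agent.Lib.H89D
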