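import Pool.Agent.Lib.H89D.I2A
import Pool.Agent.Lib.H89D.I1C

/-!
# I2B: the index of `Γ(n)` in `PN`
-/

namespace Pool.Agent.Lib.H89D

open Pool.Agent.Lib.H56.Gen
open Pool.Agent.Lib.H56.Picard (mat)

variable {q : QD}

/-- The entries of an element of `PN` modulo `n`. -/
lemma PN_entries {n : ℕ} {g : Gam q} (hg : g ∈ PN q n) :
    mat g.1 2 1 ∈ PO q (n : ℂ) ∧ mat g.1 2 2 - 1 ∈ PO q (n : ℂ) ∧ mat g.1 1 1 - 1 ∈ PO q (n : ℂ) ∧
      star (mat g.1 0 1) + mat g.1 1 2 ∈ PO q (n : ℂ) ∧ mat g.1 0 0 - 1 ∈ PO q (n : ℂ) ∧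
      mat g.1 1 0 ∈ PO q (n : ℂ) ∧ mat g.1 2 0 ∈ PO q (n : ℂ) := by
  have h00 : mat g.1 0 0 - 1 ∈ PO q (n : ℂ) := hg 0
  have h10 : mat g.1 1 0 ∈ PO q (n : ℂ) := by
    have := hg 1
    rwa [Matrix.one_apply_ne (by decide), sub_zero] at this
  have h20 : mat g.1 2 0 ∈ PO q (n : ℂ) := by
    have := hg 2
    rwa [Matrix.one_apply_ne (by decide), sub_zero] at this
  have m : ∀ i j, mat g.1 i j ∈ OO q := g.2
  have P := PO q (n : ℂ)
  have h00' := star_mem_PO h00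
  have h10' := star_mem_PO h10
  have h20' := star_mem_PO h20
  have h21 : mat g.1 2 1 ∈ PO q (n : ℂ) := by
    have e : mat g.1 2 1 = -(star (mat g.1 0 0 - 1) * mat g.1 2 1) -
        star (mat g.1 1 0) * mat g.1 1 1 - star (mat g.1 2 0) * mat g.1 0 1 := by
      rw [star_sub, star_one]
      linear_combination rel01 g
    rw [e]
    exact (PO q (n : ℂ)).sub_mem ((PO q (n : ℂ)).sub_mem
      ((PO q (n : ℂ)).neg_mem (PO_mul_right (m 2 1) h00')) (PO_mul_right (m 1 1) h10'))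
      (PO_mul_right (m 0 1) h20')
  have h21' := star_mem_PO h21
  have h22 : mat g.1 2 2 - 1 ∈ PO q (n : ℂ) := by
    have e : mat g.1 2 2 - 1 = -(star (mat g.1 0 0 - 1) * mat g.1 2 2) -
        star (mat g.1 1 0) * mat g.1 1 2 - star (mat g.1 2 0) * mat g.1 0 2 := by
      rw [star_sub, star_one]
      linear_combination rel02 g
    rw [e]
    exact (PO q (n : ℂ)).sub_mem ((PO q (n : ℂ)).sub_mem
      ((PO q (n : ℂ)).neg_mem (PO_mul_right (m 2 2) h00')) (PO_mul_right (m 1 2) h10'))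
      (PO_mul_right (m 0 2) h20')
  have h11 : mat g.1 1 1 - 1 ∈ PO q (n : ℂ) := by
    have e : mat g.1 1 1 - 1 = -((mat g.1 1 1 * mat g.1 2 2) * (mat g.1 0 0 - 1)) -
        mat g.1 1 1 * (mat g.1 2 2 - 1) + (mat g.1 0 0 * mat g.1 1 2) * mat g.1 2 1 +
        (mat g.1 0 1 * mat g.1 2 2) * mat g.1 1 0 - (mat g.1 0 1 * mat g.1 1 2) * mat g.1 2 0 -
        (mat g.1 0 2 * mat g.1 1 0) * mat g.1 2 1 + (mat g.1 0 2 * mat g.1 1 1) * mat g.1 2 0 := by
      linear_combination relD g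
    rw [e]
    refine (PO q (n : ℂ)).add_mem ((PO q (n : ℂ)).sub_mem ((PO q (n : ℂ)).sub_mem
      ((PO q (n : ℂ)).add_mem ((PO q (n : ℂ)).add_mem ((PO q (n : ℂ)).sub_mem
      ((PO q (n : ℂ)).neg_mem ?_) ?_) ?_) ?_) ?_) ?_) ?_
    · exact PO_mul_left ((OO q).mul_mem (m 1 1) (m 2 2)) h00
    · exact PO_mul_left (m 1 1) h22
    · exact PO_mul_left ((OO q).mul_mem (m 0 0) (m 1 2)) h21
    · exact PO_mul_left ((OO q).mul_mem (m 0 1) (m 2 2)) h10
    · exact PO_mul_left ((OO q).mul_mem (m 0 1) (m 1 2)) h20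
    · exact PO_mul_left ((OO q).mul_mem (m 0 2) (m 1 0)) h21
    · exact PO_mul_left ((OO q).mul_mem (m 0 2) (m 1 1)) h20
  have h11' := star_mem_PO h11
  refine ⟨h21, h22, h11, ?_, h00, h10, h20⟩
  have e : star (mat g.1 0 1) + mat g.1 1 2 = -(star (mat g.1 0 1) * (mat g.1 2 2 - 1)) -
      star (mat g.1 1 1 - 1) * mat g.1 1 2 - star (mat g.1 2 1) * mat g.1 0 2 := by
    rw [star_sub, star_one]
    linear_combination rel12 g
  rw [e]
  exact (PO q (n : ℂ)).sub_mem ((PO q (n : ℂ)).sub_mem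
    ((PO q (n : ℂ)).neg_mem (PO_mul_left (star_mem _ (m 0 1)) h22)) (PO_mul_right (m 1 2) h11'))
    (PO_mul_right (m 0 2) h21')

/-- PROOF. For `γ ∈ P(n)`, from `γᴴ J γ = J` and `det γ = 1`, modulo `n`:
`γ ≡ !![1, f, g; 0, 1, k; 0, 0, 1]` with `f ≡ -star k`, `2 Re g + |k|² ≡ 0`. (`⟨γe₁, γe₂⟩ = 0` gives
`d ≡ 0`; `⟨γe₁, γe₃⟩ = 1` gives `e ≡ 1`; the determinant `h ≡ 1`; `⟨γe₂, γe₃⟩ = 0` gives
`star f + k ≡ 0`.) So `γ Γ(n)` is determined by the residues of `(k, g)`: if `γ, γ' ∈ P(n)` have the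
same residues then `γ ≡ γ'`, `γ⁻¹ γ' ≡ 1`. `bor_count`. -/
theorem relIndex_GamN (q : QD) (n : ℕ) (hn : 1 ≤ n) :
    (GamN q (n : ℂ)).relIndex (PN q n) ≤ 2 * n ^ 3 := by
  have hz : NeZero n := ⟨by omega⟩
  have hcoord : ∀ (g : Gam q) (i j : Fin 3), ∃ a b : ℤ, mat g.1 i j = el q a b := fun g i j =>
    g.2 i j
  choose a b hab using hcoord
  let f : PN q n → (ZMod n × ZMod n) × (ZMod n × ZMod n) := fun g =>
    (((a g.1 1 2 : ZMod n), (b g.1 1 2 : ZMod n)), ((a g.1 0 2 : ZMod n), (b g.1 0 2 : ZMod n)))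
  have hf : ∀ g, f g ∈ {v : (ZMod n × ZMod n) × (ZMod n × ZMod n) |
      2 * v.2.1 + q.t * v.2.2 + (v.1.1 ^ 2 + q.t * v.1.1 * v.1.2 + q.n * v.1.2 ^ 2) = 0} := by
    rintro ⟨g, hg⟩
    have h1 := rel22 g
    obtain ⟨-, h22, -⟩ := PN_entries hg
    rw [hab] at h22
    rw [hab, hab, hab] at h1
    have h2 : star (el q (a g 2 2) (b g 2 2)) * el q (a g 0 2) (b g 0 2) +
        star (el q (a g 0 2) (b g 0 2)) * el q (a g 2 2) (b g 2 2) +
        star (el q (a g 1 2) (b g 1 2)) * el q (a g 1 2) (b g 1 2) = 0 := by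
      rw [← h1]; ring
    rw [form_el, norm_el] at h2
    have h3 : ((2 * a g 0 2 + q.t * b g 0 2) * a g 2 2 +
        (q.t * a g 0 2 + 2 * q.n * b g 0 2) * b g 2 2) +
        (a g 1 2 ^ 2 + q.t * a g 1 2 * b g 1 2 + q.n * b g 1 2 ^ 2) = 0 := by
      exact_mod_cast h2
    have h4 := congrArg (Int.cast : ℤ → ZMod n) h3
    push_cast at h4
    rw [← el_one (q := q), el_sub] at h22
    obtain ⟨h5, h6⟩ := dvd_of_el_mem_PO h22
    rw [← ZMod.intCast_zmod_eq_zero_iff_dvd] at h5 h6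
    push_cast at h5 h6
    rw [sub_eq_zero] at h5
    rw [sub_zero] at h6
    rw [h5, h6] at h4
    show 2 * (a g 0 2 : ZMod n) + q.t * (b g 0 2 : ZMod n) + ((a g 1 2 : ZMod n) ^ 2 +
      q.t * (a g 1 2 : ZMod n) * (b g 1 2 : ZMod n) + q.n * (b g 1 2 : ZMod n) ^ 2) = 0
    rw [← h4]
    ring
  have key := index_le_of_map ((GamN q (n : ℂ)).subgroupOf (PN q n)) f _ hf (by
    rintro ⟨g, hg⟩ ⟨h, hh⟩ hgh
    have e1 : (a g 1 2 : ZMod n) = a h 1 2 := congrArg (fun v => v.1.1) hgh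
    have e2 : (b g 1 2 : ZMod n) = b h 1 2 := congrArg (fun v => v.1.2) hgh
    have e3 : (a g 0 2 : ZMod n) = a h 0 2 := congrArg (fun v => v.2.1) hgh
    have e4 : (b g 0 2 : ZMod n) = b h 0 2 := congrArg (fun v => v.2.2) hgh
    have d12 : mat h.1 1 2 - mat g.1 1 2 ∈ PO q (n : ℂ) := by
      rw [hab, hab]
      exact sub_mem_PO_of_cast e1.symm e2.symm
    have d02 : mat h.1 0 2 - mat g.1 0 2 ∈ PO q (n : ℂ) := by
      rw [hab, hab]
      exact sub_mem_PO_of_cast e3.symm e4.symm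
    obtain ⟨g21, g22, g11, g01, g00, g10, g20⟩ := PN_entries hg
    obtain ⟨h21, h22, h11, h01, h00, h10, h20⟩ := PN_entries hh
    have d01 : mat h.1 0 1 - mat g.1 0 1 ∈ PO q (n : ℂ) := by
      have e : mat h.1 0 1 - mat g.1 0 1 = star ((star (mat h.1 0 1) + mat h.1 1 2) -
          (star (mat g.1 0 1) + mat g.1 1 2) - (mat h.1 1 2 - mat g.1 1 2)) := by
        simp only [star_sub, star_add, star_star]
        ring
      rw [e]
      exact star_mem_PO ((PO q (n : ℂ)).sub_mem ((PO q (n : ℂ)).sub_mem h01 g01) d12)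
    have sb : ∀ {x y : ℂ}, x - 1 ∈ PO q (n : ℂ) → y - 1 ∈ PO q (n : ℂ) → x - y ∈ PO q (n : ℂ) := by
      intro x y hx hy
      have := (PO q (n : ℂ)).sub_mem hx hy
      rwa [sub_sub_sub_cancel_right] at this
    have hall : ∀ i j, mat h.1 i j - mat g.1 i j ∈ PO q (n : ℂ) := by
      intro i j
      fin_cases i <;> fin_cases j
      · exact sb h00 g00
      · exact d01
      · exact d02
      · exact (PO q (n : ℂ)).sub_mem h10 g10
      · exact sb h11 g11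
      · exact d12
      · exact (PO q (n : ℂ)).sub_mem h20 g20
      · exact (PO q (n : ℂ)).sub_mem h21 g21
      · exact sb h22 g22
    show g⁻¹ * h ∈ GamN q (n : ℂ)
    rw [mem_GamN]
    intro i j
    refine mul_sub_one_mem (q := q) (p := (n : ℂ)) (a := (g⁻¹).1) (b := h.1) (g⁻¹).2
      (fun i j => ?_) i j
    have h2 : ((g⁻¹).1 : Pool.Agent.Lib.H56.Picard.SU21)⁻¹ = g.1 := inv_inv g.1
    rw [h2]
    exact hall i j)
  exact key.1.trans (bor_count n q.t q.n)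

end Pool.Agent.Lib.H89D
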