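import Pool.Agent.Lib.H89D.I2
import Pool.Agent.Lib.H89D.I2B
import Pool.Agent.Lib.H21AP.DivisorBound

/-!
# I2C: the index of the principal congruence subgroups
-/

namespace Pool.Agent.Lib.H89D

open Pool.Agent.Lib.H56.Gen
open Pool.Agent.Lib.H56.Picard (mat)

/-- **INDEX.**

PROOF. `GamN ≤ PN`, `Subgroup.relIndex_mul_index`, `divisor_bound`. -/
theorem index_bound (q : QD) {ε : ℝ} (hε : 0 < ε) : ∃ C : ℝ, 0 < C ∧ ∀ n : ℕ, 1 ≤ n →
    ((GamN q (n : ℂ)).index : ℝ) ≤ C * (n : ℝ) ^ (8 + ε) := by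
  obtain ⟨C, hC, h⟩ := Pool.Agent.Lib.H21AP.divisor_bound hε
  refine ⟨2 * ((dd q).toNat + 1) * C, by positivity, fun n hn => ?_⟩
  have h1 : GamN q (n : ℂ) ≤ PN q n := fun g hg i => hg i 0
  have h2 := Subgroup.relIndex_mul_index h1
  have h3 := relIndex_GamN q n hn
  have h4 := (index_PN q n hn).1
  have h5 : (GamN q (n : ℂ)).index ≤ 2 * n ^ 3 * ((dd q).toNat * (n ^ 5 * n.divisors.card)) := by
    rw [← h2]
    exact Nat.mul_le_mul h3 h4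
  have h6 : ((GamN q (n : ℂ)).index : ℝ) ≤
      2 * (n : ℝ) ^ 3 * ((dd q).toNat * ((n : ℝ) ^ 5 * n.divisors.card)) := by
    exact_mod_cast h5
  have hn0 : (0 : ℝ) < n := by exact_mod_cast hn
  have h7 := h n hn
  have h8 : (n : ℝ) ^ (8 + ε) = (n : ℝ) ^ 8 * (n : ℝ) ^ ε := by
    rw [Real.rpow_add hn0]
    congr 1
    exact_mod_cast Real.rpow_natCast (n : ℝ) 8
  rw [h8]
  calc ((GamN q (n : ℂ)).index : ℝ) ≤ _ := h6
    _ ≤ 2 * (n : ℝ) ^ 3 * (((dd q).toNat + 1) * ((n : ℝ) ^ 5 * (C * (n : ℝ) ^ ε))) := by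
        gcongr
        linarith
    _ = 2 * ((dd q).toNat + 1) * C * ((n : ℝ) ^ 8 * (n : ℝ) ^ ε) := by ring

end Pool.Agent.Lib.H89D
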