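import Pool.Agent.Lib.H89D.I2A

/-!
# I3: a lower bound for the index
-/

namespace Pool.Agent.Lib.H89D

open Pool.Agent.Lib.H56.Gen
open Pool.Agent.Lib.H56.Picard (mat)

lemma exists_w0 (q : QD) : ∃ a b : ℤ, (el q a b).re = 0 ∧
    ∀ n : ℕ, ∀ k : ℤ, el q (k * a) (k * b) ∈ PO q (n : ℂ) → (n : ℤ) ∣ k := by
  rcases Int.even_or_odd q.t with ⟨s, hs⟩ | ⟨s, hs⟩
  · refine ⟨-s, 1, ?_, fun n k h => ?_⟩
    · rw [el_re, hs]
      push_cast
      ring
    · have := (dvd_of_el_mem_PO h).2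
      rwa [mul_one] at this
  · refine ⟨-q.t, 2, ?_, fun n k h => ?_⟩
    · rw [el_re]
      push_cast
      ring
    · obtain ⟨h1, h2⟩ := dvd_of_el_mem_PO h
      have h3 := (dvd_add h1 (Dvd.dvd.mul_left h2 (s + 1)))
      have h4 : k * -q.t + (s + 1) * (k * 2) = k := by rw [hs]; ring
      rwa [h4] at h3

/-- PROOF. Let `w₀ = ω - t/2` if `t` is even, `w₀ = 2 ω - t` if `t` is odd (`el q (-(t/2)) 1` or
`el q (-t) 2`): purely imaginary, and `k w₀` is divisible by `n` in `OO q` only if `n ∣ k`. The matrices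
`TM 0 (k w₀)`, `0 ≤ k < n`, belong to `Gam q` and are in different cosets of `GamN q n`. The index is
finite (`GamN_finiteIndex`). -/
theorem le_index (q : QD) (n : ℕ) (hn : 1 ≤ n) : n ≤ (GamN q (n : ℂ)).index := by
  obtain ⟨a, b, hre, hw⟩ := exists_w0 q
  have hne : (n : ℂ) ≠ 0 := by
    have : n ≠ 0 := by omega
    exact_mod_cast this
  have hnO : (n : ℂ) ∈ OO q := ⟨n, 0, by rw [el_int]; simp⟩
  have hfi := GamN_finiteIndex hnO hne
  have hcond : ∀ k : ℤ, 2 * (el q (k * a) (k * b)).re = -Complex.normSq 0 := by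
    intro k
    rw [el_re] at hre ⊢
    rw [map_zero]
    push_cast
    linear_combination 2 * (k : ℝ) * hre
  let τ : ℤ → Gam q := fun k => ⟨Pool.Agent.Lib.H56.Picard.T 0 (el q (k * a) (k * b)) (hcond k),
    T_mem (hcond k) (OO q).zero_mem (el_mem _ _)⟩
  have hτ : ∀ k, mat (τ k).1 = Pool.Agent.Lib.H56.Picard.TM 0 (el q (k * a) (k * b)) := fun k =>
    Pool.Agent.Lib.H56.Picard.mat_T (hcond k)
  have hinj : Function.Injective (fun k : Fin n => ((τ (k : ℕ)) : Gam q ⧸ GamN q (n : ℂ))) := by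
    intro k k' h
    have h1 : (τ (k : ℕ))⁻¹ * τ (k' : ℕ) ∈ GamN q (n : ℂ) := QuotientGroup.eq.1 h
    have h2 : mat (τ (k' : ℕ)).1 0 2 - mat (τ (k : ℕ)).1 0 2 ∈ PO q (n : ℂ) := by
      have e1 : mat (τ (k : ℕ)).1 * mat ((τ (k : ℕ))⁻¹ * τ (k' : ℕ)).1 = mat (τ (k' : ℕ)).1 := by
        rw [← Pool.Agent.Lib.H56.Picard.mat_mul]
        have : (τ (k : ℕ)).1 * ((τ (k : ℕ))⁻¹ * τ (k' : ℕ)).1 = (τ (k' : ℕ)).1 :=
          congrArg (fun x : Gam q => x.1) (mul_inv_cancel_left (τ (k : ℕ)) (τ (k' : ℕ)))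
        rw [this]
      have e2 : mat (τ (k' : ℕ)).1 0 2 - mat (τ (k : ℕ)).1 0 2 =
          ∑ j, mat (τ (k : ℕ)).1 0 j *
            (mat ((τ (k : ℕ))⁻¹ * τ (k' : ℕ)).1 j 2 - (1 : Matrix (Fin 3) (Fin 3) ℂ) j 2) := by
        have e3 : ∑ j, mat (τ (k : ℕ)).1 0 j * (1 : Matrix (Fin 3) (Fin 3) ℂ) j 2 =
            mat (τ (k : ℕ)).1 0 2 := by
          rw [← Matrix.mul_apply, Matrix.mul_one]
        have e4 : ∑ j, mat (τ (k : ℕ)).1 0 j * mat ((τ (k : ℕ))⁻¹ * τ (k' : ℕ)).1 j 2 =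
            mat (τ (k' : ℕ)).1 0 2 := by
          rw [← Matrix.mul_apply, e1]
        simp only [mul_sub, Finset.sum_sub_distrib, e3, e4]
      rw [e2]
      exact (PO q (n : ℂ)).sum_mem fun j _ => PO_mul_left ((τ (k : ℕ)).2 0 j) (h1 j 2)
    rw [hτ, hτ] at h2
    have h3 : el q ((k' : ℕ) * a) ((k' : ℕ) * b) - el q ((k : ℕ) * a) ((k : ℕ) * b) ∈
        PO q (n : ℂ) := h2
    rw [el_sub, ← sub_mul, ← sub_mul] at h3
    have h4 := hw n _ h3
    have h5 := k.2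
    have h6 := k'.2
    apply Fin.ext
    obtain ⟨c, hc⟩ := h4
    have h7 : c = 0 := by
      by_contra hc0
      rcases lt_or_gt_of_ne hc0 with h8 | h8
      · have : (n : ℤ) * c ≤ (n : ℤ) * (-1) := by
          apply mul_le_mul_of_nonneg_left _ (by positivity)
          omega
        omega
      · have : (n : ℤ) * 1 ≤ (n : ℤ) * c := by
          apply mul_le_mul_of_nonneg_left _ (by positivity)
          omega
        omega
    rw [h7, mul_zero] at hc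
    omega
  have hfin : Finite (Gam q ⧸ GamN q (n : ℂ)) := Subgroup.finite_quotient_of_finiteIndex
  calc n = Nat.card (Fin n) := (Nat.card_fin n).symm
    _ ≤ Nat.card (Gam q ⧸ GamN q (n : ℂ)) := Nat.card_le_card_of_injective _ hinj
    _ = _ := rfl

end Pool.Agent.Lib.H89D
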