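import Pool.Agent.Lib.H89D.Defs

/-!
# LAT: points in an interval or a disc with given residues
-/

namespace Pool.Agent.Lib.H89D

/-- one residue class -/
theorem LAT_one (q : ℕ) (hq : 1 ≤ q) (x : ZMod q) (Y : ℝ) (hY : 0 ≤ Y) :
    {s : ℤ | |(s : ℝ)| ≤ Y ∧ (s : ZMod q) = x}.Finite ∧
      ({s : ℤ | |(s : ℝ)| ≤ Y ∧ (s : ZMod q) = x}.ncard : ℝ) ≤ 2 * Y / q + 1 := by
  have hqr : (0 : ℝ) < q := by exact_mod_cast hq
  have hq0 : (0 : ℤ) < q := by exact_mod_cast hq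
  have hb : {s : ℤ | |(s : ℝ)| ≤ Y ∧ (s : ZMod q) = x} ⊆ ↑(Finset.Icc (-⌊Y⌋) ⌊Y⌋) := by
    rintro s ⟨hs, -⟩
    rw [abs_le] at hs
    rw [Finset.coe_Icc, Set.mem_Icc, Int.le_floor]
    refine ⟨?_, hs.2⟩
    have : -s ≤ ⌊Y⌋ := by
      rw [Int.le_floor]
      push_cast
      linarith
    linarith
  have hfin : {s : ℤ | |(s : ℝ)| ≤ Y ∧ (s : ZMod q) = x}.Finite := (Finset.finite_toSet _).subset hb
  refine ⟨hfin, ?_⟩
  rcases Set.eq_empty_or_nonempty {s : ℤ | |(s : ℝ)| ≤ Y ∧ (s : ZMod q) = x} with h0 | hne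
  · rw [h0, Set.ncard_empty, Nat.cast_zero]
    positivity
  -- the smallest element
  obtain ⟨s₀, hs₀, hmin⟩ := Set.exists_min_image _ (fun s : ℤ => s) hfin hne
  have hmaps : ∀ s ∈ {s : ℤ | |(s : ℝ)| ≤ Y ∧ (s : ZMod q) = x},
      ((s - s₀) / q).toNat ∈ (Finset.range (⌊2 * Y / q⌋₊ + 1) : Set ℕ) := by
    intro s hs
    have h1 := hmin s hs
    have h2 : (q : ℤ) ∣ s - s₀ := by
      rw [← ZMod.intCast_zmod_eq_zero_iff_dvd]
      push_cast
      rw [hs.2, hs₀.2, sub_self]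
    obtain ⟨k, hk⟩ := h2
    have hk0 : 0 ≤ k := by
      have : 0 ≤ (q : ℤ) * k := by rw [← hk]; linarith
      exact nonneg_of_mul_nonneg_right this hq0
    rw [hk, Int.mul_ediv_cancel_left _ hq0.ne']
    rw [Finset.mem_coe, Finset.mem_range, Nat.lt_succ_iff, Nat.le_floor_iff (by positivity),
      le_div_iff₀ hqr]
    have h3 : ((k.toNat : ℤ) : ℝ) = (k : ℝ) := by rw [Int.toNat_of_nonneg hk0]
    have h4 : (k.toNat : ℝ) = k := by exact_mod_cast h3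
    rw [h4]
    have h5 : ((s : ℝ) - s₀) = q * k := by exact_mod_cast congrArg (Int.cast : ℤ → ℝ) hk
    have h6 := (abs_le.1 hs.1).2
    have h7 := (abs_le.1 hs₀.1).1
    linarith
  have hinj : Set.InjOn (fun s : ℤ => ((s - s₀) / q).toNat)
      {s : ℤ | |(s : ℝ)| ≤ Y ∧ (s : ZMod q) = x} := by
    intro s hs s' hs' h
    have key : ∀ t ∈ {s : ℤ | |(s : ℝ)| ≤ Y ∧ (s : ZMod q) = x},
        t = s₀ + q * (((t - s₀) / q).toNat : ℤ) := by
      intro t ht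
      have h1 := hmin t ht
      have h2 : (q : ℤ) ∣ t - s₀ := by
        rw [← ZMod.intCast_zmod_eq_zero_iff_dvd]
        push_cast
        rw [ht.2, hs₀.2, sub_self]
      obtain ⟨k, hk⟩ := h2
      have hk0 : 0 ≤ k := by
        have : 0 ≤ (q : ℤ) * k := by rw [← hk]; linarith
        exact nonneg_of_mul_nonneg_right this hq0
      rw [hk, Int.mul_ediv_cancel_left _ hq0.ne', Int.toNat_of_nonneg hk0, ← hk]
      ring
    rw [key s hs, key s' hs']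
    simp only at h
    rw [h]
  have h1 := Set.ncard_le_ncard_of_injOn _ hmaps hinj (Finset.finite_toSet _)
  rw [Set.ncard_coe_finset, Finset.card_range] at h1
  have h2 : ((⌊2 * Y / q⌋₊ + 1 : ℕ) : ℝ) ≤ 2 * Y / q + 1 := by
    push_cast
    have := Nat.floor_le (show 0 ≤ 2 * Y / (q : ℝ) by positivity)
    linarith
  exact le_trans (by exact_mod_cast h1) h2

/-- Integers in an interval with residues in `S`.

PROOF. For each residue class modulo `q` the interval `[-Y, Y]` contains at most `2 Y / q + 1` of its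
elements. -/
theorem lat1 (q : ℕ) (hq : 1 ≤ q) (S : Set (ZMod q)) (Y : ℝ) (hY : 0 ≤ Y) :
    {s : ℤ | |(s : ℝ)| ≤ Y ∧ (s : ZMod q) ∈ S}.Finite ∧
      ({s : ℤ | |(s : ℝ)| ≤ Y ∧ (s : ZMod q) ∈ S}.ncard : ℝ) ≤ S.ncard * (2 * Y / q + 1) := by
  classical
  have hne : NeZero q := ⟨by omega⟩
  have hS : S.Finite := Set.toFinite S
  have hsub : {s : ℤ | |(s : ℝ)| ≤ Y ∧ (s : ZMod q) ∈ S} =
      ⋃ x ∈ hS.toFinset, {s : ℤ | |(s : ℝ)| ≤ Y ∧ (s : ZMod q) = x} := by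
    ext s
    simp only [Set.mem_ofPred_eq, Set.mem_iUnion, Set.Finite.mem_toFinset, exists_prop]
    constructor
    · rintro ⟨h1, h2⟩
      exact ⟨_, h2, h1, rfl⟩
    · rintro ⟨x, hx, h1, rfl⟩
      exact ⟨h1, hx⟩
  refine ⟨?_, ?_⟩
  · rw [hsub]
    exact Set.Finite.biUnion (Finset.finite_toSet _) fun x _ => (LAT_one q hq x Y hY).1
  · have h1 : ({s : ℤ | |(s : ℝ)| ≤ Y ∧ (s : ZMod q) ∈ S}.ncard : ℝ) ≤
        ∑ x ∈ hS.toFinset, ({s : ℤ | |(s : ℝ)| ≤ Y ∧ (s : ZMod q) = x}.ncard : ℝ) := by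
      rw [hsub]
      exact_mod_cast Finset.set_ncard_biUnion_le _ _
    refine h1.trans ((Finset.sum_le_sum fun x _ => (LAT_one q hq x Y hY).2).trans (le_of_eq ?_))
    rw [Finset.sum_const, nsmul_eq_mul, Set.ncard_eq_toFinset_card _ hS]

/-- Gaussian integers in a disc with residues in `S`.

PROOF. `|Re z|, |Im z| ≤ ab z`; for each pair of residues apply the one-dimensional bound twice. -/
theorem lat2 (q : ℕ) (hq : 1 ≤ q) (S : Set (ZMod q × ZMod q)) (Y : ℝ) (hY : 0 ≤ Y) :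
    {z : Zi | ab z ≤ Y ∧ ((z.re : ZMod q), (z.im : ZMod q)) ∈ S}.Finite ∧
      ({z : Zi | ab z ≤ Y ∧ ((z.re : ZMod q), (z.im : ZMod q)) ∈ S}.ncard : ℝ) ≤
        S.ncard * (2 * Y / q + 1) ^ 2 := by
  classical
  have hne : NeZero q := ⟨by omega⟩
  have hS : S.Finite := Set.toFinite S
  obtain ⟨I, hI⟩ : ∃ I : ZMod q → Set ℤ, ∀ x, I x = {s : ℤ | |(s : ℝ)| ≤ Y ∧ (s : ZMod q) = x} :=
    ⟨_, fun _ => rfl⟩
  have hIb : ∀ x, (I x).Finite ∧ ((I x).ncard : ℝ) ≤ 2 * Y / q + 1 := by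
    intro x
    rw [hI]
    exact LAT_one q hq x Y hY
  obtain ⟨P, hP⟩ : ∃ P : ZMod q × ZMod q → Set Zi, ∀ p, P p = {z : Zi | z.re ∈ I p.1 ∧ z.im ∈ I p.2} :=
    ⟨_, fun _ => rfl⟩
  have hPb : ∀ p, (P p).Finite ∧ ((P p).ncard : ℝ) ≤ (2 * Y / q + 1) ^ 2 := by
    intro p
    have hmaps : ∀ z ∈ P p, (z.re, z.im) ∈ (I p.1) ×ˢ (I p.2) := by
      intro z hz
      rw [hP] at hz
      exact hz
    have hinj : Set.InjOn (fun z : Zi => (z.re, z.im)) (P p) := by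
      intro z _ z' _ h
      have h1 : z.re = z'.re := congrArg Prod.fst h
      have h2 : z.im = z'.im := congrArg Prod.snd h
      exact Zsqrtd.ext h1 h2
    have hf : ((I p.1) ×ˢ (I p.2)).Finite := (hIb _).1.prod (hIb _).1
    refine ⟨Set.Finite.of_injOn hmaps hinj hf, ?_⟩
    have h1 := Set.ncard_le_ncard_of_injOn _ hmaps hinj hf
    rw [Set.ncard_prod] at h1
    have h0 : 0 ≤ 2 * Y / (q : ℝ) + 1 := by positivity
    calc ((P p).ncard : ℝ) ≤ ((I p.1).ncard * (I p.2).ncard : ℕ) := by exact_mod_cast h1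
      _ = ((I p.1).ncard : ℝ) * (I p.2).ncard := by push_cast; ring
      _ ≤ (2 * Y / q + 1) * (2 * Y / q + 1) :=
        mul_le_mul (hIb _).2 (hIb _).2 (Nat.cast_nonneg _) h0
      _ = _ := by ring
  have hsub : {z : Zi | ab z ≤ Y ∧ ((z.re : ZMod q), (z.im : ZMod q)) ∈ S} ⊆
      ⋃ p ∈ hS.toFinset, P p := by
    rintro z ⟨h1, h2⟩
    rw [Set.mem_iUnion₂]
    refine ⟨_, (Set.Finite.mem_toFinset hS).2 h2, ?_⟩
    rw [hP, Set.mem_ofPred_eq, hI, hI]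
    exact ⟨⟨(abs_re_le z).trans h1, rfl⟩, ⟨(abs_im_le z).trans h1, rfl⟩⟩
  have hU : (⋃ p ∈ hS.toFinset, P p).Finite :=
    Set.Finite.biUnion (Finset.finite_toSet _) fun p _ => (hPb p).1
  refine ⟨hU.subset hsub, ?_⟩
  have h1 := (Set.ncard_le_ncard hsub hU).trans (Finset.set_ncard_biUnion_le hS.toFinset P)
  calc _ ≤ ((∑ p ∈ hS.toFinset, (P p).ncard : ℕ) : ℝ) := by exact_mod_cast h1
    _ = ∑ p ∈ hS.toFinset, ((P p).ncard : ℝ) := by push_cast; rfl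
    _ ≤ ∑ p ∈ hS.toFinset, (2 * Y / q + 1) ^ 2 := Finset.sum_le_sum fun p _ => (hPb p).2
    _ = S.ncard * (2 * Y / q + 1) ^ 2 := by
      rw [Finset.sum_const, nsmul_eq_mul, Set.ncard_eq_toFinset_card _ hS]

end Pool.Agent.Lib.H89D
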