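import Mathlib

/-!
# Counting elements of principal congruence subgroups of `SU(2,1; ℤ[i])`: definitions

The elements of `Γ(n)` are written `1 + n M`, `M` a matrix of Gaussian integers.
-/

namespace Pool.Agent.Lib.H89D

open Matrix

/-- The Gaussian integers. -/
abbrev Zi : Type := GaussianInt

/-- `3 × 3` matrices of Gaussian integers. -/
abbrev M3 : Type := Matrix (Fin 3) (Fin 3) Zi

/-- Complex absolute value of a Gaussian integer. -/
noncomputable def ab (z : Zi) : ℝ := ‖GaussianInt.toComplex z‖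

/-- The content: the greatest common divisor of the real and the imaginary part. -/
def ct (z : Zi) : ℕ := Int.gcd z.re z.im

/-- The sum of `gcd (u, q / u)` over the divisors `u` of `q` for which `u gcd (u, q / u)` divides
`r`. -/
def RS (q r : ℕ) : ℕ :=
  ∑ u ∈ q.divisors.filter (fun u => u * Nat.gcd u (q / u) ∣ r), Nat.gcd u (q / u)

/-- The Hermitian matrix. -/
def JZ : M3 := !![0, 0, 1; 0, 1, 0; 1, 0, 0]

/-- `1 + n M` belongs to `SU(2,1; ℤ[i])`. -/
def Elt (n : ℕ) (M : M3) : Prop :=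
  (1 + (n : Zi) • M)ᴴ * JZ * (1 + (n : Zi) • M) = JZ ∧ (1 + (n : Zi) • M).det = 1

/-- All entries of `1 + n M` have absolute value at most `X`. -/
def Bdd (n : ℕ) (X : ℝ) (M : M3) : Prop := ∀ i j, ab ((1 + (n : Zi) • M) i j) ≤ X

/-- The relations between the entries `a f g; b h k; c d e` of `M`. -/
structure Rels (n : ℕ) (a f g b h k c d e : Zi) (ρ η : ℤ) (τ : Zi) : Prop where
  hρ : b * d = ρ + c * h
  hc : c + star c = n * ρ
  ha : a * star c + star a * c = -ρ - b * star b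
  he : e * star c + star e * c = -ρ - d * star d
  hτ : a + e + h = n * τ
  hi : ∃ m : Zi, τ - star τ = n * m
  hf : d + star b + n * a * d = n * c * f
  hk : b + star d + n * b * e = n * c * k
  hη : h + star h = n * η
  hg : g * c = τ - η + a * e

/-- The relations for a matrix. -/
def RelsM (n : ℕ) (M : M3) (ρ η : ℤ) (τ : Zi) : Prop :=
  Rels n (M 0 0) (M 0 1) (M 0 2) (M 1 0) (M 1 1) (M 1 2) (M 2 0) (M 2 1) (M 2 2) ρ η τ

/-- The quantity `w = b c̄ - d̄ c`. -/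
def ww (M : M3) : Zi := M 1 0 * star (M 2 0) - star (M 2 1) * M 2 0

/-- Matrices satisfying the relations with `ρ ≠ 0`, with entries of `1 + n M` bounded by `X`. -/
def SR (n : ℕ) (X : ℝ) : Set M3 := {M | (∃ ρ η τ, RelsM n M ρ η τ ∧ ρ ≠ 0) ∧ Bdd n X M}

/-- Those with `|1 + n a| ≤ |1 + n e|`. -/
def S1 (n : ℕ) (X : ℝ) : Set M3 :=
  {M | M ∈ SR n X ∧ ab (1 + n * M 0 0) ≤ ab (1 + n * M 2 2)}

/-- The elements of `S1` with given `c`, `τ`, `w`, `b`, `a`. -/
def PP (n : ℕ) (X : ℝ) (c τ w b a : Zi) : Prop :=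
  ∃ (M : M3) (ρ η : ℤ), RelsM n M ρ η τ ∧ ρ ≠ 0 ∧ Bdd n X M ∧
    ab (1 + n * M 0 0) ≤ ab (1 + n * M 2 2) ∧ M 2 0 = c ∧ ww M = w ∧ M 1 0 = b ∧ M 0 0 = a

/-- The possible lower left entries `c`. -/
def CC (n : ℕ) (X : ℝ) : Set Zi :=
  {c | (∃ ρ : ℤ, ρ ≠ 0 ∧ c + star c = n * ρ) ∧ n * ab c ≤ X}

/-! ### Basic facts on `ab` -/

lemma ab_nonneg (z : Zi) : 0 ≤ ab z := norm_nonneg _

lemma ab_sq (z : Zi) : ab z ^ 2 = (z.norm : ℝ) := by
  rw [GaussianInt.intCast_real_norm, Complex.normSq_eq_norm_sq]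
  rfl

lemma ab_mul (z w : Zi) : ab (z * w) = ab z * ab w := by
  unfold ab
  rw [map_mul, norm_mul]

lemma ab_add_le (z w : Zi) : ab (z + w) ≤ ab z + ab w := by
  unfold ab
  rw [map_add]
  exact norm_add_le _ _

lemma ab_sub_le (z w : Zi) : ab (z - w) ≤ ab z + ab w := by
  unfold ab
  rw [map_sub]
  exact norm_sub_le _ _

lemma ab_neg (z : Zi) : ab (-z) = ab z := by
  unfold ab
  rw [map_neg, norm_neg]

lemma ab_zero : ab 0 = 0 := by
  unfold ab
  rw [map_zero, norm_zero]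

lemma ab_one : ab 1 = 1 := by
  unfold ab
  rw [map_one, norm_one]

lemma ab_natCast (n : ℕ) : ab (n : Zi) = n := by
  unfold ab
  rw [map_natCast]
  simp

lemma ab_intCast (n : ℤ) : ab (n : Zi) = |(n : ℝ)| := by
  unfold ab
  rw [map_intCast]
  simp

lemma ab_star (z : Zi) : ab (star z) = ab z := by
  have h1 : ab (star z) ^ 2 = ab z ^ 2 := by
    rw [ab_sq, ab_sq, Zsqrtd.norm_conj]
  exact (sq_eq_sq₀ (ab_nonneg _) (ab_nonneg _)).1 h1

lemma ab_eq_zero {z : Zi} : ab z = 0 ↔ z = 0 := by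
  constructor
  · intro h
    have h1 := ab_sq z
    rw [h] at h1
    have h2 : z.norm = 0 := by
      have : ((z.norm : ℤ) : ℝ) = 0 := by rw [← h1]; norm_num
      exact_mod_cast this
    exact GaussianInt.norm_eq_zero.1 h2
  · rintro rfl
    exact ab_zero

lemma one_le_ab {z : Zi} (hz : z ≠ 0) : 1 ≤ ab z := by
  have h1 : (1 : ℤ) ≤ z.norm := GaussianInt.norm_pos.2 hz
  have h2 : (1 : ℝ) ≤ ab z ^ 2 := by
    rw [ab_sq]
    exact_mod_cast h1
  nlinarith [ab_nonneg z]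

lemma ab_pos {z : Zi} (hz : z ≠ 0) : 0 < ab z := lt_of_lt_of_le one_pos (one_le_ab hz)

lemma abs_re_le (z : Zi) : |(z.re : ℝ)| ≤ ab z := by
  have h := Complex.abs_re_le_norm (GaussianInt.toComplex z)
  rwa [← GaussianInt.intCast_re] at h

lemma abs_im_le (z : Zi) : |(z.im : ℝ)| ≤ ab z := by
  have h := Complex.abs_im_le_norm (GaussianInt.toComplex z)
  rwa [← GaussianInt.intCast_im] at h

lemma ab_le_add (z : Zi) : ab z ≤ |(z.re : ℝ)| + |(z.im : ℝ)| := by
  have h := Complex.norm_le_abs_re_add_abs_im (GaussianInt.toComplex z)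
  rwa [← GaussianInt.intCast_re, ← GaussianInt.intCast_im] at h

end Pool.Agent.Lib.H89D
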