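import Pool.Agent.Lib.H89D.Defs

/-!
# AC: the number of `a` for given `b` and `c`
-/

namespace Pool.Agent.Lib.H89D

theorem AC_gcd {N r x y : ℤ} (hx : N ∣ r * x) (hy : N ∣ r * y) : N ∣ r * (Int.gcd x y : ℤ) := by
  rw [Int.gcd_eq_gcd_ab, mul_add, ← mul_assoc, ← mul_assoc]
  exact dvd_add (hx.mul_right _) (hy.mul_right _)

/-- if `i r z` is divisible by the integer `N`, then `N ∣ r ct z` -/
theorem AC_ct {N r : ℤ} {z u : Zi} (h : (⟨0, 1⟩ : Zi) * r * z = N * u) : N ∣ r * (ct z : ℤ) := by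
  have h1 := congrArg Zsqrtd.re h
  have h2 := congrArg Zsqrtd.im h
  simp at h1 h2
  apply AC_gcd
  · exact ⟨u.im, by linarith⟩
  · exact ⟨-u.re, by linarith⟩

theorem AC_int {Z : ℝ} (hZ : 0 ≤ Z) : {s : ℤ | |(s : ℝ)| ≤ Z}.Finite ∧
    ({s : ℤ | |(s : ℝ)| ≤ Z}.ncard : ℝ) ≤ 1 + 2 * Z := by
  have h1 : {s : ℤ | |(s : ℝ)| ≤ Z} = ↑(Finset.Icc (-⌊Z⌋) ⌊Z⌋) := by
    ext s
    rw [Set.mem_ofPred_eq, Finset.coe_Icc, Set.mem_Icc, abs_le, Int.le_floor]
    constructor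
    · rintro ⟨h1, h2⟩
      refine ⟨?_, h2⟩
      have : -s ≤ ⌊Z⌋ := by
        rw [Int.le_floor]
        push_cast
        linarith
      linarith
    · rintro ⟨h1, h2⟩
      refine ⟨?_, h2⟩
      have : -s ≤ ⌊Z⌋ := by linarith
      rw [Int.le_floor] at this
      push_cast at this
      linarith
  rw [h1]
  refine ⟨Finset.finite_toSet _, ?_⟩
  rw [Set.ncard_coe_finset, Int.card_Icc]
  have h2 : 0 ≤ ⌊Z⌋ := Int.floor_nonneg.2 hZ
  have h3 : ((⌊Z⌋ + 1 - -⌊Z⌋).toNat : ℝ) = 2 * (⌊Z⌋ : ℝ) + 1 := by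
    have : (((⌊Z⌋ + 1 - -⌊Z⌋).toNat : ℤ) : ℝ) = ((⌊Z⌋ + 1 - -⌊Z⌋ : ℤ) : ℝ) := by
      rw [Int.toNat_of_nonneg (by omega)]
    push_cast at this
    rw [this]
    ring
  rw [h3]
  have := Int.floor_le Z
  linarith

/-- The number of `a` for given `b`, `c`, `d`.

PROOF. Fix an element `a₀` of the set (with `f₀`, `k₀`). For another element `a` put `β = a - a₀`:
`β star c + star β c = 0`, so `β star c = i r` with an integer `r`; `β d = c (f - f₀)`,
`β b = c (k - k₀)`. Let `y = r / norm c` (rational), so `β = i y c`, `f - f₀ = i y d`,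
`k - k₀ = i y b`: the products of `y` with the real and imaginary parts of `c`, `d`, `b` are integers, so
`s = y μ` is an integer, `μ` the greatest common divisor of the contents. `ab β = |s| ab c / μ ≤ 2 Y`,
so at most `4 Y μ / ab c + 1` values of `s`, and `a ↦ s` is injective. -/
theorem a_count (b c d : Zi) (hc : c ≠ 0) (P D B : Zi) (Y : ℝ) (hY : 0 ≤ Y) :
    {a : Zi | ab a ≤ Y ∧ a * star c + star a * c = P ∧ (∃ f, a * d - c * f = D) ∧
      ∃ k, a * b - c * k = B}.Finite ∧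
    ({a : Zi | ab a ≤ Y ∧ a * star c + star a * c = P ∧ (∃ f, a * d - c * f = D) ∧
      ∃ k, a * b - c * k = B}.ncard : ℝ) ≤
      1 + 4 * Y * (Nat.gcd (Nat.gcd (ct b) (ct c)) (ct d) : ℕ) / ab c := by
  obtain ⟨S, hS⟩ : ∃ S : Set Zi, S = {a : Zi | ab a ≤ Y ∧ a * star c + star a * c = P ∧
    (∃ f, a * d - c * f = D) ∧ ∃ k, a * b - c * k = B} := ⟨_, rfl⟩
  rw [← hS]
  obtain ⟨μ, hμ⟩ : ∃ μ : ℕ, μ = Nat.gcd (Nat.gcd (ct b) (ct c)) (ct d) := ⟨_, rfl⟩
  rw [← hμ]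
  have hcab : 0 < ab c := ab_pos hc
  have hctc : ct c ≠ 0 := by
    intro h
    unfold ct at h
    rw [Int.gcd_eq_zero_iff] at h
    exact hc (Zsqrtd.ext h.1 h.2)
  have hμ0 : μ ≠ 0 := by
    rw [hμ]
    intro h
    rw [Nat.gcd_eq_zero_iff, Nat.gcd_eq_zero_iff] at h
    exact hctc h.1.2
  rcases S.eq_empty_or_nonempty with h0 | ⟨a₀, ha₀⟩
  · rw [h0]
    refine ⟨Set.finite_empty, ?_⟩
    rw [Set.ncard_empty, Nat.cast_zero]
    positivity
  have hN0 : (c.norm : ℤ) ≠ 0 := fun h => hc (GaussianInt.norm_eq_zero.1 h)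
  have hNc : (c.norm : Zi) = c * star c := by
    rw [Zsqrtd.norm_eq_mul_conj]
  -- the integer `s`
  have key : ∀ a ∈ S, ∃ s : ℤ, (μ : Zi) * (a - a₀) = ⟨0, 1⟩ * s * c := by
    intro a ha
    rw [hS] at ha ha₀
    obtain ⟨-, h1, ⟨f, h2⟩, k, h3⟩ := ha
    obtain ⟨-, h1', ⟨f₀, h2'⟩, k₀, h3'⟩ := ha₀
    have e1 : (a - a₀) * star c + star ((a - a₀) * star c) = 0 := by
      rw [star_mul', star_star, star_sub]
      linear_combination h1 - h1'
    obtain ⟨r, hr⟩ : ∃ r : ℤ, (a - a₀) * star c = ⟨0, 1⟩ * r := by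
      refine ⟨((a - a₀) * star c).im, ?_⟩
      have e2 := congrArg Zsqrtd.re e1
      rw [Zsqrtd.re_add, Zsqrtd.re_star] at e2
      have e3 : ((a - a₀) * star c).re = 0 := by
        have : (0 : Zi).re = 0 := rfl
        rw [this] at e2
        omega
      apply Zsqrtd.ext
      · rw [e3]
        simp
      · simp
    have e4 : (⟨0, 1⟩ : Zi) * r * c = (c.norm : ℤ) * (a - a₀) := by
      rw [← hr, hNc]
      ring
    have e5 : (⟨0, 1⟩ : Zi) * r * d = (c.norm : ℤ) * (f - f₀) := by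
      have e6 : (a - a₀) * d = c * (f - f₀) := by linear_combination h2 - h2'
      rw [← hr, hNc]
      linear_combination star c * e6
    have e7 : (⟨0, 1⟩ : Zi) * r * b = (c.norm : ℤ) * (k - k₀) := by
      have e6 : (a - a₀) * b = c * (k - k₀) := by linear_combination h3 - h3'
      rw [← hr, hNc]
      linear_combination star c * e6
    have e8 : (c.norm : ℤ) ∣ r * (μ : ℤ) := by
      rw [hμ, ← Int.gcd_natCast_natCast]
      apply AC_gcd
      · rw [← Int.gcd_natCast_natCast]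
        exact AC_gcd (AC_ct e7) (AC_ct e4)
      · exact AC_ct e5
    obtain ⟨s, hs⟩ := e8
    refine ⟨s, ?_⟩
    have hN0' : ((c.norm : ℤ) : Zi) ≠ 0 := by exact_mod_cast hN0
    apply mul_left_cancel₀ hN0'
    have hs' : (r : Zi) * μ = ((c.norm : ℤ) : Zi) * s := by exact_mod_cast congrArg (Int.cast : ℤ → Zi) hs
    linear_combination -(μ : Zi) * e4 + (⟨0, 1⟩ : Zi) * c * hs'
  choose! s hs using key
  have hZ : 0 ≤ 2 * Y * μ / ab c := by positivity
  obtain ⟨hf, hn⟩ := AC_int hZ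
  have hmaps : ∀ a ∈ S, s a ∈ {s : ℤ | |(s : ℝ)| ≤ 2 * Y * μ / ab c} := by
    intro a ha
    have h1 := congrArg ab (hs a ha)
    rw [ab_mul, ab_mul, ab_mul, ab_natCast, ab_intCast] at h1
    have h2 : ab (⟨0, 1⟩ : Zi) = 1 := by
      have h3 := ab_sq (⟨0, 1⟩ : Zi)
      have h4 : (⟨0, 1⟩ : Zi).norm = 1 := by decide
      rw [h4] at h3
      have h5 := ab_nonneg (⟨0, 1⟩ : Zi)
      push_cast at h3
      nlinarith
    rw [h2, one_mul] at h1
    have h3 : ab (a - a₀) ≤ 2 * Y := by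
      have h4 := ab_sub_le a a₀
      rw [hS] at ha ha₀
      linarith [ha.1, ha₀.1]
    rw [Set.mem_ofPred_eq, le_div_iff₀ hcab, ← h1]
    have : (0 : ℝ) ≤ μ := Nat.cast_nonneg _
    nlinarith
  have hinj : Set.InjOn s S := by
    intro a ha a' ha' h
    have h1 := hs a ha
    have h2 := hs a' ha'
    rw [h, ← h2] at h1
    have hμ0' : (μ : Zi) ≠ 0 := by exact_mod_cast hμ0
    have h3 := mul_left_cancel₀ hμ0' h1
    exact sub_left_injective h3
  refine ⟨Set.Finite.of_injOn hmaps hinj hf, ?_⟩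
  have h1 := Set.ncard_le_ncard_of_injOn s hmaps hinj hf
  calc (S.ncard : ℝ) ≤ _ := by exact_mod_cast h1
    _ ≤ 1 + 2 * (2 * Y * μ / ab c) := hn
    _ = 1 + 4 * Y * μ / ab c := by ring

end Pool.Agent.Lib.H89D
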