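import Pool.Agent.Lib.H89D.R2C

/-!
# CQ: circles modulo `q`
-/

namespace Pool.Agent.Lib.H89D

/-- Number of points modulo `q` on a circle.

PROOF. The translation `(x, y) ↦ (x + α, y + β)` maps the set to
`{x² + y² = r}` in `ZMod q`, with `r = α² + β²`. For a pair take the representatives
`0 ≤ x, y < q` and `0 ≤ r < q`: `x² + y² = r + q m` with `0 ≤ m ≤ 2 q` (an integer since
`x² + y² ≥ 0 > r - q`). For each of the at most `2 q + 1 ≤ 3 q` values of `m` the number of `(x, y)`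
is at most the number of Gaussian integers of norm `r + q m ≤ 3 q²`, which by `r2_eps` (with `ε / 2`)
is at most `C (3 q²) ^ (ε / 2)`. -/
theorem circle_count {ε : ℝ} (hε : 0 < ε) : ∃ C : ℝ, 0 < C ∧ ∀ q : ℕ, 1 ≤ q → ∀ α β : ZMod q,
    ({p : ZMod q × ZMod q | p.1 ^ 2 + p.2 ^ 2 + 2 * α * p.1 + 2 * β * p.2 = 0}.ncard : ℝ) ≤
      C * (q : ℝ) ^ (1 + ε) := by
  classical
  obtain ⟨C, hC, hr⟩ := r2_eps (show 0 < ε / 2 by linarith)
  refine ⟨3 * C * (3 : ℝ) ^ (ε / 2), by positivity, ?_⟩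
  intro q hq α β
  have hne : NeZero q := ⟨by omega⟩
  obtain ⟨r, hrdef⟩ : ∃ r : ℕ, r = (α ^ 2 + β ^ 2).val := ⟨_, rfl⟩
  have hrq : r < q := by rw [hrdef]; exact ZMod.val_lt _
  have hqr : (1 : ℝ) ≤ q := by exact_mod_cast hq
  obtain ⟨T, hT⟩ : ∃ T : ℕ → Set Zi, ∀ m, T m = {w : Zi | w.norm = (r + q * m : ℤ)} :=
    ⟨_, fun _ => rfl⟩
  have hX : (1 : ℝ) ≤ 3 * (q : ℝ) ^ 2 := by nlinarith
  have hTb : ∀ m ∈ Finset.range (2 * q + 1), (T m).Finite ∧
      ((T m).ncard : ℝ) ≤ C * (3 * (q : ℝ) ^ 2) ^ (ε / 2) := by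
    intro m hm
    rw [Finset.mem_range] at hm
    rw [hT]
    apply hr _ hX
    have h1 : (m : ℝ) ≤ 2 * q := by exact_mod_cast (by omega : m ≤ 2 * q)
    have h2 : (r : ℝ) ≤ q := by exact_mod_cast hrq.le
    push_cast
    nlinarith
  have hU : (⋃ m ∈ Finset.range (2 * q + 1), T m).Finite :=
    Set.Finite.biUnion (Finset.finite_toSet _) (fun m hm => (hTb m hm).1)
  -- the map
  have hmaps : ∀ p ∈ {p : ZMod q × ZMod q | p.1 ^ 2 + p.2 ^ 2 + 2 * α * p.1 + 2 * β * p.2 = 0},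
      (⟨(p.1 + α).val, (p.2 + β).val⟩ : Zi) ∈ ⋃ m ∈ Finset.range (2 * q + 1), T m := by
    rintro ⟨x, y⟩ hp
    have hp' : x ^ 2 + y ^ 2 + 2 * α * x + 2 * β * y = 0 := hp
    obtain ⟨u, hu⟩ : ∃ u : ℕ, u = (x + α).val := ⟨_, rfl⟩
    obtain ⟨v, hv⟩ : ∃ v : ℕ, v = (y + β).val := ⟨_, rfl⟩
    have huq : u < q := by rw [hu]; exact ZMod.val_lt _
    have hvq : v < q := by rw [hv]; exact ZMod.val_lt _
    have h1 : (q : ℤ) ∣ (u : ℤ) ^ 2 + v ^ 2 - r := by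
      rw [← ZMod.intCast_zmod_eq_zero_iff_dvd]
      push_cast
      rw [hu, hv, hrdef, ZMod.natCast_zmod_val, ZMod.natCast_zmod_val, ZMod.natCast_zmod_val]
      linear_combination hp'
    obtain ⟨m, hm⟩ := h1
    have hq0 : (0 : ℤ) < q := by exact_mod_cast hq
    have hm0 : 0 ≤ m := by
      by_contra hcon
      push Not at hcon
      have h2 : (q : ℤ) * m ≤ q * (-1) := mul_le_mul_of_nonneg_left (by omega) hq0.le
      have h3 : (r : ℤ) < q := by exact_mod_cast hrq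
      nlinarith [sq_nonneg (u : ℤ), sq_nonneg (v : ℤ)]
    have hm2 : m ≤ 2 * q := by
      by_contra hcon
      push Not at hcon
      have h2 : (q : ℤ) * (2 * q) ≤ q * m := mul_le_mul_of_nonneg_left hcon.le hq0.le
      have h3 : (0 : ℤ) ≤ r := Nat.cast_nonneg _
      have h4 : (u : ℤ) + 1 ≤ q := by exact_mod_cast huq
      have h5 : (v : ℤ) + 1 ≤ q := by exact_mod_cast hvq
      have h6 : (0 : ℤ) ≤ u := Nat.cast_nonneg _
      have h7 : (0 : ℤ) ≤ v := Nat.cast_nonneg _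
      nlinarith
    obtain ⟨k, rfl⟩ := Int.eq_ofNat_of_zero_le hm0
    rw [Set.mem_iUnion₂]
    refine ⟨k, ?_, ?_⟩
    · rw [Finset.mem_range]
      have : (k : ℤ) ≤ 2 * q := hm2
      omega
    · rw [hT, Set.mem_ofPred_eq, Zsqrtd.norm_def]
      show (((x + α).val : ℤ)) * ((x + α).val : ℤ) - -1 * ((y + β).val : ℤ) * ((y + β).val : ℤ) = _
      rw [← hu, ← hv]
      linarith
  have hinj : Set.InjOn (fun p : ZMod q × ZMod q => (⟨(p.1 + α).val, (p.2 + β).val⟩ : Zi))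
      {p : ZMod q × ZMod q | p.1 ^ 2 + p.2 ^ 2 + 2 * α * p.1 + 2 * β * p.2 = 0} := by
    intro p _ p' _ h
    have h1 : ((p.1 + α).val : ℤ) = ((p'.1 + α).val : ℤ) := congrArg Zsqrtd.re h
    have h2 : ((p.2 + β).val : ℤ) = ((p'.2 + β).val : ℤ) := congrArg Zsqrtd.im h
    have h3 : (p.1 + α).val = (p'.1 + α).val := by exact_mod_cast h1
    have h4 : (p.2 + β).val = (p'.2 + β).val := by exact_mod_cast h2
    have h5 := add_right_cancel (ZMod.val_injective q h3)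
    have h6 := add_right_cancel (ZMod.val_injective q h4)
    exact Prod.ext h5 h6
  have h1 := Set.ncard_le_ncard_of_injOn _ hmaps hinj hU
  have h2 : ((⋃ m ∈ Finset.range (2 * q + 1), T m).ncard : ℝ) ≤
      ∑ m ∈ Finset.range (2 * q + 1), ((T m).ncard : ℝ) := by
    exact_mod_cast Finset.set_ncard_biUnion_le _ _
  have h3 : ((⋃ m ∈ Finset.range (2 * q + 1), T m).ncard : ℝ) ≤
      ((2 * q + 1 : ℕ) : ℝ) * (C * (3 * (q : ℝ) ^ 2) ^ (ε / 2)) := by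
    refine h2.trans ((Finset.sum_le_sum fun m hm => (hTb m hm).2).trans (le_of_eq ?_))
    rw [Finset.sum_const, Finset.card_range, nsmul_eq_mul]
  have h4 : (3 * (q : ℝ) ^ 2) ^ (ε / 2) = (3 : ℝ) ^ (ε / 2) * (q : ℝ) ^ ε := by
    rw [Real.mul_rpow (by norm_num) (by positivity), ← Real.rpow_natCast, ← Real.rpow_mul (by positivity)]
    congr 2
    push_cast
    ring
  calc _ ≤ ((⋃ m ∈ Finset.range (2 * q + 1), T m).ncard : ℝ) := by exact_mod_cast h1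
    _ ≤ ((2 * q + 1 : ℕ) : ℝ) * (C * (3 * (q : ℝ) ^ 2) ^ (ε / 2)) := h3
    _ ≤ (3 * (q : ℝ)) * (C * ((3 : ℝ) ^ (ε / 2) * (q : ℝ) ^ ε)) := by
      rw [h4]
      gcongr
      push_cast
      linarith
    _ = 3 * C * (3 : ℝ) ^ (ε / 2) * (q : ℝ) ^ (1 + ε) := by
      rw [Real.rpow_add (by positivity), Real.rpow_one]
      ring

end Pool.Agent.Lib.H89D
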