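import Pool.Agent.Lib.H89D.BD
import Pool.Agent.Lib.H89D.CQ
import Pool.Agent.Lib.H89D.LAT

/-!
# BC: the number of `b` for given `c` and `w`
-/

namespace Pool.Agent.Lib.H89D

theorem BC_prim {c : Zi} (hc : c ≠ 0) : ct c ≠ 0 ∧ ∃ (c1 : Zi) (x y : ℤ), c = ct c * c1 ∧
    x * c1.re + y * c1.im = 1 := by
  have hctc : ct c ≠ 0 := by
    intro h
    unfold ct at h
    rw [Int.gcd_eq_zero_iff] at h
    exact hc (Zsqrtd.ext h.1 h.2)
  refine ⟨hctc, ?_⟩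
  obtain ⟨c1, hc1⟩ := BD_dvd.1 (dvd_refl (ct c))
  refine ⟨c1, Int.gcdA c.re c.im, Int.gcdB c.re c.im, hc1, ?_⟩
  have h1 := Int.gcd_eq_gcd_ab c.re c.im
  have h2 : c.re = ct c * c1.re := by
    have := congrArg Zsqrtd.re hc1
    simpa using this
  have h3 : c.im = ct c * c1.im := by
    have := congrArg Zsqrtd.im hc1
    simpa using this
  have h4 : (ct c : ℤ) ≠ 0 := by exact_mod_cast hctc
  apply mul_left_cancel₀ h4
  have h5 : (Int.gcd c.re c.im : ℤ) = ct c := rfl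
  rw [h5] at h1
  generalize Int.gcdA c.re c.im = u at *
  generalize Int.gcdB c.re c.im = v at *
  linear_combination -h1 - u * h2 - v * h3

theorem BC_kappa {b b0 d d0 c1 : Zi} {x y : ℤ} (hxy : x * c1.re + y * c1.im = 1) (hc1 : c1 ≠ 0)
    (h : (b - b0) * star c1 = star (d - d0) * c1) :
    ∃ κ : Zi, 2 * (b - b0) = κ * c1 ∧ 2 * (d - d0) = star κ * c1 := by
  have h2 : (2 : Zi) = c1 * ⟨x, -y⟩ + star c1 * ⟨x, y⟩ := by
    apply Zsqrtd.ext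
    · simp [Zsqrtd.re_star, Zsqrtd.im_star]
      have : (2 : Zi).re = 2 := rfl
      linarith
    · simp [Zsqrtd.re_star, Zsqrtd.im_star]
      have : (2 : Zi).im = 0 := rfl
      linarith
  have e1 : 2 * (b - b0) = ((b - b0) * ⟨x, -y⟩ + star (d - d0) * ⟨x, y⟩) * c1 := by
    calc 2 * (b - b0) = (c1 * ⟨x, -y⟩ + star c1 * ⟨x, y⟩) * (b - b0) := by rw [← h2]
      _ = (b - b0) * ⟨x, -y⟩ * c1 + ((b - b0) * star c1) * ⟨x, y⟩ := by ring
      _ = _ := by rw [h]; ring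
  refine ⟨(b - b0) * ⟨x, -y⟩ + star (d - d0) * ⟨x, y⟩, e1, ?_⟩
  generalize (b - b0) * ⟨x, -y⟩ + star (d - d0) * ⟨x, y⟩ = κ at e1
  have e2 : 2 * star (d - d0) = κ * star c1 := by
    apply mul_right_cancel₀ hc1
    linear_combination star c1 * e1 - 2 * h
  have e3 := congrArg star e2
  rw [star_mul', star_mul', star_star, star_star] at e3
  have e4 : star (2 : Zi) = 2 := by
    have := star_natCast (R := Zi) 2
    exact_mod_cast this
  rwa [e4] at e3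

/-- the congruence -/
theorem BC_cong {b b0 d d0 c1 κ H : Zi} {x y : ℤ} (hxy : x * c1.re + y * c1.im = 1) (hc1 : c1 ≠ 0)
    (h1 : 2 * (b - b0) = κ * c1) (h2 : 2 * (d - d0) = star κ * c1) {μ1 q1 : ℕ}
    (hco : Nat.Coprime μ1 q1) (h3 : (μ1 : Zi) * (b * d - b0 * d0) = q1 * c1 * H) :
    ((κ.re : ZMod q1)) ^ 2 + (κ.im : ZMod q1) ^ 2 +
      2 * (((⟨x, -y⟩ * d0 + ⟨x, -y⟩ * b0 : Zi).re : ℤ) : ZMod q1) * (κ.re : ZMod q1) +
      2 * (((⟨x, -y⟩ * b0 - ⟨x, -y⟩ * d0 : Zi).im : ℤ) : ZMod q1) * (κ.im : ZMod q1) = 0 := by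
  have e1 : (μ1 : Zi) * (κ * star κ * c1 + 2 * (κ * d0 + star κ * b0)) = q1 * (4 * H) := by
    apply mul_right_cancel₀ hc1
    have hb : 2 * b = 2 * b0 + κ * c1 := by linear_combination h1
    have hd : 2 * d = 2 * d0 + star κ * c1 := by linear_combination h2
    have e2 : 4 * ((μ1 : Zi) * (b * d - b0 * d0)) = 4 * (q1 * c1 * H) := by rw [h3]
    have e3 : 4 * (b * d) = (2 * b0 + κ * c1) * (2 * d0 + star κ * c1) := by
      rw [← hb, ← hd]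
      ring
    linear_combination e2 - (μ1 : Zi) * e3
  obtain ⟨u, v, huv⟩ : ∃ u v : ℤ, u * μ1 + v * q1 = 1 := by
    have := Nat.isCoprime_iff_coprime.2 hco
    exact this
  have huv' : (u : Zi) * μ1 + v * q1 = 1 := by exact_mod_cast congrArg (Int.cast : ℤ → Zi) huv
  have e2 : κ * star κ * c1 + 2 * (κ * d0 + star κ * b0) =
      q1 * (u * (4 * H) + v * (κ * star κ * c1 + 2 * (κ * d0 + star κ * b0))) := by
    linear_combination (u : Zi) * e1 - (κ * star κ * c1 + 2 * (κ * d0 + star κ * b0)) * huv'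
  generalize u * (4 * H) + v * (κ * star κ * c1 + 2 * (κ * d0 + star κ * b0)) = t at e2
  have e3 := congrArg Zsqrtd.re (congrArg (fun z => (⟨x, -y⟩ : Zi) * z) e2)
  have e4 : (q1 : ℤ) * ((⟨x, -y⟩ : Zi) * t).re = κ.re ^ 2 + κ.im ^ 2 +
      2 * (⟨x, -y⟩ * d0 + ⟨x, -y⟩ * b0 : Zi).re * κ.re +
      2 * (⟨x, -y⟩ * b0 - ⟨x, -y⟩ * d0 : Zi).im * κ.im := by
    simp [Zsqrtd.re_star, Zsqrtd.im_star] at e3 ⊢
    linear_combination -e3 + (κ.re ^ 2 + κ.im ^ 2) * hxy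
  have e5 := congrArg (Int.cast : ℤ → ZMod q1) e4
  push_cast at e5
  rw [ZMod.natCast_self, zero_mul] at e5
  exact e5.symm

/-- The number of `b` for given `c`, `w`, `ρ`, `μ`.

PROOF. Let `q = ct c ≥ 1`, `c = q c₁`, and integers `x, y` with `x Re c₁ + y Im c₁ = 1`,
`λ = x - i y`, so `Re (λ c₁) = 1`. Put `q' = q / μ`, `g = gcd (μ, q')`, `μ = g μ₁`, `q' = g q₁`,
`gcd (μ₁, q₁) = 1`. If the set is empty there is nothing to prove; otherwise fix an element `b₀` with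
`d₀`, `h₀` and let `b` (with `d`, `h`) be another one; write `b = μ b'`, `d = μ d'`, and so on, and
`c' = c / μ = q' c₁`. From `(b - b₀) star c = star (d - d₀) c`:
`(b' - b₀') star c₁ = star (d' - d₀') c₁`. Since
`2 (b' - b₀') = (b' - b₀') (x (c₁ + star c₁) - i y (c₁ - star c₁))` is divisible by `c₁`, there is `κ`
with `2 (b' - b₀') = κ c₁`, hence `2 (d' - d₀') = star κ c₁`. From `b d - b₀ d₀ = c (h - h₀)`, i.e.
`μ (b' d' - b₀' d₀') = q' c₁ (h - h₀)`: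
`μ ((2 b₀' + κ c₁) (2 d₀' + star κ c₁) - 4 b₀' d₀') = 4 q' c₁ (h - h₀)`, so
`μ₁ (κ star κ c₁ + 2 (κ d₀' + star κ b₀')) = 4 q₁ (h - h₀)`, and as `gcd (μ₁, q₁) = 1` the bracket is
divisible by `q₁`. Multiply by `λ` and take real parts: with `κ = s + i t`,
`s² + t² + 2 α s + 2 β t = 0` in `ZMod q₁`, `α = Re (λ (d₀' + b₀'))`, `β = Re (i λ (d₀' - b₀'))`. By
`circle_count` at most `C q₁ ^ (1 + ε)` residues. And `ab κ ≤ 4 (Y / μ) / ab c₁ = 4 Y q' / ab c`, so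
`lat2` (modulus `q₁`) gives the factor `(8 Y g / ab c + 1)² ≤ g² (1 + 8 Y / ab c)²`. The map `b ↦ κ` is
injective, and `q₁ ^ (1 + ε) g² ≤ q' ^ (1 + ε) g`. -/
theorem b_count {ε : ℝ} (hε : 0 < ε) : ∃ C : ℝ, 0 < C ∧ ∀ c w : Zi, c ≠ 0 → ∀ (ρ : ℤ) (μ : ℕ),
    1 ≤ μ → μ ∣ ct c → ∀ Y : ℝ, 0 ≤ Y → (BS c w ρ μ Y).Finite ∧
    ((BS c w ρ μ Y).ncard : ℝ) ≤ C * ((ct c / μ : ℕ) : ℝ) ^ (1 + ε) * Nat.gcd μ (ct c / μ) *
      (1 + 8 * Y / ab c) ^ 2 := by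
  classical
  obtain ⟨C, hC, hcirc⟩ := circle_count hε
  refine ⟨C, hC, ?_⟩
  intro c w hc ρ μ hμ hμc Y hY
  obtain ⟨hct, c1, x, y, hc1, hxy⟩ := BC_prim hc
  obtain ⟨q, hq⟩ : ∃ q, q = ct c := ⟨_, rfl⟩
  rw [← hq] at hct hc1 hμc ⊢
  obtain ⟨q', hq'⟩ := hμc
  have hqd : q / μ = q' := by
    rw [hq', Nat.mul_div_cancel_left _ hμ]
  rw [hqd]
  have hq'0 : q' ≠ 0 := by
    rintro rfl
    exact hct (by rw [hq', mul_zero])
  obtain ⟨g, hg⟩ : ∃ g, g = Nat.gcd μ q' := ⟨_, rfl⟩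
  have hg0 : 0 < g := by
    rw [hg]
    exact Nat.gcd_pos_of_pos_left _ hμ
  obtain ⟨μ1, hμ1⟩ := Nat.gcd_dvd_left μ q'
  obtain ⟨q1, hq1⟩ := Nat.gcd_dvd_right μ q'
  have hgcd := Nat.coprime_div_gcd_div_gcd (m := μ) (n := q') (by rw [← hg]; exact hg0)
  rw [← hg] at hμ1 hq1 hgcd ⊢
  have hco : Nat.Coprime μ1 q1 := by
    have f1 : μ / g = μ1 := by
      conv_lhs => rw [hμ1]
      exact Nat.mul_div_cancel_left _ hg0
    have f2 : q' / g = q1 := by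
      conv_lhs => rw [hq1]
      exact Nat.mul_div_cancel_left _ hg0
    rwa [f1, f2] at hgcd
  have hq10 : 1 ≤ q1 := by
    rcases Nat.eq_zero_or_pos q1 with h | h
    · rw [h, mul_zero] at hq1
      exact absurd hq1 hq'0
    · exact h
  have hc10 : c1 ≠ 0 := by
    rintro rfl
    exact hc (by rw [hc1, mul_zero])
  have hμr : (0 : ℝ) < μ := by exact_mod_cast hμ
  have hab1 : 0 < ab c1 := ab_pos hc10
  have habc : ab c = q * ab c1 := by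
    conv_lhs => rw [hc1]
    rw [ab_mul, ab_natCast]
  have habc0 : 0 < ab c := ab_pos hc
  rcases (BS c w ρ μ Y).eq_empty_or_nonempty with h0 | ⟨b₀, hb₀⟩
  · rw [h0]
    refine ⟨Set.finite_empty, ?_⟩
    rw [Set.ncard_empty, Nat.cast_zero]
    positivity
  obtain ⟨hb₀Y, d₀, h₀, e1, e2, e3, e4⟩ := hb₀
  obtain ⟨b₀', hb₀'⟩ := BD_dvd.1 e3
  obtain ⟨d₀', hd₀'⟩ := BD_dvd.1 e4
  obtain ⟨α, hα⟩ : ∃ α : ZMod q1, α = (((⟨x, -y⟩ * d₀' + ⟨x, -y⟩ * b₀' : Zi).re : ℤ) : ZMod q1) :=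
    ⟨_, rfl⟩
  obtain ⟨β, hβ⟩ : ∃ β : ZMod q1, β = (((⟨x, -y⟩ * b₀' - ⟨x, -y⟩ * d₀' : Zi).im : ℤ) : ZMod q1) :=
    ⟨_, rfl⟩
  obtain ⟨S, hS⟩ : ∃ S : Set (ZMod q1 × ZMod q1), S = {p : ZMod q1 × ZMod q1 |
    p.1 ^ 2 + p.2 ^ 2 + 2 * α * p.1 + 2 * β * p.2 = 0} := ⟨_, rfl⟩
  have hScard : (S.ncard : ℝ) ≤ C * (q1 : ℝ) ^ (1 + ε) := by
    rw [hS]
    exact hcirc q1 hq10 α β
  have hY' : 0 ≤ 4 * Y * q' / ab c := by positivity
  obtain ⟨hfin, hcard⟩ := lat2 q1 hq10 S (4 * Y * q' / ab c) hY'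
  have hμ0 : (μ : Zi) ≠ 0 := by
    have : μ ≠ 0 := by omega
    exact_mod_cast this
  have hg0' : (g : Zi) ≠ 0 := by
    have : g ≠ 0 := by omega
    exact_mod_cast this
  have hqZ : (q : Zi) = μ * q' := by exact_mod_cast congrArg (Nat.cast : ℕ → Zi) hq'
  have hμZ : (μ : Zi) = g * μ1 := by exact_mod_cast congrArg (Nat.cast : ℕ → Zi) hμ1
  have hq'Z : (q' : Zi) = g * q1 := by exact_mod_cast congrArg (Nat.cast : ℕ → Zi) hq1
  have hqZ0 : (q : Zi) ≠ 0 := by exact_mod_cast hct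
  have key : ∀ b ∈ BS c w ρ μ Y, ∃ κ : Zi, 2 * (b - b₀) = μ * κ * c1 ∧
      ab κ ≤ 4 * Y * q' / ab c ∧ ((κ.re : ZMod q1), (κ.im : ZMod q1)) ∈ S := by
    rintro b ⟨hbY, d, h, f1, f2, f3, f4⟩
    obtain ⟨b', hb'⟩ := BD_dvd.1 f3
    obtain ⟨d', hd'⟩ := BD_dvd.1 f4
    have g1 : (b' - b₀') * star c1 = star (d' - d₀') * c1 := by
      apply mul_left_cancel₀ hμ0
      apply mul_left_cancel₀ hqZ0
      have g2 : (b - b₀) * star c = star (d - d₀) * c := by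
        rw [star_sub]
        linear_combination f2 - e2
      rw [hb', hb₀', hd', hd₀', hc1, star_mul', star_natCast] at g2
      rw [star_sub, star_mul', star_mul', star_natCast] at g2
      rw [star_sub]
      linear_combination g2
    obtain ⟨κ, k1, k2⟩ := BC_kappa hxy hc10 g1
    have g3 : (μ1 : Zi) * (b' * d' - b₀' * d₀') = q1 * c1 * (h - h₀) := by
      apply mul_left_cancel₀ hg0'
      apply mul_left_cancel₀ hμ0
      have g4 : b * d - b₀ * d₀ = c * (h - h₀) := by linear_combination f1 - e1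
      rw [hb', hb₀', hd', hd₀', hc1, hqZ] at g4
      have g5 : (μ : Zi) * ((g : Zi) * ((μ1 : Zi) * (b' * d' - b₀' * d₀'))) =
          μ * (μ * (b' * d' - b₀' * d₀')) := by
        conv_rhs => rw [show (μ : Zi) * (μ * (b' * d' - b₀' * d₀')) =
          μ * ((g * μ1) * (b' * d' - b₀' * d₀')) by rw [← hμZ]]
        ring
      have g6 : (μ : Zi) * ((g : Zi) * (q1 * c1 * (h - h₀))) = μ * (q' * c1 * (h - h₀)) := by
        rw [hq'Z]
        ring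
      rw [g5, g6]
      linear_combination g4
    refine ⟨κ, ?_, ?_, ?_⟩
    · rw [hb', hb₀']
      linear_combination (μ : Zi) * k1
    · have g7 := congrArg ab k1
      rw [ab_mul, ab_mul] at g7
      have g8 : ab (2 : Zi) = 2 := by
        have := ab_natCast 2
        exact_mod_cast this
      rw [g8] at g7
      have g9 : (μ : ℝ) * ab (b' - b₀') ≤ 2 * Y := by
        rw [← ab_natCast μ, ← ab_mul]
        have g10 : (μ : Zi) * (b' - b₀') = b - b₀ := by rw [hb', hb₀']; ring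
        rw [g10]
        exact (ab_sub_le b b₀).trans (by linarith)
      rw [le_div_iff₀ habc0, habc]
      have g11 : (q : ℝ) = μ * q' := by exact_mod_cast hq'
      rw [g11]
      have hq'r : (0 : ℝ) ≤ q' := Nat.cast_nonneg _
      calc ab κ * ((μ : ℝ) * q' * ab c1) = q' * (μ * (ab κ * ab c1)) := by ring
        _ = q' * (2 * (μ * ab (b' - b₀'))) := by rw [← g7]; ring
        _ ≤ q' * (2 * (2 * Y)) := by gcongr
        _ = 4 * Y * q' := by ring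
    · rw [hS, Set.mem_ofPred_eq, hα, hβ]
      exact BC_cong hxy hc10 k1 k2 hco g3
  choose! κ hκ using key
  have hmaps : ∀ b ∈ BS c w ρ μ Y, κ b ∈ {z : Zi | ab z ≤ 4 * Y * q' / ab c ∧
      ((z.re : ZMod q1), (z.im : ZMod q1)) ∈ S} := fun b hb => ⟨(hκ b hb).2.1, (hκ b hb).2.2⟩
  have hinj : Set.InjOn κ (BS c w ρ μ Y) := by
    intro b hb b' hb' h
    have h1 := (hκ b hb).1
    have h2 := (hκ b' hb').1
    rw [h, ← h2] at h1
    have h3 : (2 : Zi) ≠ 0 := by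
      intro h3
      have := congrArg Zsqrtd.re h3
      simp at this
    exact sub_left_injective (mul_left_cancel₀ h3 h1)
  refine ⟨Set.Finite.of_injOn hmaps hinj hfin, ?_⟩
  have h1 := Set.ncard_le_ncard_of_injOn κ hmaps hinj hfin
  have h2 : ((BS c w ρ μ Y).ncard : ℝ) ≤ S.ncard * (2 * (4 * Y * q' / ab c) / q1 + 1) ^ 2 :=
    le_trans (by exact_mod_cast h1) hcard
  have hgr : (1 : ℝ) ≤ g := by exact_mod_cast hg0
  have hq1r : (1 : ℝ) ≤ q1 := by exact_mod_cast hq10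
  have hq'r : (q' : ℝ) = g * q1 := by exact_mod_cast hq1
  have h3 : 2 * (4 * Y * q' / ab c) / q1 + 1 ≤ g * (1 + 8 * Y / ab c) := by
    have h4 : 2 * (4 * Y * q' / ab c) / q1 = g * (8 * Y / ab c) := by
      rw [hq'r]
      field_simp
      ring
    rw [h4]
    linarith
  have h5 : (2 * (4 * Y * q' / ab c) / q1 + 1) ^ 2 ≤ (g * (1 + 8 * Y / ab c)) ^ 2 :=
    pow_le_pow_left₀ (by positivity) h3 2
  have h6 : (q1 : ℝ) ^ (1 + ε) * (g : ℝ) ^ 2 ≤ (q' : ℝ) ^ (1 + ε) * g := by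
    rw [hq'r, Real.mul_rpow (by positivity) (by positivity)]
    have h7 : (g : ℝ) ≤ (g : ℝ) ^ (1 + ε) := by
      conv_lhs => rw [← Real.rpow_one (g : ℝ)]
      exact Real.rpow_le_rpow_of_exponent_le hgr (by linarith)
    have h8 : 0 ≤ (q1 : ℝ) ^ (1 + ε) := by positivity
    calc (q1 : ℝ) ^ (1 + ε) * (g : ℝ) ^ 2 = (q1 : ℝ) ^ (1 + ε) * g * g := by ring
      _ ≤ (q1 : ℝ) ^ (1 + ε) * (g : ℝ) ^ (1 + ε) * g := by gcongr
      _ = _ := by ring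
  have h9 : 0 ≤ (1 + 8 * Y / ab c) ^ 2 := by positivity
  calc ((BS c w ρ μ Y).ncard : ℝ) ≤ S.ncard * (2 * (4 * Y * q' / ab c) / q1 + 1) ^ 2 := h2
    _ ≤ (C * (q1 : ℝ) ^ (1 + ε)) * (g * (1 + 8 * Y / ab c)) ^ 2 :=
      mul_le_mul hScard h5 (by positivity) (by positivity)
    _ = C * ((q1 : ℝ) ^ (1 + ε) * (g : ℝ) ^ 2) * (1 + 8 * Y / ab c) ^ 2 := by ring
    _ ≤ C * ((q' : ℝ) ^ (1 + ε) * g) * (1 + 8 * Y / ab c) ^ 2 := by gcongr
    _ = C * (q' : ℝ) ^ (1 + ε) * g * (1 + 8 * Y / ab c) ^ 2 := by ring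

end Pool.Agent.Lib.H89D
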