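import Pool.Agent.Lib.H89D.Defs

/-!
# BD: divisibility
-/

namespace Pool.Agent.Lib.H89D

/-- The elements `b` for given `c`, `w`, `ρ`, with `b`, `d` divisible by the integer `μ`. -/
def BS (c w : Zi) (ρ : ℤ) (μ : ℕ) (Y : ℝ) : Set Zi :=
  {b : Zi | ab b ≤ Y ∧ ∃ d h : Zi, b * d = ρ + c * h ∧ b * star c - star d * c = w ∧
    μ ∣ ct b ∧ μ ∣ ct d}

theorem BD_dvd {μ : ℕ} {z : Zi} : μ ∣ ct z ↔ ∃ z' : Zi, z = μ * z' := by
  unfold ct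
  constructor
  · intro h
    have h1 : (μ : ℤ) ∣ z.re := (Int.natCast_dvd_natCast.2 h).trans (Int.gcd_dvd_left _ _)
    have h2 : (μ : ℤ) ∣ z.im := (Int.natCast_dvd_natCast.2 h).trans (Int.gcd_dvd_right _ _)
    obtain ⟨x, hx⟩ := h1
    obtain ⟨y, hy⟩ := h2
    refine ⟨⟨x, y⟩, ?_⟩
    apply Zsqrtd.ext
    · simp [hx]
    · simp [hy]
  · rintro ⟨z', rfl⟩
    apply Int.dvd_gcd
    · exact ⟨z'.re, by simp⟩
    · exact ⟨z'.im, by simp⟩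

theorem BD_int {g : ℕ} {r : ℤ} {z : Zi} (h : (r : Zi) = g * z) : (g : ℤ) ∣ r := by
  refine ⟨z.re, ?_⟩
  have := congrArg Zsqrtd.re h
  simpa using this

/-- PROOF. `c`, `b`, `d` are divisible by `μ` (an integer divides a Gaussian integer iff it divides its
content), `b = μ b'`, `d = μ d'`, `c = μ c'`, and `g = gcd (μ, q / μ)` (`q = ct c`) divides `c'`. So `μ`
divides `ρ = μ ρ'` and `μ b' d' = ρ' + c' h`, hence `g ∣ ρ'`. -/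
theorem b_dvd {c w : Zi} {ρ : ℤ} {μ : ℕ} {Y : ℝ} (hμ : μ ∣ ct c) (hμ0 : 1 ≤ μ)
    (hne : (BS c w ρ μ Y).Nonempty) : μ * Nat.gcd μ (ct c / μ) ∣ ρ.natAbs := by
  obtain ⟨b, -, d, h, h1, -, h3, h4⟩ := hne
  obtain ⟨b', rfl⟩ := BD_dvd.1 h3
  obtain ⟨d', rfl⟩ := BD_dvd.1 h4
  obtain ⟨q', hq'⟩ := hμ
  have hc : ∃ c1 : Zi, c = μ * (q' * c1) := by
    obtain ⟨c1, hc1⟩ := BD_dvd.1 (dvd_refl (ct c))
    refine ⟨c1, ?_⟩
    rw [hc1, hq']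
    push_cast
    ring
  obtain ⟨c1, hc1⟩ := hc
  have hq : ct c / μ = q' := by
    rw [hq', Nat.mul_div_cancel_left _ hμ0]
  rw [hq]
  obtain ⟨g, hg⟩ : ∃ g, g = Nat.gcd μ q' := ⟨_, rfl⟩
  obtain ⟨u, hu⟩ := Nat.gcd_dvd_left μ q'
  obtain ⟨v, hv⟩ := Nat.gcd_dvd_right μ q'
  rw [← hg] at hu hv ⊢
  have h5 : (ρ : Zi) = ((μ * g : ℕ) : Zi) * (u * (b' * d') - v * c1 * h) := by
    have h6 : (μ : Zi) = g * u := by exact_mod_cast congrArg (Nat.cast : ℕ → Zi) hu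
    have h7 : (q' : Zi) = g * v := by exact_mod_cast congrArg (Nat.cast : ℕ → Zi) hv
    have h8 : (ρ : Zi) = μ * b' * (μ * d') - c * h := by rw [h1]; ring
    rw [h8, hc1, h7]
    push_cast
    conv_lhs => rw [show (μ : Zi) * b' * (μ * d') = μ * (g * u) * (b' * d') by rw [← h6]; ring]
    ring
  have h6 := BD_int h5
  rw [← Int.natCast_dvd]
  exact h6

end Pool.Agent.Lib.H89D
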