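import Pool.Agent.Lib.H89D.REL0

/-!
# CJ: conjugation
-/

namespace Pool.Agent.Lib.H89D

open Matrix

/-- Conjugation by `D` in `U(J)`: `D⁻¹ M D` with `D⁻¹ = J Dᴴ J`. -/
def cj (D M : M3) : M3 := JZ * Dᴴ * JZ * M * D

/-- The matrix with first column `(z, ζ, 1)`. -/
def DZ (z ζ : Zi) : M3 := !![z, star ζ, 1; ζ, -1, 0; 1, 0, 0]

lemma CJ_JJ : (JZ * JZ : M3) = 1 := by
  refine Matrix.ext fun i j => ?_
  fin_cases i <;> fin_cases j <;> simp [JZ, Matrix.mul_apply, Fin.sum_univ_three]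

lemma CJ_inv {D : M3} (hD : Dᴴ * JZ * D = JZ) : JZ * Dᴴ * JZ * D = 1 := by
  calc JZ * Dᴴ * JZ * D = JZ * (Dᴴ * JZ * D) := by simp only [Matrix.mul_assoc]
    _ = 1 := by rw [hD, CJ_JJ]

lemma CJ_inv' {D : M3} (hD : Dᴴ * JZ * D = JZ) : D * (JZ * Dᴴ * JZ) = 1 :=
  mul_eq_one_comm.1 (CJ_inv hD)

/-- PROOF. Direct computation with `z + star z = -ζ star ζ`. (`DZ = T(ζ, z) !![0,0,1;0,-1,0;1,0,0]`.) -/
theorem DZ_unitary {z ζ : Zi} (h : z + star z = -(ζ * star ζ)) : (DZ z ζ)ᴴ * JZ * DZ z ζ = JZ := by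
  refine Matrix.ext fun i j => ?_
  fin_cases i <;> fin_cases j <;>
    simp [DZ, JZ, Matrix.mul_apply, Fin.sum_univ_three]
  linear_combination h

/-- PROOF. Direct. -/
theorem DZ_det (z ζ : Zi) : (DZ z ζ).det = 1 := by
  simp [DZ, Matrix.det_fin_three]

lemma CJ_one_add {n : ℕ} {D M : M3} (hD : Dᴴ * JZ * D = JZ) :
    1 + (n : Zi) • cj D M = JZ * Dᴴ * JZ * (1 + (n : Zi) • M) * D := by
  unfold cj
  rw [Matrix.mul_add, Matrix.add_mul, Matrix.mul_one, CJ_inv hD, Matrix.mul_smul, Matrix.smul_mul]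

/-- PROOF. `cj D (1 + n M) = 1 + n cj D M` since `J Dᴴ J D = 1`; unitarity and determinant are
preserved. -/
theorem cj_elt {n : ℕ} {D M : M3} (hD : Dᴴ * JZ * D = JZ) (hM : Elt n M) : Elt n (cj D M) := by
  obtain ⟨h1, h2⟩ := hM
  have hJ : JZᴴ = JZ := by
    refine Matrix.ext fun i j => ?_
    fin_cases i <;> fin_cases j <;> simp [JZ]
  have hD' : D * JZ * Dᴴ = JZ := by
    have h3 := CJ_inv' hD
    calc D * JZ * Dᴴ = D * (JZ * Dᴴ * JZ) * JZ := by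
          simp only [Matrix.mul_assoc]
          rw [CJ_JJ, Matrix.mul_one]
      _ = JZ := by rw [h3, Matrix.one_mul]
  refine ⟨?_, ?_⟩
  · rw [CJ_one_add hD]
    set g : M3 := 1 + (n : Zi) • M with hg
    calc (JZ * Dᴴ * JZ * g * D)ᴴ * JZ * (JZ * Dᴴ * JZ * g * D)
        = Dᴴ * gᴴ * JZ * D * (JZ * JZ) * JZ * Dᴴ * JZ * g * D := by
          simp only [Matrix.conjTranspose_mul, Matrix.conjTranspose_conjTranspose, hJ,
            Matrix.mul_assoc]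
      _ = Dᴴ * (gᴴ * JZ * (D * JZ * Dᴴ) * JZ * g) * D := by
          rw [CJ_JJ]
          simp only [Matrix.mul_assoc, Matrix.one_mul]
      _ = Dᴴ * (gᴴ * JZ * g) * D := by
          rw [hD', Matrix.mul_assoc (gᴴ * JZ) JZ JZ, CJ_JJ, Matrix.mul_one]
      _ = JZ := by rw [h1, hD]
  · rw [CJ_one_add hD, Matrix.det_mul, Matrix.det_mul, h2, mul_one, ← Matrix.det_mul, CJ_inv hD,
      Matrix.det_one]

lemma CJ_entry (D : M3) (i k : Fin 3) : (JZ * Dᴴ * JZ) i k = star (D k.rev i.rev) := by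
  fin_cases i <;> fin_cases k <;>
    simp [JZ, Matrix.mul_apply, Matrix.vecMul, dotProduct, Fin.sum_univ_three]

/-- PROOF. `1 + n cj D M = J Dᴴ J (1 + n M) D`; each entry is a sum of nine products; the entries of
`J Dᴴ J` are conjugates of entries of `D`. -/
theorem cj_bdd {n : ℕ} {D M : M3} (hD : Dᴴ * JZ * D = JZ) {K X : ℝ} (hK : ∀ i j, ab (D i j) ≤ K)
    (hM : Bdd n X M) : Bdd n (9 * K ^ 2 * X) (cj D M) := by
  intro i j
  rw [CJ_one_add hD]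
  have hK0 : 0 ≤ K := (ab_nonneg _).trans (hK 0 0)
  have hX0 : 0 ≤ X := (ab_nonneg _).trans (hM 0 0)
  set g : M3 := 1 + (n : Zi) • M with hg
  have hterm : ∀ k l : Fin 3, ab ((JZ * Dᴴ * JZ) i k * g k l * D l j) ≤ K ^ 2 * X := by
    intro k l
    rw [ab_mul, ab_mul, CJ_entry, ab_star]
    have h1 := hK k.rev i.rev
    have h2 := hM k l
    have h3 := hK l j
    calc ab (D k.rev i.rev) * ab (g k l) * ab (D l j) ≤ K * X * K := by
          apply mul_le_mul (mul_le_mul h1 h2 (ab_nonneg _) hK0) h3 (ab_nonneg _)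
          positivity
      _ = K ^ 2 * X := by ring
  have h0 : (JZ * Dᴴ * JZ * g * D) i j = ∑ l, ∑ k, (JZ * Dᴴ * JZ) i k * g k l * D l j := by
    rw [Matrix.mul_apply]
    refine Finset.sum_congr rfl fun l _ => ?_
    rw [Matrix.mul_apply, Finset.sum_mul]
  rw [h0]
  simp only [Fin.sum_univ_three]
  have t := hterm
  have a1 := ab_add_le
  calc ab _ ≤ _ := (ab_add_le _ _).trans (add_le_add ((ab_add_le _ _).trans (add_le_add
        ((ab_add_le _ _).trans (add_le_add ((ab_add_le _ _).trans (add_le_add (t 0 0) (t 1 0)))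
          (t 2 0)))
        ((ab_add_le _ _).trans (add_le_add ((ab_add_le _ _).trans (add_le_add (t 0 1) (t 1 1)))
          (t 2 1)))))
        ((ab_add_le _ _).trans (add_le_add ((ab_add_le _ _).trans (add_le_add (t 0 2) (t 1 2)))
          (t 2 2))))
    _ = 9 * K ^ 2 * X := by ring

/-- PROOF. `D (cj D M) D⁻¹ = M`. -/
theorem cj_injective {D : M3} (hD : Dᴴ * JZ * D = JZ) : Function.Injective (cj D) := by
  have h0 : ∀ M : M3, D * cj D M * (JZ * Dᴴ * JZ) = M := by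
    intro M
    unfold cj
    calc D * (JZ * Dᴴ * JZ * M * D) * (JZ * Dᴴ * JZ)
        = (D * (JZ * Dᴴ * JZ)) * M * (D * (JZ * Dᴴ * JZ)) := by simp only [Matrix.mul_assoc]
      _ = M := by rw [CJ_inv' hD, Matrix.one_mul, Matrix.mul_one]
  intro M M' h
  rw [← h0 M, h, h0]

/-- PROOF. Let `M' = cj D M`, `c = M' 2 0 = ⟨e₁, M' e₁⟩`. Entry `0 0` of `elt_skew` for `M'`:
`star c + c + n ⟨M' e₁, M' e₁⟩ = 0`, with `⟨x, y⟩ = xᴴ J y`; with `hc` and `n ≥ 1`: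
`ρ = -⟨M' e₁, M' e₁⟩`, and `⟨D⁻¹ M D e₁, D⁻¹ M D e₁⟩ = ⟨M D e₁, M D e₁⟩`. -/
theorem cj_rho {n : ℕ} (hn : 1 ≤ n) {D M : M3} (hD : Dᴴ * JZ * D = JZ) (hM : Elt n M) {ρ η : ℤ}
    {τ : Zi} (h : RelsM n (cj D M) ρ η τ) :
    star (D *ᵥ ![1, 0, 0]) ⬝ᵥ ((Mᴴ * JZ * M) *ᵥ (D *ᵥ ![1, 0, 0])) = -(ρ : Zi) := by
  have h1 := elt_skew hn (cj_elt hD hM)
  have hJ : JZᴴ = JZ := by
    refine Matrix.ext fun i j => ?_
    fin_cases i <;> fin_cases j <;> simp [JZ]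
  have hD' : D * JZ * Dᴴ = JZ := by
    have h3 := CJ_inv' hD
    calc D * JZ * Dᴴ = D * (JZ * Dᴴ * JZ) * JZ := by
          simp only [Matrix.mul_assoc]
          rw [CJ_JJ, Matrix.mul_one]
      _ = JZ := by rw [h3, Matrix.one_mul]
  have h2 : (cj D M)ᴴ * JZ * cj D M = Dᴴ * (Mᴴ * JZ * M) * D := by
    unfold cj
    calc (JZ * Dᴴ * JZ * M * D)ᴴ * JZ * (JZ * Dᴴ * JZ * M * D)
        = Dᴴ * Mᴴ * JZ * D * (JZ * JZ) * JZ * Dᴴ * JZ * M * D := by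
          simp only [Matrix.conjTranspose_mul, Matrix.conjTranspose_conjTranspose, hJ,
            Matrix.mul_assoc]
      _ = Dᴴ * (Mᴴ * JZ * (D * JZ * Dᴴ) * JZ * M) * D := by
          rw [CJ_JJ]
          simp only [Matrix.mul_assoc, Matrix.one_mul]
      _ = Dᴴ * (Mᴴ * JZ * M) * D := by
          rw [hD', Matrix.mul_assoc (Mᴴ * JZ) JZ JZ, CJ_JJ, Matrix.mul_one]
  have h3 := congrFun (congrFun h1 0) 0
  rw [Matrix.add_apply, Matrix.add_apply, Matrix.smul_apply, h2] at h3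
  have h4 : ((cj D M)ᴴ * JZ) 0 0 = star (cj D M 2 0) := by
    simp [JZ, Matrix.mul_apply, Fin.sum_univ_three]
  have h5 : (JZ * cj D M) 0 0 = cj D M 2 0 := by
    simp [JZ, Matrix.mul_apply, Fin.sum_univ_three]
  rw [h4, h5] at h3
  have h6 := h.hc
  have h7 : (Dᴴ * (Mᴴ * JZ * M) * D) 0 0 =
      star (D *ᵥ ![1, 0, 0]) ⬝ᵥ ((Mᴴ * JZ * M) *ᵥ (D *ᵥ ![1, 0, 0])) := by
    generalize Mᴴ * JZ * M = Q
    simp [Matrix.mul_apply, Matrix.mulVec, dotProduct, Fin.sum_univ_three]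
    ring
  rw [h7] at h3
  have hn0 : (n : Zi) ≠ 0 := by
    have : n ≠ 0 := by omega
    exact_mod_cast this
  have h8 : (n : Zi) * (star (D *ᵥ ![1, 0, 0]) ⬝ᵥ ((Mᴴ * JZ * M) *ᵥ (D *ᵥ ![1, 0, 0]))) =
      (n : Zi) * (-(ρ : Zi)) := by
    rw [smul_eq_mul] at h3
    have h9 : (0 : M3) 0 0 = 0 := rfl
    rw [h9] at h3
    linear_combination h3 - h6
  exact mul_left_cancel₀ hn0 h8

end Pool.Agent.Lib.H89D
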