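import Pool.Agent.Lib.H89D.Defs

/-!
# V1: a Hermitian form vanishing at nine isotropic vectors
-/

namespace Pool.Agent.Lib.H89D

open Matrix

/-- The parameters `(z, ζ)` of the isotropic vectors `(z, ζ, 1)`. -/
def VS : List (Zi × Zi) :=
  [(0, 0), (⟨0, 1⟩, 0), (-1, ⟨1, 1⟩), (-1, ⟨-1, -1⟩), (-1, ⟨1, -1⟩), (-1, ⟨-1, 1⟩),
    (⟨-1, 1⟩, ⟨1, 1⟩), (⟨-1, 1⟩, ⟨1, -1⟩)]

lemma V1_form (Q : M3) (z ζ : Zi) : star ![z, ζ, 1] ⬝ᵥ (Q *ᵥ ![z, ζ, 1]) =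
    star z * (Q 0 0 * z + Q 0 1 * ζ + Q 0 2) + star ζ * (Q 1 0 * z + Q 1 1 * ζ + Q 1 2) +
      (Q 2 0 * z + Q 2 1 * ζ + Q 2 2) := by
  simp [Matrix.mulVec, dotProduct, Fin.sum_univ_three]

/-- A Hermitian form vanishing at `e₁` and at the vectors `(z, ζ, 1)`, `(z, ζ)` in `VS`, is a multiple
of `J`.
PROOF. `Q = (q_ij)`. `e₁`: `q₀₀ = 0`; `(0,0,1)`: `q₂₂ = 0`; `(i,0,1)`: `2 Re (star i q₀₂) = 0`, so `q₀₂` is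
real. `(-1, ζ, 1)`: `2 q₁₁ - 2 q₀₂ + 2 Re (-ζ q₀₁ + star ζ q₁₂) = 0` for `ζ = ±(1+i), ±(1-i)`: so
`q₁₁ = q₀₂` and `Re (-ζ q₀₁ + star ζ q₁₂) = 0` for `ζ = 1 ± i`. `(-1+i, ζ, 1)`, `ζ = 1 ± i`: moreover
`Re (i ζ q₀₁) = 0`, so `q₀₁ = 0`, then `q₁₂ = 0`. `μ = q₁₁`. -/
theorem herm_vanish {Q : M3} (hQ : Qᴴ = Q) (h0 : star ![1, 0, 0] ⬝ᵥ (Q *ᵥ ![1, 0, 0]) = 0)
    (h : ∀ p ∈ VS, star ![p.1, p.2, 1] ⬝ᵥ (Q *ᵥ ![p.1, p.2, 1]) = 0) :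
    ∃ μ : ℤ, Q = (μ : Zi) • JZ := by
  have hs : ∀ i j, star (Q j i) = Q i j := fun i j => congrFun (congrFun hQ i) j
  have e0 : Q 0 0 = 0 := by
    simpa [Matrix.mulVec, dotProduct, Fin.sum_univ_three] using h0
  have key : ∀ z ζ : Zi, (z, ζ) ∈ VS → (star z * (Q 0 0 * z + Q 0 1 * ζ + Q 0 2) +
      star ζ * (Q 1 0 * z + Q 1 1 * ζ + Q 1 2) + (Q 2 0 * z + Q 2 1 * ζ + Q 2 2)).re = 0 := by
    intro z ζ hz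
    have h1 := h (z, ζ) hz
    rw [V1_form] at h1
    rw [h1]
    rfl
  have k1 := key 0 0 (by simp [VS])
  have k2 := key ⟨0, 1⟩ 0 (by simp [VS])
  have k3 := key (-1) ⟨1, 1⟩ (by simp [VS])
  have k4 := key (-1) ⟨-1, -1⟩ (by simp [VS])
  have k5 := key (-1) ⟨1, -1⟩ (by simp [VS])
  have k6 := key (-1) ⟨-1, 1⟩ (by simp [VS])
  have k7 := key ⟨-1, 1⟩ ⟨1, 1⟩ (by simp [VS])
  have k8 := key ⟨-1, 1⟩ ⟨1, -1⟩ (by simp [VS])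
  have s00r := congrArg Zsqrtd.re e0
  have s11 := congrArg Zsqrtd.im (hs 1 1)
  have s22 := congrArg Zsqrtd.im (hs 2 2)
  have s01r := congrArg Zsqrtd.re (hs 1 0)
  have s01i := congrArg Zsqrtd.im (hs 1 0)
  have s02r := congrArg Zsqrtd.re (hs 2 0)
  have s02i := congrArg Zsqrtd.im (hs 2 0)
  have s12r := congrArg Zsqrtd.re (hs 2 1)
  have s12i := congrArg Zsqrtd.im (hs 2 1)
  have s00i := congrArg Zsqrtd.im e0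
  simp only [Zsqrtd.re_mul, Zsqrtd.im_mul, Zsqrtd.re_add, Zsqrtd.im_add, Zsqrtd.re_star,
    Zsqrtd.im_star, Zsqrtd.re_zero, Zsqrtd.im_zero, Zsqrtd.re_neg, Zsqrtd.im_neg, Zsqrtd.re_one,
    Zsqrtd.im_one, star_zero, star_neg, star_one] at k1 k2 k3 k4 k5 k6 k7 k8 s00r s00i s11 s22 s01r s01i s02r s02i s12r s12i
  refine ⟨(Q 1 1).re, Matrix.ext fun i j => ?_⟩
  have hr : ∀ x : ℤ, ((x : ℤ) : Zi).re = x := fun x => rfl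
  have hi : ∀ x : ℤ, ((x : ℤ) : Zi).im = 0 := fun x => rfl
  fin_cases i <;> fin_cases j <;> rw [Zsqrtd.ext_iff] <;>
    simp [JZ] <;> omega

end Pool.Agent.Lib.H89D
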