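import Pool.Agent.Lib.H89D.REL0

/-!
# V2: elements with `Mᴴ J M` proportional to `J`
-/

namespace Pool.Agent.Lib.H89D

open Matrix

lemma V2_JJ : (JZ * JZ : M3) = 1 := by
  refine Matrix.ext fun i j => ?_
  fin_cases i <;> fin_cases j <;> simp [JZ, Matrix.mul_apply, Fin.sum_univ_three]

lemma V2_trace (g : M3) : (JZ * gᴴ * JZ).trace = star g.trace := by
  rw [Matrix.trace_mul_comm, ← Matrix.mul_assoc, V2_JJ, Matrix.one_mul, Matrix.trace_conjTranspose]

lemma V2_det (s : Zi) (g : M3) :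
    (s • (1 : M3) - g).det = s ^ 3 - s ^ 2 * g.trace + s * (adjugate g).trace - g.det := by
  rw [Matrix.det_fin_three, Matrix.det_fin_three, Matrix.trace_fin_three, Matrix.trace_fin_three,
    Matrix.adjugate_fin_three]
  simp
  ring

lemma V2_int {s : ℤ} (h : s ^ 3 - 3 * s ^ 2 + 4 = 0) (h2 : ∃ x, 2 * x = 3 * s) : s = 2 := by
  have h1 : (s - 2) ^ 2 * (s + 1) = 0 := by linear_combination h
  rcases mul_eq_zero.mp h1 with h3 | h3
  · have := pow_eq_zero_iff (two_ne_zero) |>.mp h3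
    omega
  · obtain ⟨x, hx⟩ := h2
    omega

/-- PROOF. By `elt_skew`, `Mᴴ J = -J M - n μ J`; multiply by `M` on the right:
`μ J = -J M² - n μ J M`, so `M² + n μ M + μ = 0`. With `g = 1 + n M` and `s = 2 - n² μ` (an integer):
`g² = s g - 1`. Since `det g = 1` and `gᴴ J g = J`, `g⁻¹ = J gᴴ J`, so with `t = trace g`:
`trace g⁻¹ = star t`, and `g + g⁻¹ = s` gives `t + star t = 3 s`, i.e. `2 Re t = 3 s`, so `s` is even.
From `g (g - s) = -1`: `det (g - s) = -1`; expanding the determinant,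
`det (g - s) = -(s³ - t s² + star t s - 1)` (the second coefficient is the trace of the adjugate
`= g⁻¹`, i.e. `star t`). So `s³ - t s² + star t s = 2`; real parts with `2 Re t = 3 s`:
`2 s³ - 3 s³ + 3 s² = 4`, i.e. `(s - 2)² (s + 1) = 0`; `s` even gives `s = 2`, `n² μ = 0`, `μ = 0`. Then
`M² = 0` and `Mᴴ J = -J M`. -/
theorem sq_zero {n : ℕ} (hn : 1 ≤ n) {M : M3} (h : Elt n M) {μ : ℤ}
    (hμ : Mᴴ * JZ * M = (μ : Zi) • JZ) : M * M = 0 ∧ Mᴴ * JZ = -(JZ * M) := by
  have hs := elt_skew hn h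
  obtain ⟨hu, hd⟩ := h
  set g : M3 := 1 + (n : Zi) • M with hg
  rw [hμ] at hs
  have h1 : Mᴴ * JZ = -(JZ * M) - (n : Zi) • (μ : Zi) • JZ := by
    rw [← sub_eq_zero, ← hs]
    abel
  have h2 : (μ : Zi) • JZ = -(JZ * (M * M)) - (n : Zi) • (μ : Zi) • (JZ * M) := by
    rw [← hμ, h1, Matrix.sub_mul, Matrix.neg_mul, Matrix.mul_assoc, Matrix.smul_mul,
      Matrix.smul_mul]
  have h3 : (μ : Zi) • (1 : M3) = -(M * M) - (n : Zi) • (μ : Zi) • M := by
    have h4 := congrArg (fun A => JZ * A) h2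
    simp only [Matrix.mul_smul, Matrix.mul_sub, Matrix.mul_neg, ← Matrix.mul_assoc, V2_JJ,
      Matrix.one_mul] at h4
    exact h4
  set s : ℤ := 2 - (n : ℤ) ^ 2 * μ with hsd
  have hsg : g * ((s : Zi) • (1 : M3) - g) = 1 := by
    have h5 : M * M = -((μ : Zi) • (1 : M3)) - (n : Zi) • (μ : Zi) • M := by
      rw [h3]; abel
    rw [hg]
    simp only [Matrix.mul_sub, Matrix.mul_smul, Matrix.mul_one, Matrix.mul_add, Matrix.add_mul,
      Matrix.smul_mul, Matrix.one_mul]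
    rw [h5, hsd]
    push_cast
    refine Matrix.ext fun i j => ?_
    simp only [Matrix.sub_apply, Matrix.add_apply, Matrix.smul_apply, Matrix.neg_apply,
      smul_eq_mul]
    ring
  have hinv : (JZ * gᴴ * JZ) * g = 1 := by
    calc (JZ * gᴴ * JZ) * g = JZ * (gᴴ * JZ * g) := by simp only [Matrix.mul_assoc]
      _ = 1 := by rw [hu, V2_JJ]
  have he : JZ * gᴴ * JZ = (s : Zi) • (1 : M3) - g := by
    calc JZ * gᴴ * JZ = (JZ * gᴴ * JZ) * (g * ((s : Zi) • (1 : M3) - g)) := by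
          rw [hsg, Matrix.mul_one]
      _ = _ := by rw [← Matrix.mul_assoc, hinv, Matrix.one_mul]
  have hadj : adjugate g = (s : Zi) • (1 : M3) - g := by
    calc adjugate g = adjugate g * (g * ((s : Zi) • (1 : M3) - g)) := by
          rw [hsg, Matrix.mul_one]
      _ = _ := by rw [← Matrix.mul_assoc, Matrix.adjugate_mul, hd, one_smul, Matrix.one_mul]
  have htr : ((s : Zi) • (1 : M3) - g).trace = 3 * s - g.trace := by
    rw [Matrix.trace_sub, Matrix.trace_smul, Matrix.trace_one]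
    simp
    ring
  have ht : star g.trace = 3 * s - g.trace := by
    rw [← V2_trace, he, htr]
  have hdet : ((s : Zi) • (1 : M3) - g).det = 1 := by
    have h6 := congrArg Matrix.det hsg
    rwa [Matrix.det_mul, hd, one_mul, Matrix.det_one] at h6
  rw [V2_det, hadj, htr, hd] at hdet
  generalize g.trace = t at ht hdet
  have hre := congrArg Zsqrtd.re ht
  have hre2 := congrArg Zsqrtd.re hdet
  have e1 : ((s : Zi) ^ 3).re = s ^ 3 := by rw [← Int.cast_pow]; rfl
  have e2 : ((s : Zi) ^ 2 * t).re = s ^ 2 * t.re := by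
    rw [← Int.cast_pow, Zsqrtd.re_mul]
    have e3 : (((s ^ 2 : ℤ) : Zi)).re = s ^ 2 := rfl
    have e4 : (((s ^ 2 : ℤ) : Zi)).im = 0 := rfl
    rw [e3, e4]
    ring
  have e5 : (3 * (s : Zi) - t).re = 3 * s - t.re := by
    rw [show (3 * (s : Zi) - t) = ((3 * s : ℤ) : Zi) - t by push_cast; ring, Zsqrtd.re_sub]
    rfl
  have e6 : ((s : Zi) * (3 * (s : Zi) - t)).re = s * (3 * s - t.re) := by
    rw [Zsqrtd.re_mul, e5]
    have e7 : ((s : ℤ) : Zi).re = s := rfl
    have e8 : ((s : ℤ) : Zi).im = 0 := rfl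
    rw [e7, e8]
    ring
  rw [e5, Zsqrtd.re_star] at hre
  rw [Zsqrtd.re_sub, Zsqrtd.re_add, Zsqrtd.re_sub, e1, e2, e6, Zsqrtd.re_one] at hre2
  have hs2 : s = 2 := by
    apply V2_int
    · have h7 : t.re + t.re = 3 * s := by linarith
      have h8 : 2 * (s ^ 3 - s ^ 2 * t.re + s * (3 * s - t.re) - 1) = 2 := by rw [hre2]; norm_num
      have h9 : 2 * t.re = 3 * s := by linarith
      linear_combination -h8 - (s ^ 2 + s) * h9
    · exact ⟨t.re, by linarith⟩
  have hμ0 : μ = 0 := by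
    have h10 : (n : ℤ) ^ 2 * μ = 0 := by omega
    rcases mul_eq_zero.mp h10 with h11 | h11
    · have : (n : ℤ) = 0 := by simpa using h11
      omega
    · exact h11
  subst hμ0
  refine ⟨?_, ?_⟩
  · have h12 := h3
    simp only [Int.cast_zero, zero_smul, smul_zero, sub_zero] at h12
    exact neg_eq_zero.mp h12.symm
  · rw [h1]
    simp

end Pool.Agent.Lib.H89D
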