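import Pool.Agent.Lib.H89D.REL
import Pool.Agent.Lib.H89D.V1
import Pool.Agent.Lib.H89D.V2
import Pool.Agent.Lib.H89D.CJ

/-!
# CA1: the dichotomy
-/

namespace Pool.Agent.Lib.H89D

open Matrix in
lemma CA1_one_unitary : (1 : M3)ᴴ * JZ * 1 = JZ := by simp

open Matrix in
lemma CA1_DZ_vec (z ζ : Zi) : DZ z ζ *ᵥ ![1, 0, 0] = ![z, ζ, 1] := by
  funext i
  fin_cases i <;> simp [DZ, Matrix.mulVec, dotProduct, Fin.sum_univ_three]

lemma CA1_iso {p : Zi × Zi} (hp : p ∈ VS) : p.1 + star p.1 = -(p.2 * star p.2) := by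
  simp only [VS, List.mem_cons, List.not_mem_nil, or_false] at hp
  rcases hp with rfl | rfl | rfl | rfl | rfl | rfl | rfl | rfl <;>
    (rw [Zsqrtd.ext_iff]; simp)

open Matrix in
lemma CA1_unitary {D : M3} (hD : D ∈ (1 : M3) :: VS.map (fun p => DZ p.1 p.2)) :
    Dᴴ * JZ * D = JZ := by
  rcases List.mem_cons.1 hD with rfl | hD
  · exact CA1_one_unitary
  · obtain ⟨p, hp, rfl⟩ := List.mem_map.1 hD
    exact DZ_unitary (CA1_iso hp)

/-- The dichotomy.
PROOF. Suppose that for `D = 1` and all `D = DZ z ζ`, `(z, ζ) ∈ VS` (they satisfy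
`z + star z = -ζ star ζ`), the `ρ` of `cj D M` (`rels_of_elt`, `cj_elt`) vanishes. By `cj_rho`,
`Q = Mᴴ J M` (Hermitian) vanishes at `e₁` and at the vectors `DZ z ζ e₁ = (z, ζ, 1)`, so by
`herm_vanish` `Q = μ J` and by `sq_zero` `M² = 0`. -/
theorem dichotomy {n : ℕ} (hn : 1 ≤ n) {M : M3} (h : Elt n M) :
    (M * M = 0 ∧ M.conjTranspose * JZ = -(JZ * M)) ∨
      ∃ D ∈ (1 : M3) :: VS.map (fun p => DZ p.1 p.2), ∃ (ρ η : ℤ) (τ : Zi),
        RelsM n (cj D M) ρ η τ ∧ ρ ≠ 0 := by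
  by_cases hall : ∀ D ∈ (1 : M3) :: VS.map (fun p => DZ p.1 p.2), ∀ (ρ η : ℤ) (τ : Zi),
      RelsM n (cj D M) ρ η τ → ρ = 0
  · left
    have key : ∀ D ∈ (1 : M3) :: VS.map (fun p => DZ p.1 p.2),
        star (Matrix.mulVec D ![1, 0, 0]) ⬝ᵥ
          (Matrix.mulVec (M.conjTranspose * JZ * M) (Matrix.mulVec D ![1, 0, 0])) = 0 := by
      intro D hD
      have hu := CA1_unitary hD
      obtain ⟨ρ, η, τ, hr⟩ := rels_of_elt hn (cj_elt hu h)
      have h0 := hall D hD ρ η τ hr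
      have h1 := cj_rho hn hu h hr
      rw [h0] at h1
      simpa using h1
    have hJ : JZ.conjTranspose = JZ := by
      refine Matrix.ext fun i j => ?_
      fin_cases i <;> fin_cases j <;> simp [JZ]
    have hQ : (M.conjTranspose * JZ * M).conjTranspose = M.conjTranspose * JZ * M := by
      rw [Matrix.conjTranspose_mul, Matrix.conjTranspose_mul, Matrix.conjTranspose_conjTranspose,
        hJ, Matrix.mul_assoc]
    have h0 := key 1 (List.mem_cons_self)
    rw [Matrix.one_mulVec] at h0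
    obtain ⟨μ, hμ⟩ := herm_vanish hQ h0 (by
      intro p hp
      have h1 := key (DZ p.1 p.2) (List.mem_cons_of_mem _ (List.mem_map.2 ⟨p, hp, rfl⟩))
      rw [CA1_DZ_vec] at h1
      exact h1)
    exact sq_zero hn h hμ
  · right
    push Not at hall
    obtain ⟨D, hD, ρ, η, τ, h1, h2⟩ := hall
    exact ⟨D, hD, ρ, η, τ, h1, h2⟩

end Pool.Agent.Lib.H89D
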