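import Pool.Agent.Lib.H89D.N1

/-!
# NR: the number of elements with `ρ ≠ 0`
-/

namespace Pool.Agent.Lib.H89D

/-- The anti-transpose: `a ↔ e`, `b ↔ d`, `f ↔ k`. -/
def antiT (M : M3) : M3 := !![M 2 2, M 1 2, M 0 2; M 2 1, M 1 1, M 0 1; M 2 0, M 1 0, M 0 0]

/-- PROOF. All relations are symmetric under `a ↔ e`, `b ↔ d`, `f ↔ k`. -/
theorem relsM_antiT {n : ℕ} {M : M3} {ρ η : ℤ} {τ : Zi} (h : RelsM n M ρ η τ) :
    RelsM n (antiT M) ρ η τ := by
  unfold RelsM at h ⊢
  refine ⟨?_, ?_, ?_, ?_, ?_, ?_, ?_, ?_, ?_, ?_⟩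
  · have := h.hρ
    simp only [antiT, Matrix.of_apply, Matrix.cons_val]
    linear_combination this
  · have := h.hc
    simp only [antiT, Matrix.of_apply, Matrix.cons_val]
    linear_combination this
  · have := h.he
    simp only [antiT, Matrix.of_apply, Matrix.cons_val]
    linear_combination this
  · have := h.ha
    simp only [antiT, Matrix.of_apply, Matrix.cons_val]
    linear_combination this
  · have := h.hτ
    simp only [antiT, Matrix.of_apply, Matrix.cons_val]
    linear_combination this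
  · exact h.hi
  · have := h.hk
    simp only [antiT, Matrix.of_apply, Matrix.cons_val]
    linear_combination this
  · have := h.hf
    simp only [antiT, Matrix.of_apply, Matrix.cons_val]
    linear_combination this
  · have := h.hη
    simp only [antiT, Matrix.of_apply, Matrix.cons_val]
    linear_combination this
  · have := h.hg
    simp only [antiT, Matrix.of_apply, Matrix.cons_val]
    linear_combination this

lemma NR_antiT_apply (M : M3) (i j : Fin 3) : antiT M i j = M j.rev i.rev := by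
  fin_cases i <;> fin_cases j <;> rfl

lemma NR_antiT_antiT (M : M3) : antiT (antiT M) = M := by
  refine Matrix.ext fun i j => ?_
  rw [NR_antiT_apply, NR_antiT_apply, Fin.rev_rev, Fin.rev_rev]

lemma NR_bdd {n : ℕ} {X : ℝ} {M : M3} (h : Bdd n X M) : Bdd n X (antiT M) := by
  intro i j
  have h1 : (1 + (n : Zi) • antiT M) i j = (1 + (n : Zi) • M) j.rev i.rev := by
    rw [Matrix.add_apply, Matrix.add_apply, Matrix.smul_apply, Matrix.smul_apply, NR_antiT_apply]
    congr 1
    by_cases hij : i = j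
    · subst hij
      rw [Matrix.one_apply_eq, Matrix.one_apply_eq]
    · rw [Matrix.one_apply_ne hij, Matrix.one_apply_ne (fun h => hij (Fin.rev_injective h).symm)]
  rw [h1]
  exact h _ _

lemma NR_SR {n : ℕ} {X : ℝ} {M : M3} (h : M ∈ SR n X) : antiT M ∈ SR n X := by
  obtain ⟨⟨ρ, η, τ, h1, h2⟩, h3⟩ := h
  exact ⟨⟨ρ, η, τ, relsM_antiT h1, h2⟩, NR_bdd h3⟩

/-- PROOF. `antiT` is an involution, preserves `Bdd` and (`relsM_antiT`) the relations; an element of
`SR n X` is in `S1 n X` or its anti-transpose is. Apply `s1_count`. -/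
theorem sr_count {ε : ℝ} (hε : 0 < ε) : ∃ C : ℝ, 0 < C ∧ ∀ n : ℕ, 1 ≤ n → ∀ X : ℝ, 1 ≤ X →
    (SR n X).Finite ∧
      ((SR n X).ncard : ℝ) ≤ C * X ^ ε * (X ^ 2 + X ^ 4 / (n : ℝ) ^ 8) := by
  obtain ⟨C, hC, h⟩ := s1_count hε
  refine ⟨2 * C, by positivity, fun n hn X hX => ?_⟩
  obtain ⟨hf, hb⟩ := h n hn X hX
  have hsub : SR n X ⊆ S1 n X ∪ antiT '' S1 n X := by
    intro M hM
    rcases le_total (ab (1 + n * M 0 0)) (ab (1 + n * M 2 2)) with h1 | h1
    · exact Or.inl ⟨hM, h1⟩
    · refine Or.inr ⟨antiT M, ⟨NR_SR hM, ?_⟩, NR_antiT_antiT M⟩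
      exact h1
  have hfin : (S1 n X ∪ antiT '' S1 n X).Finite := hf.union (hf.image _)
  refine ⟨hfin.subset hsub, ?_⟩
  have h1 : (SR n X).ncard ≤ (S1 n X).ncard + (S1 n X).ncard :=
    (Set.ncard_le_ncard hsub hfin).trans ((Set.ncard_union_le _ _).trans
      (Nat.add_le_add_left (Set.ncard_image_le hf) _))
  have h2 : ((SR n X).ncard : ℝ) ≤ (S1 n X).ncard + (S1 n X).ncard := by exact_mod_cast h1
  linarith

end Pool.Agent.Lib.H89D
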