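import Pool.Agent.Lib.H89D.Defs

/-!
# U1: unipotent elements
-/

namespace Pool.Agent.Lib.H89D

open Matrix

lemma U1_adj (M : M3) : adjugate M = M * M - M.trace • M + (adjugate M).trace • (1 : M3) := by
  rw [Matrix.adjugate_fin_three, Matrix.trace_fin_three, Matrix.trace_fin_three]
  refine Matrix.ext fun i j => ?_
  fin_cases i <;> fin_cases j <;>
    simp [Matrix.mul_apply, Fin.sum_univ_three] <;> ring

lemma U1_e2 (M : M3) : 2 * (adjugate M).trace = M.trace ^ 2 - (M * M).trace := by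
  rw [Matrix.adjugate_fin_three, Matrix.trace_fin_three, Matrix.trace_fin_three,
    Matrix.trace_fin_three]
  simp [Matrix.mul_apply, Fin.sum_univ_three]
  ring

lemma U1_im {z : Zi} (h : star z = -z) : z = ⟨0, z.im⟩ := by
  have h1 := congrArg Zsqrtd.re h
  rw [Zsqrtd.re_star, Zsqrtd.re_neg] at h1
  rw [Zsqrtd.ext_iff]
  exact ⟨by simp only; omega, rfl⟩

/-- Entries of `M` with `M² = 0`, `Mᴴ J = -J M`.
PROOF. `J M` is skew-Hermitian: `star c = -c`, `star h = -h`, `star g = -g`, `a = -star e`,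
`b = -star d`, `f = -star k` (entries `a f g; b h k; c d e`). `M² = 0` gives trace zero
(a nilpotent element of a domain is zero; Mathlib `Matrix.isNilpotent_trace_of_isNilpotent`), and all
`2 × 2` minors vanish: the adjugate is `M² - (trace M) M + e₂(M) = e₂(M)`, and
`2 e₂(M) = (trace M)² - trace M² = 0`. So with `c = i c₀`, `g = i g₀`, `h = i h₀`:
`h₀ = -2 Im e`, `c₀ g₀ = e star e`, `c₀ h₀ = d star d`, `g₀ h₀ = k star k`, `b e = k c`. -/
theorem uni_rels {M : M3} (h1 : M * M = 0) (h2 : Mᴴ * JZ = -(JZ * M)) :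
    ∃ c₀ g₀ h₀ : ℤ, M 2 0 = ⟨0, c₀⟩ ∧ M 0 2 = ⟨0, g₀⟩ ∧ M 1 1 = ⟨0, h₀⟩ ∧
      M 0 0 = -star (M 2 2) ∧ M 1 0 = -star (M 2 1) ∧ M 0 1 = -star (M 1 2) ∧
      h₀ = -2 * (M 2 2).im ∧ c₀ * g₀ = (M 2 2).norm ∧ c₀ * h₀ = (M 2 1).norm ∧
      g₀ * h₀ = (M 1 2).norm ∧ M 1 0 * M 2 2 = M 1 2 * M 2 0 := by
  have htr : M.trace = 0 := by
    have hn : IsNilpotent M := ⟨2, by rw [pow_two, h1]⟩
    exact (Matrix.isNilpotent_trace_of_isNilpotent hn).eq_zero
  have he2 : (adjugate M).trace = 0 := by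
    have h3 := U1_e2 M
    rw [htr, h1, Matrix.trace_zero] at h3
    have h4 : (2 : Zi) * (adjugate M).trace = 0 := by rw [h3]; ring
    rcases mul_eq_zero.mp h4 with h5 | h5
    · exfalso
      have := congrArg Zsqrtd.re h5
      simp at this
    · exact h5
  have hadj : adjugate M = 0 := by
    rw [U1_adj, h1, htr, he2]
    simp
  have ent : ∀ i j, (Mᴴ * JZ) i j = (-(JZ * M)) i j := fun i j => by rw [h2]
  have s00 := ent 0 0
  have s01 := ent 0 1
  have s02 := ent 0 2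
  have s11 := ent 1 1
  have s12 := ent 1 2
  have s22 := ent 2 2
  simp [JZ, Matrix.mul_apply, Matrix.vecMul, dotProduct, Fin.sum_univ_three] at s00 s01 s02 s11 s12 s22
  have ad : ∀ i j, (adjugate M) i j = 0 := fun i j => by rw [hadj]; rfl
  have a02 := ad 0 2
  have a11 := ad 1 1
  have a20 := ad 2 0
  have a10 := ad 1 0
  have a01 := ad 0 1
  have a00 := ad 0 0
  have a22 := ad 2 2
  rw [Matrix.adjugate_fin_three] at a02 a11 a20 a10 a01 a00 a22
  simp at a02 a11 a20 a10 a01 a00 a22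
  rw [Matrix.trace_fin_three] at htr
  have hc := U1_im s00
  have hh := U1_im s11
  have hg := U1_im s22
  have ha : M 0 0 = -star (M 2 2) := by rw [← star_neg, ← s02, star_star]
  have hb : M 1 0 = -star (M 2 1) := by rw [← star_neg, ← s01, star_star]
  have hf : M 0 1 = -star (M 1 2) := by rw [← star_neg, ← s12, star_star]
  have hprod : ∀ x y : ℤ, (⟨0, x⟩ : Zi) * ⟨0, y⟩ = ((-(x * y) : ℤ) : Zi) := by
    intro x y
    rw [Zsqrtd.ext_iff]
    simp [Zsqrtd.re_mul, Zsqrtd.im_mul]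
  have hnorm : ∀ z : Zi, star z * z = ((z.norm : ℤ) : Zi) := by
    intro z
    rw [mul_comm, ← Zsqrtd.norm_eq_mul_conj]
  have hcast : ∀ x y : ℤ, ((x : ℤ) : Zi) = ((y : ℤ) : Zi) → x = y := by
    intro x y h
    exact_mod_cast h
  refine ⟨(M 2 0).im, (M 0 2).im, (M 1 1).im, hc, hg, hh, ha, hb, hf, ?_, ?_, ?_, ?_, ?_⟩
  · have h3 := congrArg Zsqrtd.im htr
    rw [ha] at h3
    simp at h3
    linarith
  · apply hcast
    have h3 := a11
    rw [ha, hc, hg, hprod] at h3
    rw [← hnorm]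
    push_cast at h3 ⊢
    linear_combination h3
  · apply hcast
    have h3 := a20
    rw [hb, hc, hh, hprod] at h3
    rw [← hnorm]
    push_cast at h3 ⊢
    linear_combination h3
  · apply hcast
    have h3 := a02
    rw [hf, hg, hh, hprod] at h3
    rw [← hnorm]
    push_cast at h3 ⊢
    linear_combination h3
  · linear_combination -a10

end Pool.Agent.Lib.H89D
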