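import Pool.Agent.Lib.H89D.R2C
import Pool.Agent.Lib.H89D.U1

/-!
# U2: the number of unipotent elements
-/

namespace Pool.Agent.Lib.H89D

open Matrix

/-- a finset of Gaussian integers containing those of absolute value at most `Y` -/
noncomputable def U2_E (N : ℤ) : Finset Zi :=
  ((Finset.Icc (-N) N) ×ˢ (Finset.Icc (-N) N)).image (fun p => (⟨p.1, p.2⟩ : Zi))

lemma U2_int {Y : ℝ} {x : ℤ} (h : |(x : ℝ)| ≤ Y) : x ∈ Finset.Icc (-⌊Y⌋) ⌊Y⌋ := by
  rw [Finset.mem_Icc]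
  obtain ⟨h1, h2⟩ := abs_le.1 h
  constructor
  · have : -x ≤ ⌊Y⌋ := by
      rw [Int.le_floor]; push_cast; linarith
    linarith
  · rw [Int.le_floor]; exact h2

lemma U2_memE {Y : ℝ} {e : Zi} (h : ab e ≤ Y) : e ∈ U2_E ⌊Y⌋ := by
  unfold U2_E
  rw [Finset.mem_image]
  refine ⟨(e.re, e.im), ?_, rfl⟩
  rw [Finset.mem_product]
  exact ⟨U2_int ((abs_re_le e).trans h), U2_int ((abs_im_le e).trans h)⟩

lemma U2_cardI {Y : ℝ} (hY : 1 ≤ Y) : ((Finset.Icc (-⌊Y⌋) ⌊Y⌋).card : ℝ) ≤ 3 * Y := by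
  rw [Int.card_Icc]
  have h0 : 0 ≤ ⌊Y⌋ := Int.floor_nonneg.2 (by linarith)
  have h1 : ((⌊Y⌋ + 1 - -⌊Y⌋).toNat : ℝ) = 2 * (⌊Y⌋ : ℝ) + 1 := by
    have : ((⌊Y⌋ + 1 - -⌊Y⌋).toNat : ℤ) = 2 * ⌊Y⌋ + 1 := by
      rw [Int.toNat_of_nonneg (by linarith)]; ring
    exact_mod_cast this
  rw [h1]
  have := Int.floor_le Y
  linarith

lemma U2_cardE {Y : ℝ} (hY : 1 ≤ Y) : ((U2_E ⌊Y⌋).card : ℝ) ≤ 9 * Y ^ 2 := by
  have h1 : (U2_E ⌊Y⌋).card ≤ (Finset.Icc (-⌊Y⌋) ⌊Y⌋).card * (Finset.Icc (-⌊Y⌋) ⌊Y⌋).card := by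
    unfold U2_E
    exact Finset.card_image_le.trans (Finset.card_product _ _).le
  have h2 : ((U2_E ⌊Y⌋).card : ℝ) ≤
      ((Finset.Icc (-⌊Y⌋) ⌊Y⌋).card : ℝ) * ((Finset.Icc (-⌊Y⌋) ⌊Y⌋).card : ℝ) := by
    exact_mod_cast h1
  have h3 := U2_cardI hY
  have h4 : (0 : ℝ) ≤ ((Finset.Icc (-⌊Y⌋) ⌊Y⌋).card : ℝ) := Nat.cast_nonneg _
  nlinarith

/-- integer divisors -/
noncomputable def U2_D (n : ℤ) : Finset ℤ :=
  (n.natAbs.divisors.image (fun k : ℕ => (k : ℤ))) ∪ (n.natAbs.divisors.image (fun k : ℕ => -(k : ℤ)))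

lemma U2_memD {n c : ℤ} (hn : n ≠ 0) (h : c ∣ n) : c ∈ U2_D n := by
  unfold U2_D
  have h1 : c.natAbs ∈ n.natAbs.divisors := by
    rw [Nat.mem_divisors]
    exact ⟨Int.natAbs_dvd_natAbs.2 h, by simpa using hn⟩
  rw [Finset.mem_union, Finset.mem_image, Finset.mem_image]
  rcases Int.natAbs_eq c with h2 | h2
  · exact Or.inl ⟨c.natAbs, h1, h2.symm⟩
  · exact Or.inr ⟨c.natAbs, h1, h2.symm⟩

lemma U2_cardD (n : ℤ) : (U2_D n).card ≤ 2 * n.natAbs.divisors.card := by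
  unfold U2_D
  refine (Finset.card_union_le _ _).trans ?_
  have h1 := Finset.card_image_le (s := n.natAbs.divisors) (f := fun k : ℕ => (k : ℤ))
  have h2 := Finset.card_image_le (s := n.natAbs.divisors) (f := fun k : ℕ => -(k : ℤ))
  omega

lemma U2_fin (Y : ℝ) : {M : M3 | ∀ i j, ab (M i j) ≤ Y}.Finite := by
  have h : {M : M3 | ∀ i j, M i j ∈ (U2_E ⌊Y⌋ : Set Zi)}.Finite :=
    Set.Finite.pi' (fun i => Set.Finite.pi' (fun j => (U2_E ⌊Y⌋).finite_toSet))
  exact h.subset (fun M hM i j => U2_memE (hM i j))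

/-- The number of unipotent elements `1 + M`, `M² = 0`.

PROOF. `uni_rels`. First choose `e` (at most `(2 Y + 1)² ≤ 9 Y²` values). If `e ≠ 0`: `c₀ g₀ = norm e`
is a positive integer at most `Y²`, so at most `2 d(norm e)` pairs `(c₀, g₀)`; `h₀ = -2 Im e`;
`norm d = c₀ h₀` at most `C Y ^ δ` values of `d` (`r2_eps`; `|c₀|, |h₀| ≤ Y` up to the factor two);
`k c = b e`, `b = -star d`, `c ≠ 0` determines `k`; the other entries are determined. If `e = 0`:
`h₀ = 0`, `c₀ g₀ = 0`, `d = 0`, `k = 0`, so at most `2 (2 Y + 1)` matrices. -/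
theorem uni_count {ε : ℝ} (hε : 0 < ε) : ∃ C : ℝ, 0 < C ∧ ∀ Y : ℝ, 1 ≤ Y →
    {M : M3 | M * M = 0 ∧ Mᴴ * JZ = -(JZ * M) ∧ ∀ i j, ab (M i j) ≤ Y}.Finite ∧
    ({M : M3 | M * M = 0 ∧ Mᴴ * JZ = -(JZ * M) ∧ ∀ i j, ab (M i j) ≤ Y}.ncard : ℝ) ≤
      C * Y ^ (2 + ε) := by
  classical
  obtain ⟨C1, hC1, H1⟩ := r2_eps (ε := ε / 4) (by positivity)
  obtain ⟨C2, hC2, H2⟩ := Pool.Agent.Lib.H21AP.divisor_bound (ε := ε / 4) (by positivity)
  refine ⟨9 * (2 * C2) * (C1 * 2 ^ (ε / 4)) + 6, by positivity, ?_⟩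
  intro Y hY
  have hY0 : 0 < Y := by linarith
  have hfin : {M : M3 | M * M = 0 ∧ Mᴴ * JZ = -(JZ * M) ∧ ∀ i j, ab (M i j) ≤ Y}.Finite :=
    (U2_fin Y).subset (fun M hM => hM.2.2)
  refine ⟨hfin, ?_⟩
  set U : Finset M3 := hfin.toFinset with hU
  have hmem : ∀ M, M ∈ U ↔ (M * M = 0 ∧ Mᴴ * JZ = -(JZ * M) ∧ ∀ i j, ab (M i j) ≤ Y) := by
    intro M; rw [hU, Set.Finite.mem_toFinset]; rfl
  rw [Set.ncard_eq_toFinset_card _ hfin, ← hU]
  -- two matrices with the same data agree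
  have heq : ∀ M ∈ U, ∀ M' ∈ U, M 2 2 = M' 2 2 → M 2 0 = M' 2 0 → M 0 2 = M' 0 2 →
      M 2 1 = M' 2 1 → M 1 2 = M' 1 2 → M = M' := by
    intro M hM M' hM' e1 e2 e3 e4 e5
    obtain ⟨m1, m2, -⟩ := (hmem M).1 hM
    obtain ⟨m1', m2', -⟩ := (hmem M').1 hM'
    obtain ⟨c, g, h, p1, p2, p3, p4, p5, p6, p7, p8, p9, p10, p11⟩ := uni_rels m1 m2
    obtain ⟨c', g', h', p1', p2', p3', p4', p5', p6', p7', p8', p9', p10', p11'⟩ :=
      uni_rels m1' m2'
    have q1 : M 0 0 = M' 0 0 := by rw [p4, p4', e1]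
    have q2 : M 1 0 = M' 1 0 := by rw [p5, p5', e4]
    have q3 : M 0 1 = M' 0 1 := by rw [p6, p6', e5]
    have q4 : M 1 1 = M' 1 1 := by rw [p3, p3', p7, p7', e1]
    ext i j
    · fin_cases i <;> fin_cases j
      · exact congrArg _ q1
      · exact congrArg _ q3
      · exact congrArg _ e3
      · exact congrArg _ q2
      · exact congrArg _ q4
      · exact congrArg _ e5
      · exact congrArg _ e2
      · exact congrArg _ e4
      · exact congrArg _ e1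
    · fin_cases i <;> fin_cases j
      · exact congrArg _ q1
      · exact congrArg _ q3
      · exact congrArg _ e3
      · exact congrArg _ q2
      · exact congrArg _ q4
      · exact congrArg _ e5
      · exact congrArg _ e2
      · exact congrArg _ e4
      · exact congrArg _ e1
  have hnorm0 : ∀ z : Zi, z.norm = 0 → z = 0 := fun z hz => GaussianInt.norm_eq_zero.1 hz
  have habs : ∀ M ∈ U, ∀ i j, ab (M i j) ≤ Y := fun M hM => ((hmem M).1 hM).2.2
  -- the part with `e = 0`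
  set U0 := U.filter (fun M => M 2 2 = 0) with hU0
  set U1 := U.filter (fun M => ¬ M 2 2 = 0) with hU1
  have hsplit : U0.card + U1.card = U.card :=
    Finset.card_filter_add_card_filter_not (s := U) (fun M => M 2 2 = 0)
  have hcard0 : (U0.card : ℝ) ≤ 6 * Y := by
    let I := Finset.Icc (-⌊Y⌋) ⌊Y⌋
    let T : Finset (ℤ × ℤ) := (I ×ˢ {0}) ∪ ({0} ×ˢ I)
    have h1 : U0.card ≤ T.card := by
      apply Finset.card_le_card_of_injOn (fun M => ((M 2 0).im, (M 0 2).im))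
      · intro M hM
        have hM0 := (Finset.mem_filter.1 (Finset.mem_coe.1 hM))
        obtain ⟨m1, m2, m3⟩ := (hmem M).1 hM0.1
        obtain ⟨c, g, h, p1, p2, p3, p4, p5, p6, p7, p8, p9, p10, p11⟩ := uni_rels m1 m2
        have hcg : c * g = 0 := by rw [p8, hM0.2]; simp
        have hc : (M 2 0).im = c := by rw [p1]
        have hg : (M 0 2).im = g := by rw [p2]
        have hcI : c ∈ I := by
          rw [← hc]; exact U2_int ((abs_im_le _).trans (m3 2 0))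
        have hgI : g ∈ I := by
          rw [← hg]; exact U2_int ((abs_im_le _).trans (m3 0 2))
        simp only [Finset.coe_union, Set.mem_union, Finset.mem_coe, T]
        change ((M 2 0).im, (M 0 2).im) ∈ _ ∨ ((M 2 0).im, (M 0 2).im) ∈ _
        rw [hc, hg]
        rcases mul_eq_zero.1 hcg with h0 | h0
        · right; rw [Finset.mem_product]; exact ⟨by simpa using h0, hgI⟩
        · left; rw [Finset.mem_product]; exact ⟨hcI, by simpa using h0⟩
      · intro M hM M' hM' hMM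
        have hM0 := (Finset.mem_filter.1 (Finset.mem_coe.1 hM))
        have hM0' := (Finset.mem_filter.1 (Finset.mem_coe.1 hM'))
        obtain ⟨m1, m2, m3⟩ := (hmem M).1 hM0.1
        obtain ⟨c, g, h, p1, p2, p3, p4, p5, p6, p7, p8, p9, p10, p11⟩ := uni_rels m1 m2
        obtain ⟨m1', m2', m3'⟩ := (hmem M').1 hM0'.1
        obtain ⟨c', g', h', p1', p2', p3', p4', p5', p6', p7', p8', p9', p10', p11'⟩ :=
          uni_rels m1' m2'
        have hh : h = 0 := by rw [p7, hM0.2]; simp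
        have hh' : h' = 0 := by rw [p7', hM0'.2]; simp
        have hd : M 2 1 = 0 := hnorm0 _ (by rw [← p9, hh, mul_zero])
        have hd' : M' 2 1 = 0 := hnorm0 _ (by rw [← p9', hh', mul_zero])
        have hk : M 1 2 = 0 := hnorm0 _ (by rw [← p10, hh, mul_zero])
        have hk' : M' 1 2 = 0 := hnorm0 _ (by rw [← p10', hh', mul_zero])
        have hMM' : ((M 2 0).im, (M 0 2).im) = ((M' 2 0).im, (M' 0 2).im) := hMM
        obtain ⟨q1, q2⟩ := Prod.mk.inj hMM'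
        refine heq M hM0.1 M' hM0'.1 (by rw [hM0.2, hM0'.2]) ?_ ?_ (by rw [hd, hd'])
          (by rw [hk, hk'])
        · rw [p1, p1'] at q1 ⊢; rw [show c = c' from q1]
        · rw [p2, p2'] at q2 ⊢; rw [show g = g' from q2]
    have h2 : T.card ≤ I.card + I.card := by
      refine (Finset.card_union_le _ _).trans ?_
      rw [Finset.card_product, Finset.card_product]
      simp
    have h3 : (I.card : ℝ) ≤ 3 * Y := U2_cardI hY
    have h4 : (U0.card : ℝ) ≤ (I.card : ℝ) + (I.card : ℝ) := by exact_mod_cast h1.trans h2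
    linarith
  -- the part with `e ≠ 0`
  set B1 : ℝ := C1 * (2 * Y ^ 2) ^ (ε / 4) with hB1
  set B2 : ℝ := C2 * (Y ^ 2) ^ (ε / 4) with hB2
  have hB1n : 0 ≤ B1 := by positivity
  have hB2n : 0 ≤ B2 := by positivity
  let E := (U2_E ⌊Y⌋).filter (fun e => e ≠ 0 ∧ ab e ≤ Y)
  let T : Finset ((_ : Zi) × ℤ) := E.sigma (fun e => U2_D e.norm)
  have hT : (T.card : ℝ) ≤ 9 * Y ^ 2 * (2 * B2) := by
    rw [Finset.card_sigma]
    push_cast
    have h1 : ∀ e ∈ E, ((U2_D e.norm).card : ℝ) ≤ 2 * B2 := by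
      intro e he
      obtain ⟨-, he0, heY⟩ := Finset.mem_filter.1 he
      have hpos : 0 < e.norm := GaussianInt.norm_pos.2 he0
      have h2 : ((U2_D e.norm).card : ℝ) ≤ 2 * (e.norm.natAbs.divisors.card : ℝ) := by
        exact_mod_cast U2_cardD e.norm
      have h3 := H2 e.norm.natAbs (by omega)
      have h4 : ((e.norm.natAbs : ℕ) : ℝ) ≤ Y ^ 2 := by
        have : ((e.norm.natAbs : ℕ) : ℝ) = (e.norm : ℝ) := by
          rw [Nat.cast_natAbs, abs_of_pos hpos]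
        rw [this, ← ab_sq]
        have := ab_nonneg e
        nlinarith
      have h5 : ((e.norm.natAbs : ℕ) : ℝ) ^ (ε / 4) ≤ (Y ^ 2) ^ (ε / 4) :=
        Real.rpow_le_rpow (Nat.cast_nonneg _) h4 (by positivity)
      have h6 : C2 * ((e.norm.natAbs : ℕ) : ℝ) ^ (ε / 4) ≤ B2 :=
        mul_le_mul_of_nonneg_left h5 hC2.le
      linarith
    calc ∑ e ∈ E, ((U2_D e.norm).card : ℝ) ≤ ∑ _e ∈ E, 2 * B2 := Finset.sum_le_sum h1
      _ = (E.card : ℝ) * (2 * B2) := by rw [Finset.sum_const, nsmul_eq_mul]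
      _ ≤ 9 * Y ^ 2 * (2 * B2) := by
        apply mul_le_mul_of_nonneg_right _ (by positivity)
        have : (E.card : ℝ) ≤ ((U2_E ⌊Y⌋).card : ℝ) := by
          exact_mod_cast Finset.card_filter_le _ _
        exact this.trans (U2_cardE hY)
  have hcard1 : (U1.card : ℝ) ≤ B1 * (9 * Y ^ 2 * (2 * B2)) := by
    have hmaps : ∀ M ∈ U1, (⟨M 2 2, (M 2 0).im⟩ : (_ : Zi) × ℤ) ∈ T := by
      intro M hM
      have hM0 := Finset.mem_filter.1 hM
      obtain ⟨m1, m2, m3⟩ := (hmem M).1 hM0.1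
      obtain ⟨c, g, h, p1, p2, p3, p4, p5, p6, p7, p8, p9, p10, p11⟩ := uni_rels m1 m2
      rw [Finset.mem_sigma]
      refine ⟨Finset.mem_filter.2 ⟨U2_memE (m3 2 2), hM0.2, m3 2 2⟩, ?_⟩
      apply U2_memD
      · exact fun h0 => hM0.2 (hnorm0 _ h0)
      · rw [← p8]
        rw [p1]
        exact dvd_mul_right _ _
    have hfib : ∀ t ∈ T, (U1.filter (fun M => (⟨M 2 2, (M 2 0).im⟩ : (_ : Zi) × ℤ) = t)).card ≤
        ⌊B1⌋₊ := by
      rintro ⟨e, c⟩ ht
      rw [Nat.le_floor_iff hB1n]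
      set P := U1.filter (fun M => (⟨M 2 2, (M 2 0).im⟩ : (_ : Zi) × ℤ) = ⟨e, c⟩) with hP
      by_cases hPe : P = ∅
      · rw [hPe]; simpa using hB1n
      obtain ⟨M0, hM0⟩ := Finset.nonempty_iff_ne_empty.2 hPe
      have hdat : ∀ M ∈ P, M ∈ U ∧ M 2 2 ≠ 0 ∧ M 2 2 = e ∧ (M 2 0).im = c := by
        intro M hM
        obtain ⟨a1, a2⟩ := Finset.mem_filter.1 hM
        obtain ⟨a3, a4⟩ := Finset.mem_filter.1 a1
        have := Sigma.mk.inj a2
        exact ⟨a3, a4, this.1, eq_of_heq this.2⟩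
      have hR : ((c * (-2 * e.im) : ℤ) : ℝ) ≤ 2 * Y ^ 2 := by
        obtain ⟨a1, a2, a3, a4⟩ := hdat M0 hM0
        have b1 : |((M0 2 0).im : ℝ)| ≤ Y := (abs_im_le _).trans (habs M0 a1 2 0)
        have b2 : |((M0 2 2).im : ℝ)| ≤ Y := (abs_im_le _).trans (habs M0 a1 2 2)
        rw [a4] at b1
        rw [a3] at b2
        push_cast
        have b3 : |(c : ℝ)| * |(e.im : ℝ)| ≤ Y * Y :=
          mul_le_mul b1 b2 (abs_nonneg _) hY0.le
        have b4 : (c : ℝ) * (-2 * (e.im : ℝ)) ≤ |(c : ℝ) * (-2 * (e.im : ℝ))| := le_abs_self _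
        have b5 : |(c : ℝ) * (-2 * (e.im : ℝ))| = 2 * (|(c : ℝ)| * |(e.im : ℝ)|) := by
          rw [abs_mul, abs_mul, abs_neg, abs_two]; ring
        nlinarith
      obtain ⟨f1, f2⟩ := H1 (2 * Y ^ 2) (by nlinarith) (c * (-2 * e.im)) hR
      have hle : P.card ≤ {w : Zi | w.norm = c * (-2 * e.im)}.ncard := by
        rw [Set.ncard_eq_toFinset_card _ f1]
        apply Finset.card_le_card_of_injOn (fun M => M 2 1)
        · intro M hM
          obtain ⟨a1, a2, a3, a4⟩ := hdat M (Finset.mem_coe.1 hM)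
          obtain ⟨m1, m2, m3⟩ := (hmem M).1 a1
          obtain ⟨c', g, h, p1, p2, p3, p4, p5, p6, p7, p8, p9, p10, p11⟩ := uni_rels m1 m2
          have hc : c' = c := by rw [← a4, p1]
          have hmm : (M 2 1).norm = c * (-2 * e.im) := by
            rw [← p9, hc, p7, a3]
          have : M 2 1 ∈ f1.toFinset := by
            rw [Set.Finite.mem_toFinset]; exact hmm
          exact Finset.mem_coe.2 this
        · intro M hM M' hM' hMM
          obtain ⟨a1, a2, a3, a4⟩ := hdat M (Finset.mem_coe.1 hM)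
          obtain ⟨a1', a2', a3', a4'⟩ := hdat M' (Finset.mem_coe.1 hM')
          obtain ⟨m1, m2, m3⟩ := (hmem M).1 a1
          obtain ⟨m1', m2', m3'⟩ := (hmem M').1 a1'
          obtain ⟨c1, g, h, p1, p2, p3, p4, p5, p6, p7, p8, p9, p10, p11⟩ := uni_rels m1 m2
          obtain ⟨c1', g', h', p1', p2', p3', p4', p5', p6', p7', p8', p9', p10', p11'⟩ :=
            uni_rels m1' m2'
          have hc : c1 = c := by rw [← a4, p1]
          have hc' : c1' = c := by rw [← a4', p1']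
          have hMM' : M 2 1 = M' 2 1 := hMM
          have hc0 : c ≠ 0 := by
            intro h0
            apply a2
            apply hnorm0
            rw [← p8, hc, h0, zero_mul]
          have hee : M 2 2 = M' 2 2 := by rw [a3, a3']
          have hg : g = g' := by
            have : c * g = c * g' := by
              rw [← hc, p8, hc, ← hc', p8', hee]
            exact mul_left_cancel₀ hc0 this
          have h20 : M 2 0 = M' 2 0 := by rw [p1, p1', hc, hc']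
          have h20n : M 2 0 ≠ 0 := by
            rw [p1, hc]
            intro h0
            exact hc0 (congrArg Zsqrtd.im h0)
          have hk : M 1 2 = M' 1 2 := by
            have : M 1 2 * M 2 0 = M' 1 2 * M 2 0 := by
              rw [← p11, h20, ← p11', p5, p5', hMM', hee]
            exact mul_right_cancel₀ h20n this
          exact heq M a1 M' a1' hee h20 (by rw [p2, p2', hg]) hMM' hk
      have : (P.card : ℝ) ≤ ({w : Zi | w.norm = c * (-2 * e.im)}.ncard : ℝ) := by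
        exact_mod_cast hle
      exact this.trans f2
    have h1 := Finset.card_le_mul_card_image_of_maps_to hmaps ⌊B1⌋₊ hfib
    have h2 : (U1.card : ℝ) ≤ (⌊B1⌋₊ : ℝ) * (T.card : ℝ) := by exact_mod_cast h1
    have h3 : (⌊B1⌋₊ : ℝ) ≤ B1 := Nat.floor_le hB1n
    calc (U1.card : ℝ) ≤ (⌊B1⌋₊ : ℝ) * (T.card : ℝ) := h2
      _ ≤ B1 * (T.card : ℝ) := mul_le_mul_of_nonneg_right h3 (Nat.cast_nonneg _)
      _ ≤ B1 * (9 * Y ^ 2 * (2 * B2)) := mul_le_mul_of_nonneg_left hT hB1n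
  have hpow : (Y ^ 2) ^ (ε / 4) = Y ^ (ε / 2) := by
    rw [← Real.rpow_natCast, ← Real.rpow_mul hY0.le]
    congr 1; push_cast; ring
  have hpow2 : (2 * Y ^ 2) ^ (ε / 4) = 2 ^ (ε / 4) * Y ^ (ε / 2) := by
    rw [Real.mul_rpow (by norm_num) (by positivity), hpow]
  have hpow3 : Y ^ (2 + ε) = Y ^ 2 * (Y ^ (ε / 2) * Y ^ (ε / 2)) := by
    rw [← Real.rpow_add hY0, ← Real.rpow_natCast, ← Real.rpow_add hY0]
    congr 1; push_cast; ring
  have hle6 : Y ≤ Y ^ (2 + ε) := by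
    calc Y = Y ^ (1 : ℝ) := (Real.rpow_one Y).symm
      _ ≤ Y ^ (2 + ε) := Real.rpow_le_rpow_of_exponent_le hY (by linarith)
  have htot : (U.card : ℝ) = (U0.card : ℝ) + (U1.card : ℝ) := by exact_mod_cast hsplit.symm
  have hfinal : B1 * (9 * Y ^ 2 * (2 * B2)) =
      9 * (2 * C2) * (C1 * 2 ^ (ε / 4)) * Y ^ (2 + ε) := by
    rw [hB1, hB2, hpow, hpow2, hpow3]; ring
  rw [htot]
  calc (U0.card : ℝ) + (U1.card : ℝ) ≤ 6 * Y + B1 * (9 * Y ^ 2 * (2 * B2)) := by linarith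
    _ ≤ 6 * Y ^ (2 + ε) + 9 * (2 * C2) * (C1 * 2 ^ (ε / 4)) * Y ^ (2 + ε) := by
      rw [hfinal]; linarith
    _ = (9 * (2 * C2) * (C1 * 2 ^ (ε / 4)) + 6) * Y ^ (2 + ε) := by ring

end Pool.Agent.Lib.H89D
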