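import Pool.Agent.Lib.H89D.CA1
import Pool.Agent.Lib.H89D.NR
import Pool.Agent.Lib.H89D.U2

/-!
# CA2: the count for matrices
-/

namespace Pool.Agent.Lib.H89D

lemma CA2_list {α β : Type*} (L : List β) (P : β → Set α) (B : ℕ)
    (h : ∀ D ∈ L, (P D).Finite ∧ (P D).ncard ≤ B) :
    {M | ∃ D ∈ L, M ∈ P D}.Finite ∧ {M | ∃ D ∈ L, M ∈ P D}.ncard ≤ L.length * B := by
  induction L with
  | nil => simp
  | cons D L ih =>
    obtain ⟨h1, h2⟩ := ih (fun D' hD' => h D' (List.mem_cons_of_mem _ hD'))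
    obtain ⟨h3, h4⟩ := h D List.mem_cons_self
    have he : {M | ∃ D' ∈ D :: L, M ∈ P D'} = P D ∪ {M | ∃ D' ∈ L, M ∈ P D'} := by
      ext M
      simp
    rw [he]
    refine ⟨h3.union h1, (Set.ncard_union_le _ _).trans ?_⟩
    rw [List.length_cons]
    calc (P D).ncard + {M | ∃ D' ∈ L, M ∈ P D'}.ncard ≤ B + L.length * B := Nat.add_le_add h4 h2
      _ = _ := by ring

lemma CA2_ab_le (z : Zi) (h : z.norm ≤ 4) : ab z ≤ 2 := by
  have h1 := ab_sq z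
  have h2 : ab z ^ 2 ≤ 4 := by
    rw [h1]
    exact_mod_cast h
  nlinarith [ab_nonneg z]

lemma CA2_entries {D : M3} (hD : D ∈ (1 : M3) :: VS.map (fun p => DZ p.1 p.2)) (i j : Fin 3) :
    ab (D i j) ≤ 2 := by
  apply CA2_ab_le
  rcases List.mem_cons.1 hD with rfl | hD
  · rcases eq_or_ne i j with rfl | hij
    · rw [Matrix.one_apply_eq]; simp
    · rw [Matrix.one_apply_ne hij]; simp
  · obtain ⟨p, hp, rfl⟩ := List.mem_map.1 hD
    simp only [VS, List.mem_cons, List.not_mem_nil, or_false] at hp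
    rcases hp with rfl | rfl | rfl | rfl | rfl | rfl | rfl | rfl <;>
      (fin_cases i <;> fin_cases j <;> simp [DZ, Zsqrtd.norm])

/-- **The count.**
PROOF. `dichotomy`. The unipotent elements: `n ab (M i j) ≤ X + 1`, so `ab (M i j) ≤ 2 X`, `uni_count`.
The others: for each of the nine `D` (entries of absolute value at most `2`, unitary) the elements with
`cj D M ∈ SR n (36 X)` (`cj_bdd`), `cj D` is injective, `sr_count`. -/
theorem count_all {ε : ℝ} (hε : 0 < ε) : ∃ C : ℝ, 0 < C ∧ ∀ n : ℕ, 1 ≤ n → ∀ X : ℝ, 1 ≤ X →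
    {M : M3 | Elt n M ∧ Bdd n X M}.Finite ∧
      ({M : M3 | Elt n M ∧ Bdd n X M}.ncard : ℝ) ≤
        C * X ^ ε * (X ^ 2 + X ^ 4 / (n : ℝ) ^ 8) := by
  obtain ⟨C1, hC1, h1⟩ := uni_count hε
  obtain ⟨C2, hC2, h2⟩ := sr_count hε
  refine ⟨C1 * (2 : ℝ) ^ (2 + ε) + 9 * (C2 * (36 : ℝ) ^ ε * 36 ^ 4 + 1), by positivity,
    fun n hn X hX => ?_⟩
  have hX0 : 0 < X := by linarith
  have hn' : (1 : ℝ) ≤ n := by exact_mod_cast hn
  obtain ⟨hf1, hb1⟩ := h1 (2 * X) (by linarith)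
  obtain ⟨hf2, hb2⟩ := h2 n hn (36 * X) (by linarith)
  set L : List M3 := (1 : M3) :: VS.map (fun p => DZ p.1 p.2) with hL
  set U : Set M3 := {M : M3 | M * M = 0 ∧ M.conjTranspose * JZ = -(JZ * M) ∧
    ∀ i j, ab (M i j) ≤ 2 * X} with hU
  set P : M3 → Set M3 := fun D => cj D ⁻¹' (SR n (36 * X)) with hP
  have hPf : ∀ D ∈ L, (P D).Finite ∧ (P D).ncard ≤ (SR n (36 * X)).ncard := by
    intro D hD
    have hinj := cj_injective (CA1_unitary hD)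
    refine ⟨hf2.preimage hinj.injOn, ?_⟩
    rw [← Set.ncard_image_of_injective _ hinj]
    exact Set.ncard_le_ncard (Set.image_preimage_subset _ _) hf2
  obtain ⟨hf3, hb3⟩ := CA2_list L P _ hPf
  have hsub : {M : M3 | Elt n M ∧ Bdd n X M} ⊆ U ∪ {M | ∃ D ∈ L, M ∈ P D} := by
    rintro M ⟨hM, hB⟩
    rcases dichotomy hn hM with ⟨h3, h4⟩ | ⟨D, hD, ρ, η, τ, h3, h4⟩
    · refine Or.inl ⟨h3, h4, fun i j => ?_⟩
      have h5 := hB i j
      have h6 : (n : Zi) * M i j = (1 + (n : Zi) • M) i j - (1 : M3) i j := by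
        rw [Matrix.add_apply, Matrix.smul_apply, smul_eq_mul]
        ring
      have h7 : (n : ℝ) * ab (M i j) ≤ X + 1 := by
        rw [← ab_natCast n, ← ab_mul, h6]
        refine (ab_sub_le _ _).trans (add_le_add h5 ?_)
        rcases eq_or_ne i j with rfl | hij
        · rw [Matrix.one_apply_eq, ab_one]
        · rw [Matrix.one_apply_ne hij, ab_zero]; norm_num
      nlinarith [ab_nonneg (M i j)]
    · refine Or.inr ⟨D, hD, ⟨⟨ρ, η, τ, h3, h4⟩, ?_⟩⟩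
      have h5 := cj_bdd (CA1_unitary hD) (fun i j => CA2_entries hD i j) hB
      have h6 : (9 : ℝ) * 2 ^ 2 * X = 36 * X := by ring
      rwa [h6] at h5
  have hfin : (U ∪ {M | ∃ D ∈ L, M ∈ P D}).Finite := hf1.union hf3
  refine ⟨hfin.subset hsub, ?_⟩
  have h8 : L.length = 9 := rfl
  rw [h8] at hb3
  have h9 : ({M : M3 | Elt n M ∧ Bdd n X M}.ncard : ℝ) ≤ U.ncard + 9 * (SR n (36 * X)).ncard := by
    have := (Set.ncard_le_ncard hsub hfin).trans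
      ((Set.ncard_union_le _ _).trans (Nat.add_le_add_left hb3 _))
    exact_mod_cast this
  have hXe : 0 < X ^ ε := Real.rpow_pos_of_pos hX0 _
  have hq : 0 ≤ X ^ 4 / (n : ℝ) ^ 8 := by positivity
  have h10 : (U.ncard : ℝ) ≤ C1 * (2 : ℝ) ^ (2 + ε) * X ^ ε * (X ^ 2 + X ^ 4 / (n : ℝ) ^ 8) := by
    refine hb1.trans ?_
    rw [Real.mul_rpow (by norm_num) hX0.le, Real.rpow_add hX0, Real.rpow_two]
    have : 0 ≤ C1 * (2 : ℝ) ^ (2 + ε) * X ^ ε * (X ^ 4 / (n : ℝ) ^ 8) := by positivity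
    linarith
  have h11 : ((SR n (36 * X)).ncard : ℝ) ≤
      C2 * (36 : ℝ) ^ ε * 36 ^ 4 * X ^ ε * (X ^ 2 + X ^ 4 / (n : ℝ) ^ 8) := by
    refine hb2.trans ?_
    rw [Real.mul_rpow (by norm_num) hX0.le]
    have h12 : (36 * X) ^ 2 + (36 * X) ^ 4 / (n : ℝ) ^ 8 ≤
        36 ^ 4 * (X ^ 2 + X ^ 4 / (n : ℝ) ^ 8) := by
      have h13 : (36 * X) ^ 4 / (n : ℝ) ^ 8 = 36 ^ 4 * (X ^ 4 / (n : ℝ) ^ 8) := by ring
      rw [h13]
      nlinarith [sq_nonneg X]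
    calc C2 * ((36 : ℝ) ^ ε * X ^ ε) * ((36 * X) ^ 2 + (36 * X) ^ 4 / (n : ℝ) ^ 8)
        ≤ C2 * ((36 : ℝ) ^ ε * X ^ ε) * (36 ^ 4 * (X ^ 2 + X ^ 4 / (n : ℝ) ^ 8)) := by gcongr
      _ = _ := by ring
  have h14 : 0 ≤ X ^ ε * (X ^ 2 + X ^ 4 / (n : ℝ) ^ 8) := by positivity
  nlinarith

end Pool.Agent.Lib.H89D
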