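import Pool.Agent.Lib.H89D.CA2
import Pool.Agent.Lib.H56.Gen.LevelData
import Pool.Agent.Lib.H56.Gen.LevelGroup

/-!
# TR: the count for the principal congruence subgroups of `SU(2,1; ℤ[i])`
-/

namespace Pool.Agent.Lib.H89D

open Matrix
open Pool.Agent.Lib.H56.Gen
open Pool.Agent.Lib.H56.Picard (mat)

/-- PROOF. `mat g i j - δ_ij = n x_ij` with `x_ij ∈ OO qI`, `x_ij = el qI u v` (`qI`: `t = 0`, `n = 1`,
`sd qI = 2`, so `el qI u v = u + i v`); put `M i j = ⟨u, v⟩`. -/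
theorem exists_M3 {n : ℕ} {g : Gam qI} (hg : g ∈ GamN qI (n : ℂ)) :
    ∃ M : M3, Elt n M ∧ ∀ i j, mat g.1 i j = GaussianInt.toComplex ((1 + (n : Zi) • M) i j) := by
  have h1 : ∀ i j, ∃ z : Zi, mat g.1 i j - (1 : Matrix (Fin 3) (Fin 3) ℂ) i j =
      n * GaussianInt.toComplex z := by
    intro i j
    obtain ⟨x, ⟨u, v, rfl⟩, hx⟩ := hg i j
    refine ⟨⟨u, v⟩, ?_⟩
    rw [hx]
    congr 1
    apply Complex.ext
    · rw [el_re, GaussianInt.toComplex_def₂]
      simp [qI]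
    · rw [el_im, GaussianInt.toComplex_def₂, sd_qI]
      simp
  choose M hM using h1
  have h2 : ∀ i j, mat g.1 i j = GaussianInt.toComplex ((1 + (n : Zi) • (Matrix.of M)) i j) := by
    intro i j
    have h3 := hM i j
    rw [Matrix.add_apply, Matrix.smul_apply, Matrix.of_apply, map_add, smul_eq_mul, map_mul,
      map_natCast, ← h3]
    have h4 : GaussianInt.toComplex ((1 : M3) i j) = (1 : Matrix (Fin 3) (Fin 3) ℂ) i j := by
      rcases eq_or_ne i j with rfl | h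
      · rw [Matrix.one_apply_eq, Matrix.one_apply_eq, map_one]
      · rw [Matrix.one_apply_ne h, Matrix.one_apply_ne h, map_zero]
    rw [h4]
    ring
  refine ⟨Matrix.of M, ?_, h2⟩
  set G : M3 := 1 + (n : Zi) • (Matrix.of M) with hG
  have hf : Function.Injective (GaussianInt.toComplex : Zi → ℂ) := GaussianInt.toComplex_injective
  have h5 : mat g.1 = G.map GaussianInt.toComplex := by
    ext i j
    rw [Matrix.map_apply]
    exact h2 i j
  have h6 : (Pool.Agent.Lib.H56.Picard.J : Matrix (Fin 3) (Fin 3) ℂ) =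
      JZ.map GaussianInt.toComplex := by
    ext i j
    fin_cases i <;> fin_cases j <;> simp [JZ, Pool.Agent.Lib.H56.Picard.J]
  have h7 : (G.map GaussianInt.toComplex)ᴴ = Gᴴ.map GaussianInt.toComplex := by
    ext i j
    rw [Matrix.conjTranspose_apply, Matrix.map_apply, Matrix.map_apply,
      Matrix.conjTranspose_apply, GaussianInt.toComplex_star]
    rfl
  constructor
  · have h8 := Pool.Agent.Lib.H56.Picard.mat_unitary g.1
    rw [h5, h6, h7, ← Matrix.map_mul, ← Matrix.map_mul] at h8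
    exact Matrix.map_injective hf h8
  · have h8 := g.1.2.2
    have h9 : (mat g.1).det = 1 := h8
    rw [h5] at h9
    have h10 : GaussianInt.toComplex G.det = (G.map GaussianInt.toComplex).det :=
      RingHom.map_det _ _
    rw [← h10] at h9
    apply hf
    rw [h9, map_one]

/-- **COUNT.** The number of elements of `Γ(n)` with entries bounded by `T`.

PROOF. `exists_M3` gives an injection into the set of `count_all`. -/
theorem count {ε : ℝ} (hε : 0 < ε) : ∃ C : ℝ, 0 < C ∧ ∀ n : ℕ, 1 ≤ n → ∀ T : ℝ, 1 ≤ T →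
    {g : Gam qI | g ∈ GamN qI (n : ℂ) ∧ ∀ i j, ‖mat g.1 i j‖ ≤ T}.Finite ∧
      ({g : Gam qI | g ∈ GamN qI (n : ℂ) ∧ ∀ i j, ‖mat g.1 i j‖ ≤ T}.ncard : ℝ) ≤
        C * T ^ ε * (T ^ 2 + T ^ 4 / (n : ℝ) ^ 8) := by
  obtain ⟨C, hC, h⟩ := count_all hε
  refine ⟨C, hC, fun n hn T hT => ?_⟩
  obtain ⟨hfin, hcard⟩ := h n hn T hT
  have hex : ∀ g : Gam qI, ∃ M : M3, g ∈ GamN qI (n : ℂ) → Elt n M ∧
      ∀ i j, mat g.1 i j = GaussianInt.toComplex ((1 + (n : Zi) • M) i j) := by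
    intro g
    by_cases hg : g ∈ GamN qI (n : ℂ)
    · obtain ⟨M, hM⟩ := exists_M3 hg
      exact ⟨M, fun _ => hM⟩
    · exact ⟨0, fun h => absurd h hg⟩
  choose F hF using hex
  have hmaps : ∀ g ∈ {g : Gam qI | g ∈ GamN qI (n : ℂ) ∧ ∀ i j, ‖mat g.1 i j‖ ≤ T},
      F g ∈ {M : M3 | Elt n M ∧ Bdd n T M} := by
    rintro g ⟨hg, hb⟩
    obtain ⟨h1, h2⟩ := hF g hg
    refine ⟨h1, fun i j => ?_⟩
    unfold ab
    rw [← h2]
    exact hb i j
  have hinj : Set.InjOn F {g : Gam qI | g ∈ GamN qI (n : ℂ) ∧ ∀ i j, ‖mat g.1 i j‖ ≤ T} := by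
    rintro g ⟨hg, -⟩ g' ⟨hg', -⟩ hgg
    obtain ⟨-, h2⟩ := hF g hg
    obtain ⟨-, h2'⟩ := hF g' hg'
    apply Subtype.ext
    apply Pool.Agent.Lib.H56.Picard.mat_injective
    ext i j
    rw [h2, h2', hgg]
  refine ⟨hfin.of_injOn hmaps hinj, le_trans ?_ hcard⟩
  exact_mod_cast Set.ncard_le_ncard_of_injOn F hmaps hinj hfin

end Pool.Agent.Lib.H89D
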