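import Pool.Agent.Lib.H89D.CE
import Pool.Agent.Lib.H89D.TR

/-!
# CF: the count property for the Gaussian integers
-/

namespace Pool.Agent.Lib.H89D

open Pool.Agent.Lib.H56.Gen
open Pool.Agent.Lib.H56.Picard (mat)

/-- The count for `SU(2,1; ℤ[i])`. -/
theorem count_qI : Count qI := by
  intro ε hε
  obtain ⟨C, hC, h⟩ := count hε
  refine ⟨C, hC, fun n hn T hT => ?_⟩
  obtain ⟨h1, h2⟩ := h n hn T hT
  have hsub : {g : Gam qI | g ∈ GamN qI (n : ℂ) ∧ g ≠ 1 ∧ ∀ i j, ‖mat g.1 i j‖ ≤ T} ⊆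
      {g : Gam qI | g ∈ GamN qI (n : ℂ) ∧ ∀ i j, ‖mat g.1 i j‖ ≤ T} :=
    fun g hg => ⟨hg.1, hg.2.2⟩
  refine ⟨h1.subset hsub, le_trans ?_ h2⟩
  exact_mod_cast Set.ncard_le_ncard hsub h1

end Pool.Agent.Lib.H89D
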