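import Pool.Agent.Lib.H89D.CS1
import Pool.Agent.Lib.H89D.CS2
import Pool.Agent.Lib.H89D.CS3
import Pool.Agent.Lib.H21AP.DivisorBound

/-!
# CS4: the sum over `c`
-/

namespace Pool.Agent.Lib.H89D

/-- The integer `ρ` of `c`: `c + star c = n ρ`. -/
def rhoC (n : ℕ) (c : Zi) : ℕ := (2 * c.re / (n : ℤ)).natAbs

/-- The set of possible `c` is finite. PROOF. `ab c ≤ X / n`, so the real and imaginary parts are
bounded. -/
theorem finite_CC (n : ℕ) (hn : 1 ≤ n) (X : ℝ) : (CC n X).Finite := by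
  have hnr : (1 : ℝ) ≤ n := by exact_mod_cast hn
  have hmaps : ∀ c ∈ CC n X, (c.re, c.im) ∈ (↑(Finset.Icc (-⌊X⌋) ⌊X⌋ ×ˢ Finset.Icc (-⌊X⌋) ⌊X⌋) :
      Set (ℤ × ℤ)) := by
    rintro c ⟨-, hc⟩
    have h0 : ab c ≤ X := by
      have := ab_nonneg c
      nlinarith
    have key : ∀ x : ℤ, |(x : ℝ)| ≤ X → x ∈ Finset.Icc (-⌊X⌋) ⌊X⌋ := by
      intro x hx
      rw [abs_le] at hx
      rw [Finset.mem_Icc, Int.le_floor]
      refine ⟨?_, hx.2⟩
      have : -x ≤ ⌊X⌋ := by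
        rw [Int.le_floor]
        push_cast
        linarith
      linarith
    rw [Finset.mem_coe, Finset.mem_product]
    exact ⟨key _ ((abs_re_le c).trans h0), key _ ((abs_im_le c).trans h0)⟩
  have hinj : Set.InjOn (fun z : Zi => (z.re, z.im)) (CC n X) := by
    intro z _ z' _ h
    have h1 : z.re = z'.re := congrArg Prod.fst h
    have h2 : z.im = z'.im := congrArg Prod.snd h
    exact Zsqrtd.ext h1 h2
  exact Set.Finite.of_injOn hmaps hinj (Finset.finite_toSet _)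

/-- the facts on `c` -/
theorem CS4_facts {n : ℕ} (hn : 1 ≤ n) {X : ℝ} {c : Zi} (hc : c ∈ CC n X) :
    1 ≤ rhoC n c ∧ 2 * c.re.natAbs = n * rhoC n c ∧ (c.re.natAbs : ℝ) ≤ X / n ∧
      |(c.im : ℝ)| ≤ X / n ∧ (c.re.natAbs : ℝ) ≤ ab c := by
  obtain ⟨⟨ρ, hρ, h1⟩, h2⟩ := hc
  have hnr : (0 : ℝ) < n := by exact_mod_cast hn
  have hn0 : (n : ℤ) ≠ 0 := by
    have : n ≠ 0 := by omega
    exact_mod_cast this
  have h3 : 2 * c.re = n * ρ := by
    have h4 := congrArg Zsqrtd.re h1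
    rw [Zsqrtd.re_add, Zsqrtd.re_star] at h4
    simp at h4
    linarith
  have h5 : rhoC n c = ρ.natAbs := by
    rw [rhoC, h3, Int.mul_ediv_cancel_left _ hn0]
  have h6 : ab c ≤ X / n := by
    rw [le_div_iff₀ hnr]
    linarith
  have h7 : ((c.re.natAbs : ℕ) : ℝ) = |(c.re : ℝ)| := by
    rw [Nat.cast_natAbs, Int.cast_abs]
  refine ⟨?_, ?_, ?_, (abs_im_le c).trans h6, ?_⟩
  · rw [h5]
    exact Int.natAbs_pos.2 hρ
  · rw [h5]
    have h8 := congrArg Int.natAbs h3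
    rw [Int.natAbs_mul, Int.natAbs_mul] at h8
    simpa using h8
  · rw [h7]
    exact (abs_re_le c).trans h6
  · rw [h7]
    exact abs_re_le c

/-- the sum over `y` -/
theorem CS4_line (m r : ℕ) (Z : ℝ) (F : Finset Zi) (x : ℤ) (hF : ∀ c ∈ F, c.re = x)
    (hx : x.natAbs = m) (hFZ : ∀ c ∈ F, |(c.im : ℝ)| ≤ Z) :
    ∑ c ∈ F, (ct c : ℝ) * RS (ct c) r ≤
      ∑ y ∈ Finset.Icc (-⌊Z⌋) ⌊Z⌋, ((Int.gcd m y : ℕ) : ℝ) * RS (Int.gcd m y) r := by
  classical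
  have h1 : ∀ c ∈ F, (ct c : ℝ) * RS (ct c) r =
      ((Int.gcd m c.im : ℕ) : ℝ) * RS (Int.gcd m c.im) r := by
    intro c hc
    have h2 : ct c = Int.gcd m c.im := by
      rw [ct, hF c hc, ← hx, Int.gcd, Int.gcd, Int.natAbs_natCast]
    rw [h2]
  rw [Finset.sum_congr rfl h1]
  have hinj : Set.InjOn (fun c : Zi => c.im) F := by
    intro c hc c' hc' h
    exact Zsqrtd.ext ((hF c hc).trans (hF c' hc').symm) h
  rw [← Finset.sum_image (f := fun y : ℤ => ((Int.gcd m y : ℕ) : ℝ) * RS (Int.gcd m y) r) hinj]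
  apply Finset.sum_le_sum_of_subset_of_nonneg
  · intro y hy
    rw [Finset.mem_image] at hy
    obtain ⟨c, hc, rfl⟩ := hy
    have h3 := hFZ c hc
    rw [abs_le] at h3
    rw [Finset.mem_Icc, Int.le_floor]
    refine ⟨?_, h3.2⟩
    have : -c.im ≤ ⌊Z⌋ := by
      rw [Int.le_floor]
      push_cast
      linarith
    linarith
  · intro y _ _
    positivity

/-- The sum over `c`.

PROOF. For `c ∈ CC n X`: `2 Re c = n ρ`, `rhoC n c = |ρ|`, `m = |Re c| ≥ 1`, `m ∣ n |ρ|`,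
`ct c = gcd (m, y)` with `y = Im c`, `m ≤ Z` and `|y| ≤ Z` for `Z = X / n`; `ab c ≥ m = n |ρ| / 2`, so
`X / (n ab c) ≤ 2 X / (n² |ρ|)`; `|ρ| ≤ 2 Z / n ≤ Y := ⌊2 X / n²⌋`; `(ct c) ^ ε ≤ X ^ ε`. The map
`c ↦ (ρ, y)` is injective. So the sum is at most
`X ^ ε ∑_{0 < |ρ| ≤ Y} (2 X / (n² |ρ|)) ∑_{|y| ≤ Z} q RS(q, |ρ|)`, `q = gcd (m, y)`; by `cs3` and `cs1`
the inner sum is at most `3 (X / n) d(n |ρ|)² ∑_{e ≤ |ρ|, e² ∣ |ρ|} e`. With `divisor_bound`
(exponent `ε / 8`; `n |ρ| ≤ 2 X`) and `cs2`, and `1 + log Y ≤ C X ^ (ε / 8)`, the sum is at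
most `C X ^ (2 ε) X² / n³`. -/
theorem csum {ε : ℝ} (hε : 0 < ε) : ∃ C : ℝ, 0 < C ∧ ∀ n : ℕ, 1 ≤ n → ∀ X : ℝ,
    (n : ℝ) ≤ X → ∀ S : Finset Zi, (∀ c ∈ S, c ∈ CC n X) →
      ∑ c ∈ S, (ct c : ℝ) ^ (1 + ε) * RS (ct c) (rhoC n c) * (X / (n * ab c)) ≤
        C * X ^ (2 * ε) * (X ^ 2 / (n : ℝ) ^ 3) := by
  classical
  obtain ⟨C₁, hC₁, hdiv⟩ := Pool.Agent.Lib.H21AP.divisor_bound (show 0 < ε / 8 by linarith)
  refine ⟨12 * C₁ ^ 2 * (1 + 4 / ε) ^ 2 * (2 : ℝ) ^ ε, by positivity, ?_⟩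
  intro n hn X hX S hS
  have hnr : (1 : ℝ) ≤ n := by exact_mod_cast hn
  have hX1 : 1 ≤ X := hnr.trans hX
  obtain ⟨Z, hZ⟩ : ∃ Z, Z = X / n := ⟨_, rfl⟩
  have hZ0 : 0 ≤ Z := by rw [hZ]; positivity
  have hZX : Z ≤ X := by
    rw [hZ, div_le_iff₀ (by linarith)]
    nlinarith
  obtain ⟨Y, hY⟩ : ∃ Y, Y = ⌊2 * X / (n : ℝ) ^ 2⌋₊ := ⟨_, rfl⟩
  -- the range of rho
  have hr : ∀ c ∈ S, rhoC n c ∈ Finset.Icc 1 Y := by
    intro c hc
    obtain ⟨h1, h2, h3, -, -⟩ := CS4_facts hn (hS c hc)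
    rw [Finset.mem_Icc, hY, Nat.le_floor_iff (by positivity)]
    refine ⟨h1, ?_⟩
    have h4 : 2 * (c.re.natAbs : ℝ) = n * rhoC n c := by exact_mod_cast h2
    rw [le_div_iff₀ (by positivity)]
    rw [le_div_iff₀ (by linarith)] at h3
    nlinarith
  rw [← Finset.sum_fiberwise_of_maps_to hr]
  obtain ⟨E, hE⟩ : ∃ E : ℕ → ℝ, ∀ r, E r =
      ∑ e ∈ (Finset.Icc 1 r).filter (fun e => e ^ 2 ∣ r), (e : ℝ) := ⟨_, fun _ => rfl⟩
  have hE0 : ∀ r, 0 ≤ E r := by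
    intro r
    rw [hE]
    positivity
  obtain ⟨D, hD⟩ : ∃ D, D = C₁ * (2 * X) ^ (ε / 8) := ⟨_, rfl⟩
  have hD0 : 0 ≤ D := by rw [hD]; positivity
  -- one line
  have hline : ∀ r ∈ Finset.Icc 1 Y, ∀ (x : ℤ) (F : Finset Zi), (∀ c ∈ F, c ∈ S ∧ rhoC n c = r) →
      (∀ c ∈ F, c.re = x) → ∑ c ∈ F, (ct c : ℝ) * RS (ct c) r ≤ 3 * Z * (D ^ 2 * E r) := by
    intro r hr1 x F hF1 hF2
    rw [Finset.mem_Icc] at hr1
    rcases F.eq_empty_or_nonempty with h0 | ⟨c₀, hc₀⟩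
    · rw [h0, Finset.sum_empty]
      have := hE0 r
      positivity
    obtain ⟨g1, g2, g3, g4, g5⟩ := CS4_facts hn (hS c₀ (hF1 c₀ hc₀).1)
    rw [hF2 c₀ hc₀, (hF1 c₀ hc₀).2] at g2
    rw [hF2 c₀ hc₀, ← hZ] at g3
    obtain ⟨m, hm⟩ : ∃ m, m = x.natAbs := ⟨_, rfl⟩
    rw [← hm] at g2 g3
    have hnr0 : 1 ≤ n * r := Nat.mul_pos hn hr1.1
    have hm1 : 1 ≤ m := by omega
    have hmd : m ∣ n * r := ⟨2, by omega⟩
    have k1 := CS4_line m r Z F x hF2 hm.symm (by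
      intro c hc
      obtain ⟨-, -, -, h, -⟩ := CS4_facts hn (hS c (hF1 c hc).1)
      rwa [← hZ] at h)
    have k2 := cs3 m r hm1 Z g3
    have k3 : ((∑ q ∈ m.divisors, RS q r : ℕ) : ℝ) ≤ (((n * r).divisors.card ^ 2 *
      ∑ e ∈ (Finset.Icc 1 r).filter (fun e => e ^ 2 ∣ r), e : ℕ) : ℝ) := by
      exact_mod_cast cs1 hn hr1.1 hmd
    push_cast at k3
    rw [← hE] at k3
    have k4 : ((n * r).divisors.card : ℝ) ≤ D := by
      refine (hdiv (n * r) hnr0).trans ?_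
      rw [hD]
      have k5 : ((n * r : ℕ) : ℝ) ≤ 2 * X := by
        rw [← g2]
        push_cast
        linarith
      exact mul_le_mul_of_nonneg_left (Real.rpow_le_rpow (Nat.cast_nonneg _) k5 (by linarith)) hC₁.le
    refine k1.trans (k2.trans (mul_le_mul_of_nonneg_left (k3.trans ?_) (by positivity)))
    exact mul_le_mul_of_nonneg_right (pow_le_pow_left₀ (Nat.cast_nonneg _) k4 2) (hE0 r)
  -- the fibre
  have hfib : ∀ r ∈ Finset.Icc 1 Y, ∑ c ∈ S.filter (fun c => rhoC n c = r),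
      (ct c : ℝ) ^ (1 + ε) * RS (ct c) (rhoC n c) * (X / (n * ab c)) ≤
      (X ^ ε * (2 * X / (n : ℝ) ^ 2) * (6 * Z * D ^ 2)) * (1 / (r : ℝ) * E r) := by
    intro r hr1
    have hr1' := hr1
    rw [Finset.mem_Icc] at hr1'
    have hrr : (1 : ℝ) ≤ r := by exact_mod_cast hr1'.1
    have h1 : ∀ c ∈ S.filter (fun c => rhoC n c = r),
        (ct c : ℝ) ^ (1 + ε) * RS (ct c) (rhoC n c) * (X / (n * ab c)) ≤
        (X ^ ε * (2 * X / ((n : ℝ) ^ 2 * r))) * ((ct c : ℝ) * RS (ct c) r) := by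
      intro c hc
      rw [Finset.mem_filter] at hc
      obtain ⟨g1, g2, g3, g4, g5⟩ := CS4_facts hn (hS c hc.1)
      rw [hc.2] at g2 ⊢
      have hm1 : 1 ≤ c.re.natAbs := by
        have : 1 ≤ n * r := Nat.mul_pos hn hr1'.1
        omega
      have hmr : (1 : ℝ) ≤ (c.re.natAbs : ℝ) := by exact_mod_cast hm1
      have g2' : 2 * (c.re.natAbs : ℝ) = n * r := by exact_mod_cast g2
      have hct : (ct c : ℝ) ≤ X := by
        have h2 : ct c ≤ c.re.natAbs := Nat.le_of_dvd hm1 (Int.gcd_dvd_natAbs_left _ _)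
        have h3 : (ct c : ℝ) ≤ c.re.natAbs := by exact_mod_cast h2
        rw [← hZ] at g3
        linarith
      have hct0 : 0 < (ct c : ℝ) := by
        have : 0 < ct c := by
          rw [ct]
          exact Int.gcd_pos_of_ne_zero_left _ (by omega)
        exact_mod_cast this
      have h4 : (ct c : ℝ) ^ (1 + ε) ≤ ct c * X ^ ε := by
        rw [Real.rpow_add hct0, Real.rpow_one]
        exact mul_le_mul_of_nonneg_left (Real.rpow_le_rpow hct0.le hct hε.le) hct0.le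
      have h5 : X / (n * ab c) ≤ 2 * X / ((n : ℝ) ^ 2 * r) := by
        have h6 : (n : ℝ) ^ 2 * r = 2 * (n * c.re.natAbs) := by
          calc (n : ℝ) ^ 2 * r = n * (n * r) := by ring
            _ = _ := by rw [← g2']; ring
        rw [h6, mul_div_mul_left _ _ (by norm_num : (2 : ℝ) ≠ 0)]
        gcongr
      have h7 : 0 ≤ X / (n * ab c) := by
        have := ab_nonneg c
        positivity
      calc (ct c : ℝ) ^ (1 + ε) * RS (ct c) r * (X / (n * ab c))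
          ≤ (ct c * X ^ ε) * RS (ct c) r * (2 * X / ((n : ℝ) ^ 2 * r)) := by gcongr
        _ = _ := by ring
    refine (Finset.sum_le_sum h1).trans ?_
    rw [← Finset.mul_sum]
    have h2 : ∑ c ∈ S.filter (fun c => rhoC n c = r), (ct c : ℝ) * RS (ct c) r ≤
        6 * Z * (D ^ 2 * E r) := by
      rw [← Finset.sum_filter_add_sum_filter_not _ (fun c : Zi => 0 < c.re)]
      have key : ∀ c ∈ S.filter (fun c => rhoC n c = r), 2 * c.re.natAbs = n * r := by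
        intro c hc
        rw [Finset.mem_filter] at hc
        have := (CS4_facts hn (hS c hc.1)).2.1
        rwa [hc.2] at this
      have p1 := hline r hr1 (((n * r / 2 : ℕ) : ℤ))
        ((S.filter (fun c => rhoC n c = r)).filter (fun c : Zi => 0 < c.re)) (by
        intro c hc
        rw [Finset.mem_filter, Finset.mem_filter] at hc
        exact hc.1) (by
        intro c hc
        rw [Finset.mem_filter] at hc
        have := key c hc.1
        omega)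
      have p2 := hline r hr1 (-((n * r / 2 : ℕ) : ℤ))
        ((S.filter (fun c => rhoC n c = r)).filter (fun c : Zi => ¬ 0 < c.re)) (by
        intro c hc
        rw [Finset.mem_filter, Finset.mem_filter] at hc
        exact hc.1) (by
        intro c hc
        rw [Finset.mem_filter] at hc
        have := key c hc.1
        omega)
      linarith
    have h3 : 0 ≤ X ^ ε * (2 * X / ((n : ℝ) ^ 2 * r)) := by positivity
    refine (mul_le_mul_of_nonneg_left h2 h3).trans (le_of_eq ?_)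
    field_simp
  refine (Finset.sum_le_sum hfib).trans ?_
  rw [← Finset.mul_sum]
  rcases Nat.eq_zero_or_pos Y with hY0 | hY0
  · rw [hY0]
    simp
    positivity
  have hcs := cs2 Y hY0
  simp only [← hE] at hcs
  have hYX : (Y : ℝ) ≤ 2 * X := by
    rw [hY]
    refine (Nat.floor_le (by positivity)).trans ?_
    rw [div_le_iff₀ (by positivity)]
    have h1 : 1 ≤ (n : ℝ) ^ 2 := by nlinarith
    have h2 : 0 ≤ 2 * X := by linarith
    nlinarith
  have hYr : (1 : ℝ) ≤ Y := by exact_mod_cast hY0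
  have hlog : 1 + Real.log Y ≤ (1 + 4 / ε) * (2 * X) ^ (ε / 4) := by
    have h1 : Real.log Y ≤ Real.log (2 * X) := Real.log_le_log (by linarith) hYX
    have h2 := Real.log_le_rpow_div (show 0 ≤ 2 * X by linarith) (show 0 < ε / 4 by linarith)
    have h3 : 1 ≤ (2 * X) ^ (ε / 4) := Real.one_le_rpow (by linarith) (by linarith)
    have h4 : (2 * X) ^ (ε / 4) / (ε / 4) = 4 / ε * (2 * X) ^ (ε / 4) := by
      field_simp
    rw [h4] at h2
    linarith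
  have hlog0 : 0 ≤ 1 + Real.log Y := by
    have := Real.log_nonneg hYr
    linarith
  have hlog2 : (1 + Real.log Y) ^ 2 ≤ ((1 + 4 / ε) * (2 * X) ^ (ε / 4)) ^ 2 :=
    pow_le_pow_left₀ hlog0 hlog 2
  have hK : 0 ≤ X ^ ε * (2 * X / (n : ℝ) ^ 2) * (6 * Z * D ^ 2) := by positivity
  refine (mul_le_mul_of_nonneg_left (hcs.trans hlog2) hK).trans ?_
  have h2X : 0 < 2 * X := by linarith
  have e1 : D ^ 2 = C₁ ^ 2 * (2 * X) ^ (ε / 4) := by
    rw [hD, mul_pow, ← Real.rpow_natCast ((2 * X) ^ (ε / 8)), ← Real.rpow_mul h2X.le]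
    congr 2
    push_cast
    ring
  have e2 : ((2 * X) ^ (ε / 4)) ^ 2 = (2 * X) ^ (ε / 2) := by
    rw [← Real.rpow_natCast, ← Real.rpow_mul h2X.le]
    congr 1
    push_cast
    ring
  have e3 : (2 * X) ^ (ε / 4) * (2 * X) ^ (ε / 2) ≤ (2 : ℝ) ^ ε * X ^ ε := by
    rw [← Real.rpow_add h2X, ← Real.mul_rpow (by norm_num) (by linarith)]
    exact Real.rpow_le_rpow_of_exponent_le (by linarith) (by linarith)
  have e4 : X ^ (2 * ε) = X ^ ε * X ^ ε := by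
    rw [← Real.rpow_add (by linarith)]
    congr 1
    ring
  rw [mul_pow, e2, e1, e4, hZ]
  calc X ^ ε * (2 * X / (n : ℝ) ^ 2) * (6 * (X / n) * (C₁ ^ 2 * (2 * X) ^ (ε / 4))) *
        ((1 + 4 / ε) ^ 2 * (2 * X) ^ (ε / 2))
      = 12 * C₁ ^ 2 * (1 + 4 / ε) ^ 2 * X ^ ε * (X ^ 2 / (n : ℝ) ^ 3) *
        ((2 * X) ^ (ε / 4) * (2 * X) ^ (ε / 2)) := by
        field_simp
        ring
    _ ≤ 12 * C₁ ^ 2 * (1 + 4 / ε) ^ 2 * X ^ ε * (X ^ 2 / (n : ℝ) ^ 3) *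
        ((2 : ℝ) ^ ε * X ^ ε) := by gcongr
    _ = _ := by ring

end Pool.Agent.Lib.H89D
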