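import Pool.Agent.Lib.H89D.Defs

/-!
# SZ: sizes
-/

namespace Pool.Agent.Lib.H89D

/-- Sizes of `b` and `a`.

PROOF. Write `a, b, c, ...` for the entries of `M`; `C = n ab c`. `c ≠ 0` since `n ρ = c + star c ≠ 0`;
so `C ≥ 1`, and `C ≤ X` by `Bdd` (entry `2 0` of `1 + n M` is `n c`).
(1) `(n g) (n c) = (1 + n a) (1 + n e) - star (1 + n h)`: from `hg`, `hη`, `hτ`. So with
`A = ab (1 + n a) ≤ ab (1 + n e)`: `A² ≤ X C + X ≤ 2 X C`.
(2) `n² b star b = - n ((1 + n a) star c + star (1 + n a) c)`: from `ha`, `hc`. So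
`n² (ab b)² ≤ 2 A C`, `(ab b / ab c)² ≤ 2 A / C ≤ 2 √(2 X / C)`, and `2 √2 ≤ 4`.
(3) `n ab a ≤ A + 1`, so `ab a / ab c ≤ (A + 1) / C ≤ √(2 X / C) + 1 ≤ 3 √(X / C)`. -/
theorem sizes {n : ℕ} {X : ℝ} (hn : 1 ≤ n) (hX : 1 ≤ X) {M : M3} {ρ η : ℤ} {τ : Zi}
    (h : RelsM n M ρ η τ) (hρ : ρ ≠ 0) (hB : Bdd n X M)
    (h1 : ab (1 + n * M 0 0) ≤ ab (1 + n * M 2 2)) :
    M 2 0 ≠ 0 ∧ n * ab (M 2 0) ≤ X ∧
      ab (M 1 0) ≤ 2 * (X / (n * ab (M 2 0))) ^ (1 / 4 : ℝ) * ab (M 2 0) ∧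
      ab (M 0 0) ≤ 3 * (X / (n * ab (M 2 0))) ^ (1 / 2 : ℝ) * ab (M 2 0) := by
  have hn0 : (n : Zi) ≠ 0 := by
    have : n ≠ 0 := by omega
    exact_mod_cast this
  have hnr : (1 : ℝ) ≤ n := by exact_mod_cast hn
  have hB20 := hB 2 0
  have hB02 := hB 0 2
  have hB11 := hB 1 1
  have e20 : (1 + (n : Zi) • M : M3) 2 0 = n * M 2 0 := by simp
  have e02 : (1 + (n : Zi) • M : M3) 0 2 = n * M 0 2 := by simp
  have e11 : (1 + (n : Zi) • M : M3) 1 1 = 1 + n * M 1 1 := by simp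
  rw [e20] at hB20
  rw [e02] at hB02
  rw [e11] at hB11
  have hc := h.hc
  have ha := h.ha
  have hτ := h.hτ
  have hη := h.hη
  have hg := h.hg
  generalize M 0 0 = a at *
  generalize M 0 2 = g at *
  generalize M 1 0 = b at *
  generalize M 1 1 = hh at *
  generalize M 2 0 = c at *
  generalize M 2 2 = e at *
  have hc0 : c ≠ 0 := by
    rintro rfl
    rw [star_zero, add_zero] at hc
    have h2 := (mul_eq_zero.1 hc.symm).resolve_left hn0
    exact hρ (by exact_mod_cast h2)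
  have habc := one_le_ab hc0
  rw [ab_mul, ab_natCast] at hB20
  obtain ⟨C, hC⟩ : ∃ C, C = n * ab c := ⟨_, rfl⟩
  have hC1 : 1 ≤ C := by rw [hC]; nlinarith
  rw [← hC] at hB20 ⊢
  obtain ⟨A, hA⟩ : ∃ A, A = ab (1 + n * a) := ⟨_, rfl⟩
  have hA0 : 0 ≤ A := by rw [hA]; exact ab_nonneg _
  -- (1)
  have f1 : (n * g) * (n * c) = (1 + n * a) * (1 + n * e) - star (1 + n * hh) := by
    rw [star_add, star_one, star_mul', star_natCast]
    linear_combination (n : Zi) ^ 2 * hg + n * hη - n * hτ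
  have f2 : A ^ 2 ≤ 2 * X * C := by
    have g1 : ab ((1 + n * a) * (1 + n * e)) ≤ X * C + X := by
      have g2 : (1 + n * a) * (1 + n * e) = (n * g) * (n * c) + star (1 + n * hh) := by
        rw [f1]
        ring
      rw [g2]
      refine (ab_add_le _ _).trans ?_
      rw [ab_star, ab_mul, ab_mul (n : Zi) c, ab_natCast, ← hC]
      have hC0 : 0 ≤ C := by linarith
      exact add_le_add (mul_le_mul_of_nonneg_right hB02 hC0) hB11
    rw [ab_mul] at g1
    have g3 : A * A ≤ ab (1 + n * a) * ab (1 + n * e) := by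
      rw [hA]
      exact mul_le_mul_of_nonneg_left h1 (ab_nonneg _)
    nlinarith
  -- Z
  obtain ⟨Z, hZ⟩ : ∃ Z, Z = X / C := ⟨_, rfl⟩
  have hXZ : X = Z * C := by rw [hZ]; field_simp
  have hZ1 : 1 ≤ Z := by
    rw [hZ, one_le_div (by linarith)]
    exact hB20
  rw [← hZ]
  obtain ⟨s, hs⟩ : ∃ s, s = Z ^ (1 / 2 : ℝ) := ⟨_, rfl⟩
  obtain ⟨r, hr⟩ : ∃ r, r = Z ^ (1 / 4 : ℝ) := ⟨_, rfl⟩
  have hs2 : s ^ 2 = Z := by
    rw [hs, ← Real.rpow_natCast, ← Real.rpow_mul (by linarith)]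
    norm_num
  have hr2 : r ^ 2 = s := by
    rw [hs, hr, ← Real.rpow_natCast, ← Real.rpow_mul (by linarith)]
    norm_num
  have hs1 : 1 ≤ s := by rw [hs]; exact Real.one_le_rpow hZ1 (by norm_num)
  have hr1 : 1 ≤ r := by rw [hr]; exact Real.one_le_rpow hZ1 (by norm_num)
  rw [← hs, ← hr]
  have f3 : A ≤ 3 / 2 * (s * C) := by
    have g1 : A ^ 2 ≤ (3 / 2 * (s * C)) ^ 2 := by
      have g2 : (3 / 2 * (s * C)) ^ 2 = 9 / 4 * (Z * C * C) := by
        rw [← hs2]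
        ring
      rw [g2, ← hXZ]
      have : 0 ≤ X * C := by positivity
      linarith
    exact (sq_le_sq₀ hA0 (by positivity)).1 g1
  refine ⟨hc0, hB20, ?_, ?_⟩
  · have f4 : (n : Zi) ^ 2 * (b * star b) =
        -(n * ((1 + n * a) * star c + star (1 + n * a) * c)) := by
      rw [star_add, star_one, star_mul', star_natCast]
      linear_combination (n : Zi) ^ 2 * ha + n * hc
    have f5 : (n : ℝ) ^ 2 * ab b ^ 2 ≤ 2 * (A * C) := by
      have g1 := congrArg ab f4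
      rw [ab_neg, ab_mul, ab_mul, ab_star, pow_two (n : Zi), ab_mul, ab_natCast, ab_mul (n : Zi),
        ab_natCast] at g1
      have g2 : ab ((1 + n * a) * star c + star (1 + n * a) * c) ≤ 2 * (A * ab c) := by
        refine (ab_add_le _ _).trans ?_
        rw [ab_mul, ab_mul, ab_star, ab_star, ← hA]
        linarith
      calc (n : ℝ) ^ 2 * ab b ^ 2 = n * n * (ab b * ab b) := by ring
        _ = n * ab ((1 + n * a) * star c + star (1 + n * a) * c) := g1
        _ ≤ n * (2 * (A * ab c)) := by gcongr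
        _ = 2 * (A * C) := by rw [hC]; ring
    have f6 : ab b ^ 2 ≤ (2 * r * ab c) ^ 2 := by
      have g1 : (n : ℝ) ^ 2 * ab b ^ 2 ≤ (n : ℝ) ^ 2 * (2 * r * ab c) ^ 2 := by
        have g2 : (n : ℝ) ^ 2 * (2 * r * ab c) ^ 2 = 4 * (s * (C * C)) := by
          rw [← hr2, hC]
          ring
        rw [g2]
        have g3 : A * C ≤ 3 / 2 * (s * C) * C := mul_le_mul_of_nonneg_right f3 (by linarith)
        have g4 : 0 ≤ s * (C * C) := by positivity
        nlinarith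
      exact le_of_mul_le_mul_left g1 (by positivity)
    exact (sq_le_sq₀ (ab_nonneg _) (by positivity)).1 f6
  · have f7 : n * ab a ≤ A + 1 := by
      have g1 : (n : Zi) * a = (1 + n * a) - 1 := by ring
      rw [← ab_natCast n, ← ab_mul, g1, hA]
      refine (ab_sub_le _ _).trans ?_
      rw [ab_one]
    have f8 : n * ab a ≤ n * (3 * s * ab c) := by
      have g2 : (n : ℝ) * (3 * s * ab c) = 3 * (s * C) := by rw [hC]; ring
      rw [g2]
      have g3 : 1 ≤ s * C := by nlinarith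
      linarith
    exact le_of_mul_le_mul_left f8 (by linarith)

end Pool.Agent.Lib.H89D
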