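import Pool.Agent.Lib.H89D.BC
import Pool.Agent.Lib.H89D.AC
import Pool.Agent.Lib.H89D.SZ

/-!
# FB: the number of `(b, a)` for given `c`, `τ`, `w`
-/

namespace Pool.Agent.Lib.H89D

theorem FB_fiber {B : Set Zi} (hB : B.Finite) (T : Set (Zi × Zi)) (hT : ∀ p ∈ T, p.1 ∈ B) (K : ℝ)
    (h : ∀ b ∈ B, {a | (b, a) ∈ T}.Finite ∧ ({a | (b, a) ∈ T}.ncard : ℝ) ≤ K) :
    T.Finite ∧ (T.ncard : ℝ) ≤ B.ncard * K := by
  classical
  have hsub : T = ⋃ b ∈ hB.toFinset, (fun a => (b, a)) '' {a | (b, a) ∈ T} := by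
    ext ⟨b, a⟩
    simp only [Set.Finite.mem_toFinset, Set.mem_iUnion, Set.mem_image, Set.mem_ofPred_eq,
      Prod.mk.injEq, exists_prop]
    constructor
    · intro hp
      exact ⟨b, hT _ hp, a, hp, rfl, rfl⟩
    · rintro ⟨b', -, a', hp, rfl, rfl⟩
      exact hp
  have hfin : ∀ b ∈ hB.toFinset, ((fun a => (b, a)) '' {a | (b, a) ∈ T}).Finite := by
    intro b hb
    exact ((h b ((Set.Finite.mem_toFinset hB).1 hb)).1).image _
  refine ⟨?_, ?_⟩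
  · rw [hsub]
    exact Set.Finite.biUnion (Finset.finite_toSet _) hfin
  · have h1 : (T.ncard : ℝ) ≤ ∑ b ∈ hB.toFinset,
        (((fun a => (b, a)) '' {a | (b, a) ∈ T}).ncard : ℝ) := by
      conv_lhs => rw [hsub]
      exact_mod_cast Finset.set_ncard_biUnion_le _ _
    refine h1.trans ?_
    have h2 : ∀ b ∈ hB.toFinset, (((fun a => (b, a)) '' {a | (b, a) ∈ T}).ncard : ℝ) ≤ K := by
      intro b hb
      have h3 := h b ((Set.Finite.mem_toFinset hB).1 hb)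
      refine le_trans ?_ h3.2
      exact_mod_cast Set.ncard_image_le h3.1
    refine (Finset.sum_le_sum h2).trans (le_of_eq ?_)
    rw [Finset.sum_const, nsmul_eq_mul, Set.ncard_eq_toFinset_card _ hB]

theorem FB_elt {n : ℕ} {X : ℝ} (hn : 1 ≤ n) (hX : 1 ≤ X) {c τ w : Zi} {ρ : ℤ}
    (hρ : c + star c = n * ρ) {b a : Zi} (h : PP n X c τ w b a) :
    c ≠ 0 ∧ n * ab c ≤ X ∧ ∃ μ : ℕ, 1 ≤ μ ∧ μ ∣ ct c ∧
      b ∈ BS c w ρ μ (2 * (X / (n * ab c)) ^ (1 / 4 : ℝ) * ab c) ∧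
      {a | PP n X c τ w b a}.Finite ∧
      ({a | PP n X c τ w b a}.ncard : ℝ) ≤ 1 + 12 * (X / (n * ab c)) ^ (1 / 2 : ℝ) * μ := by
  obtain ⟨M, ρ', η, hR, hρ0, hB, h1, hc, hw, hb, ha⟩ := h
  have hn0 : (n : Zi) ≠ 0 := by
    have : n ≠ 0 := by omega
    exact_mod_cast this
  obtain ⟨s1, s2, s3, s4⟩ := sizes hn hX hR hρ0 hB h1
  have hcc := hR.hc
  have hρρ := hR.hρ
  have hff := hR.hf
  have hkk := hR.hk
  have hττ := hR.hτ
  rw [hc] at s1 s2 s3 s4 hcc hρρ hff hkk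
  rw [hb] at s3 hρρ hff hkk
  rw [ha] at s4 hff hττ
  have hw' : b * star c - star (M 2 1) * c = w := by
    rw [← hw, ww, hb, hc]
  have hρ' : ∀ r : ℤ, c + star c = n * r → r = ρ := by
    intro r hr
    rw [hρ] at hr
    have := mul_left_cancel₀ hn0 hr
    exact_mod_cast this.symm
  have hρeq := hρ' ρ' hcc
  subst hρeq
  have habc : 0 < ab c := ab_pos s1
  have hct : ct c ≠ 0 := (BC_prim s1).1
  obtain ⟨μ, hμ⟩ : ∃ μ : ℕ, μ = Nat.gcd (Nat.gcd (ct b) (ct c)) (ct (M 2 1)) := ⟨_, rfl⟩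
  have hμ0 : 1 ≤ μ := by
    rw [Nat.one_le_iff_ne_zero, hμ]
    intro h
    rw [Nat.gcd_eq_zero_iff, Nat.gcd_eq_zero_iff] at h
    exact hct h.1.2
  have hX0 : 0 ≤ X / (n * ab c) := by positivity
  have hY : 0 ≤ 3 * (X / (n * ab c)) ^ (1 / 2 : ℝ) * ab c := by positivity
  obtain ⟨hf, hcard⟩ := a_count b c (M 2 1) s1 (-ρ' - b * star b) (a * M 2 1 - c * M 0 1)
    (a * b + c * M 1 2) _ hY
  rw [← hμ] at hcard
  have hsub : {a | PP n X c τ w b a} ⊆ {a' : Zi | ab a' ≤ 3 * (X / (n * ab c)) ^ (1 / 2 : ℝ) * ab c ∧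
      a' * star c + star a' * c = -ρ' - b * star b ∧
      (∃ f, a' * M 2 1 - c * f = a * M 2 1 - c * M 0 1) ∧
      ∃ k, a' * b - c * k = a * b + c * M 1 2} := by
    rintro a' ⟨M', ρ'', η', hR', hρ0', hB', h1', hc', hw', hb', ha'⟩
    obtain ⟨-, -, -, t4⟩ := sizes hn hX hR' hρ0' hB' h1'
    have kc := hR'.hc
    have kρ := hR'.hρ
    have kf := hR'.hf
    have kk := hR'.hk
    have kτ := hR'.hτ
    have ka := hR'.ha
    rw [hc'] at t4 kc kρ kf kk ka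
    rw [hb'] at kρ kf kk ka
    rw [ha'] at t4 kf kτ ka
    have hρe := hρ' ρ'' kc
    subst hρe
    have hw'' : b * star c - star (M' 2 1) * c = w := by
      rw [← hw', ww, hb', hc']
    have hd : M' 2 1 = M 2 1 := by
      have h2 : star (M' 2 1) * c = star (M 2 1) * c := by
        have := hw''.trans ((by assumption : b * star c - star (M 2 1) * c = w)).symm
        linear_combination -this
      exact star_injective (mul_right_cancel₀ s1 h2)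
    rw [hd] at kρ kf kk
    have hh : M' 1 1 = M 1 1 := by
      apply mul_left_cancel₀ s1
      linear_combination hρρ - kρ
    rw [hh] at kτ
    refine ⟨t4, ka, ⟨M' 0 1, ?_⟩, ⟨-M' 1 2, ?_⟩⟩
    · apply mul_left_cancel₀ hn0
      linear_combination kf - hff
    · apply mul_left_cancel₀ hn0
      linear_combination hkk - kk + n * b * kτ - n * b * hττ
  refine ⟨s1, s2, μ, hμ0, ?_, ⟨s3, M 2 1, M 1 1, hρρ, hw', ?_, ?_⟩, hf.subset hsub, ?_⟩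
  · rw [hμ]
    exact (Nat.gcd_dvd_left _ _).trans (Nat.gcd_dvd_right _ _)
  · rw [hμ]
    exact (Nat.gcd_dvd_left _ _).trans (Nat.gcd_dvd_left _ _)
  · rw [hμ]
    exact Nat.gcd_dvd_right _ _
  · refine le_trans (by exact_mod_cast Set.ncard_le_ncard hsub hf) (hcard.trans (le_of_eq ?_))
    field_simp
    ring

/-- The number of `(b, a)` for given `c`, `τ`, `w`.

PROOF. If `c = 0` the set is empty (`sizes`). Let `c ≠ 0`, and suppose that the set is not empty, so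
that `n ab c ≤ X`; `ξ = (X / (n ab c)) ^ (1/4) ≥ 1`, `q = ct c`. The integer `ρ` in `PP` is the given
one (`hc`, `n ≥ 1`). For `(b, a)` in the set, `d` is determined by `b` (`star d c = b star c - w`), `h` by
`c h = b d - ρ`. Let `μ = gcd (ct b, ct c, ct d)`, a divisor of `q`: `b ∈ BS c w ρ μ Y` with
`Y = 2 ξ ab c` (`sizes`), so `μ gcd (μ, q / μ) ∣ ρ` (`b_dvd`), and for each `μ` there are at most
`C (q / μ) ^ (1 + ε) gcd (μ, q / μ) (1 + 16 ξ)²` elements `b` (`b_count`). For given `b` (with this `μ`)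
the `a` lie in the set of `a_count` with `Y = 3 ξ² ab c`, `P = -ρ - b star b` (`ha`); `D`: from `hf`,
`n (a d - c f) = -(d + star b)` is the same for all, so `a d - c f` is; `B`: from `hk` and
`e = n τ - h - a` the quantity `b e - c k` is the same for all, so `a b + c k` is
(replace `k` by `-k`). So at most `1 + 12 ξ² μ ≤ 13 ξ² μ` elements `a`. Sum over `μ`:
`(q / μ) ^ (1 + ε) μ ≤ q ^ (1 + ε)`, and `(1 + 16 ξ)² 13 ξ² ≤ 4000 ξ⁴ = 4000 X / (n ab c)`. -/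
theorem fib {ε : ℝ} (hε : 0 < ε) : ∃ C : ℝ, 0 < C ∧ ∀ (n : ℕ) (X : ℝ), 1 ≤ n → 1 ≤ X →
    ∀ (c τ w : Zi) (ρ : ℤ), c + star c = n * ρ → {p : Zi × Zi | PP n X c τ w p.1 p.2}.Finite ∧
      ({p : Zi × Zi | PP n X c τ w p.1 p.2}.ncard : ℝ) ≤
        C * (ct c : ℝ) ^ (1 + ε) * RS (ct c) ρ.natAbs * (X / (n * ab c)) := by
  classical
  obtain ⟨C₀, hC₀, hbc⟩ := b_count hε
  refine ⟨4000 * C₀, by positivity, ?_⟩
  intro n X hn hX c τ w ρ hρ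
  obtain ⟨T, hT⟩ : ∃ T : Set (Zi × Zi), T = {p : Zi × Zi | PP n X c τ w p.1 p.2} := ⟨_, rfl⟩
  rw [← hT]
  rcases T.eq_empty_or_nonempty with h0 | ⟨p₀, hp₀⟩
  · rw [h0]
    refine ⟨Set.finite_empty, ?_⟩
    rw [Set.ncard_empty, Nat.cast_zero]
    have := ab_nonneg c
    positivity
  obtain ⟨hc, hcX, -⟩ := FB_elt hn hX hρ (show PP n X c τ w p₀.1 p₀.2 by
    rw [hT] at hp₀
    exact hp₀)
  have habc : 0 < ab c := ab_pos hc
  have hnr : (1 : ℝ) ≤ n := by exact_mod_cast hn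
  have hnc : 0 < n * ab c := by positivity
  obtain ⟨Z, hZ⟩ : ∃ Z, Z = X / (n * ab c) := ⟨_, rfl⟩
  have hZ1 : 1 ≤ Z := by rw [hZ, one_le_div hnc]; exact hcX
  obtain ⟨ξ, hξ⟩ : ∃ ξ, ξ = Z ^ (1 / 4 : ℝ) := ⟨_, rfl⟩
  have hξ1 : 1 ≤ ξ := by rw [hξ]; exact Real.one_le_rpow hZ1 (by norm_num)
  have hξ2 : Z ^ (1 / 2 : ℝ) = ξ ^ 2 := by
    rw [hξ, ← Real.rpow_natCast, ← Real.rpow_mul (by linarith)]
    norm_num
  have hξ4 : Z = ξ ^ 4 := by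
    rw [hξ, ← Real.rpow_natCast, ← Real.rpow_mul (by linarith)]
    norm_num
  obtain ⟨q, hq⟩ : ∃ q, q = ct c := ⟨_, rfl⟩
  have hq0 : q ≠ 0 := by rw [hq]; exact (BC_prim hc).1
  obtain ⟨D, hD⟩ : ∃ D : Finset ℕ, D = q.divisors.filter
    (fun u => u * Nat.gcd u (q / u) ∣ ρ.natAbs) := ⟨_, rfl⟩
  obtain ⟨Y, hY⟩ : ∃ Y, Y = 2 * ξ * ab c := ⟨_, rfl⟩
  have hY0 : 0 ≤ Y := by rw [hY]; positivity
  obtain ⟨U, hU⟩ : ∃ U : ℕ → Set (Zi × Zi), ∀ μ, U μ = {p | p ∈ T ∧ p.1 ∈ BS c w ρ μ Y ∧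
    {a | PP n X c τ w p.1 a}.Finite ∧
      ({a | PP n X c τ w p.1 a}.ncard : ℝ) ≤ 1 + 12 * ξ ^ 2 * μ} := ⟨_, fun _ => rfl⟩
  have hcover : T ⊆ ⋃ μ ∈ D, U μ := by
    intro p hp
    have hp' : PP n X c τ w p.1 p.2 := by
      rw [hT] at hp
      exact hp
    obtain ⟨-, -, μ, h1, h2, h3, h4, h5⟩ := FB_elt hn hX hρ hp'
    rw [← hZ] at h3 h5
    rw [← hξ, ← hY] at h3
    rw [hξ2] at h5
    rw [← hq] at h2
    rw [Set.mem_iUnion₂]
    refine ⟨μ, ?_, ?_⟩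
    · rw [hD, Finset.mem_filter, Nat.mem_divisors]
      refine ⟨⟨h2, hq0⟩, ?_⟩
      rw [hq] at h2 ⊢
      exact b_dvd h2 h1 ⟨_, h3⟩
    · rw [hU]
      exact ⟨hp, h3, h4, h5⟩
  have hUb : ∀ μ ∈ D, (U μ).Finite ∧ ((U μ).ncard : ℝ) ≤
      (C₀ * (((q / μ : ℕ) : ℝ) ^ (1 + ε)) * Nat.gcd μ (q / μ) * (1 + 8 * Y / ab c) ^ 2) *
        (1 + 12 * ξ ^ 2 * μ) := by
    intro μ hμ
    rw [hD, Finset.mem_filter, Nat.mem_divisors] at hμ
    have hμ1 : 1 ≤ μ := Nat.pos_of_dvd_of_pos hμ.1.1 (Nat.pos_of_ne_zero hq0)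
    have hb := hbc c w hc ρ μ hμ1 (by rw [← hq]; exact hμ.1.1) Y hY0
    rw [← hq] at hb
    have hK : 0 ≤ 1 + 12 * ξ ^ 2 * (μ : ℝ) := by positivity
    have h1 := FB_fiber hb.1 (U μ) (fun p hp => by
      rw [hU] at hp
      exact hp.2.1) (1 + 12 * ξ ^ 2 * μ) (by
      intro b _
      rcases Set.eq_empty_or_nonempty {a | (b, a) ∈ U μ} with h2 | ⟨a, ha⟩
      · rw [h2]
        refine ⟨Set.finite_empty, ?_⟩
        rw [Set.ncard_empty, Nat.cast_zero]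
        exact hK
      · have ha' : (b, a) ∈ U μ := ha
        rw [hU] at ha'
        obtain ⟨-, -, h3, h4⟩ := ha'
        have hsub : {a | (b, a) ∈ U μ} ⊆ {a | PP n X c τ w b a} := by
          intro a' ha'
          have ha'' : (b, a') ∈ U μ := ha'
          rw [hU, Set.mem_ofPred_eq, hT] at ha''
          exact ha''.1
        refine ⟨h3.subset hsub, le_trans ?_ h4⟩
        exact_mod_cast Set.ncard_le_ncard hsub h3)
    refine ⟨h1.1, h1.2.trans ?_⟩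
    exact mul_le_mul_of_nonneg_right hb.2 hK
  have hUfin : (⋃ μ ∈ D, U μ).Finite :=
    Set.Finite.biUnion (Finset.finite_toSet _) fun μ hμ => (hUb μ hμ).1
  refine ⟨hUfin.subset hcover, ?_⟩
  have hqr : (0 : ℝ) < q := by exact_mod_cast Nat.pos_of_ne_zero hq0
  have hterm : ∀ μ ∈ D, ((U μ).ncard : ℝ) ≤
      4000 * C₀ * (q : ℝ) ^ (1 + ε) * Z * (Nat.gcd μ (q / μ) : ℕ) := by
    intro μ hμ
    refine (hUb μ hμ).2.trans ?_
    rw [hD, Finset.mem_filter, Nat.mem_divisors] at hμ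
    have hμ1 : 1 ≤ μ := Nat.pos_of_dvd_of_pos hμ.1.1 (Nat.pos_of_ne_zero hq0)
    have hμr : (1 : ℝ) ≤ μ := by exact_mod_cast hμ1
    have e1 : 8 * Y / ab c = 16 * ξ := by
      rw [hY]
      field_simp
      ring
    have e2 : ((q / μ : ℕ) : ℝ) ^ (1 + ε) * μ ≤ (q : ℝ) ^ (1 + ε) := by
      have e3 : (q : ℝ) = ((q / μ : ℕ) : ℝ) * μ := by
        exact_mod_cast (Nat.div_mul_cancel hμ.1.1).symm
      have e4 : (μ : ℝ) ≤ (μ : ℝ) ^ (1 + ε) := by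
        conv_lhs => rw [← Real.rpow_one (μ : ℝ)]
        exact Real.rpow_le_rpow_of_exponent_le hμr (by linarith)
      conv_rhs => rw [e3, Real.mul_rpow (by positivity) (by positivity)]
      exact mul_le_mul_of_nonneg_left e4 (by positivity)
    rw [e1]
    have e5 : (1 + 16 * ξ) ^ 2 ≤ 289 * ξ ^ 2 := by nlinarith
    have e6 : 1 + 12 * ξ ^ 2 * (μ : ℝ) ≤ 13 * ξ ^ 2 * μ := by
      have : 1 ≤ ξ ^ 2 * (μ : ℝ) := by
        have : 1 ≤ ξ ^ 2 := by nlinarith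
        nlinarith
      linarith
    have hgn : (0 : ℝ) ≤ (Nat.gcd μ (q / μ) : ℕ) := Nat.cast_nonneg _
    have hqn : (0 : ℝ) ≤ ((q / μ : ℕ) : ℝ) ^ (1 + ε) := by positivity
    calc C₀ * ((q / μ : ℕ) : ℝ) ^ (1 + ε) * (Nat.gcd μ (q / μ) : ℕ) * (1 + 16 * ξ) ^ 2 *
          (1 + 12 * ξ ^ 2 * μ)
        ≤ C₀ * ((q / μ : ℕ) : ℝ) ^ (1 + ε) * (Nat.gcd μ (q / μ) : ℕ) * (289 * ξ ^ 2) *
          (13 * ξ ^ 2 * μ) := by gcongr
      _ = 3757 * C₀ * ξ ^ 4 * (Nat.gcd μ (q / μ) : ℕ) * (((q / μ : ℕ) : ℝ) ^ (1 + ε) * μ) := by ring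
      _ ≤ 3757 * C₀ * ξ ^ 4 * (Nat.gcd μ (q / μ) : ℕ) * (q : ℝ) ^ (1 + ε) := by gcongr
      _ ≤ 4000 * C₀ * ξ ^ 4 * (Nat.gcd μ (q / μ) : ℕ) * (q : ℝ) ^ (1 + ε) := by gcongr; norm_num
      _ = 4000 * C₀ * (q : ℝ) ^ (1 + ε) * Z * (Nat.gcd μ (q / μ) : ℕ) := by
        rw [← hξ4]
        ring
  have h1 : (T.ncard : ℝ) ≤ ∑ μ ∈ D, ((U μ).ncard : ℝ) := by
    have h2 := (Set.ncard_le_ncard hcover hUfin).trans (Finset.set_ncard_biUnion_le D U)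
    exact_mod_cast h2
  refine h1.trans ((Finset.sum_le_sum hterm).trans (le_of_eq ?_))
  rw [← Finset.mul_sum, ← Nat.cast_sum]
  have h3 : RS (ct c) ρ.natAbs = ∑ μ ∈ D, Nat.gcd μ (q / μ) := by
    rw [hD, ← hq]
    rfl
  rw [h3, ← hq, ← hZ]
  ring

end Pool.Agent.Lib.H89D
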