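import Mathlib

/-!
# I1: linear congruences
-/

namespace Pool.Agent.Lib.H89D

/-- Number of solutions of a linear congruence.

PROOF. The solutions form a coset of (or are not more than) the kernel of the homomorphism
`p ↦ α p.1 + β p.2` from `ZMod n × ZMod n` to `ZMod n`. Its image contains `g = gcd (α, β, n)` (Bezout),
an element of additive order `n / g`, so the kernel has at most `n² / (n / g) = n g` elements. -/
theorem lin_count (n : ℕ) (hn : 1 ≤ n) (α β r : ZMod n) :
    {p : ZMod n × ZMod n | α * p.1 + β * p.2 = r}.ncard ≤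
      n * Nat.gcd (Nat.gcd α.val β.val) n := by
  have hz : NeZero n := ⟨by omega⟩
  set g := Nat.gcd (Nat.gcd α.val β.val) n with hg
  have hgn : g ∣ n := Nat.gcd_dvd_right _ _
  have hg0 : 0 < g := Nat.pos_of_dvd_of_pos hgn hn
  let φ : ZMod n × ZMod n →+ ZMod n :=
    { toFun := fun p => α * p.1 + β * p.2
      map_zero' := by simp
      map_add' := fun p p' => by simp only [Prod.fst_add, Prod.snd_add]; ring }
  have h1 : {p : ZMod n × ZMod n | α * p.1 + β * p.2 = r}.ncard ≤ Nat.card φ.ker := by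
    rcases Set.eq_empty_or_nonempty {p : ZMod n × ZMod n | α * p.1 + β * p.2 = r} with h | ⟨p0, hp0⟩
    · rw [h, Set.ncard_empty]
      exact Nat.zero_le _
    · have h2 : Nat.card φ.ker = ((φ.ker : Set (ZMod n × ZMod n))).ncard := by
        rw [← Nat.card_coe_set_eq]
        rfl
      rw [h2]
      refine Set.ncard_le_ncard_of_injOn (fun p => p - p0) ?_ ?_ (Set.toFinite _)
      · intro p hp
        show φ (p - p0) = 0
        rw [map_sub, sub_eq_zero]
        exact hp.trans hp0.symm
      · intro p _ p' _ h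
        exact sub_left_injective h
  have h3 : Nat.card φ.ker * Nat.card φ.range = n * n := by
    have := φ.ker.card_mul_index
    rw [AddSubgroup.index_ker, Nat.card_prod, Nat.card_zmod] at this
    exact this
  have h4 : n / g ≤ Nat.card φ.range := by
    have e1 : ((g : ℕ) : ZMod n) ∈ φ.range := by
      obtain ⟨x, y, hxy⟩ : ∃ x y : ℤ, (Nat.gcd α.val β.val : ℤ) = α.val * x + β.val * y :=
        ⟨_, _, Nat.gcd_eq_gcd_ab _ _⟩
      obtain ⟨u, v, huv⟩ : ∃ u v : ℤ, (g : ℤ) = (Nat.gcd α.val β.val : ℕ) * u + n * v :=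
        ⟨_, _, Nat.gcd_eq_gcd_ab _ _⟩
      refine ⟨((x * u : ℤ), (y * u : ℤ)), ?_⟩
      show α * ((x * u : ℤ) : ZMod n) + β * ((y * u : ℤ) : ZMod n) = (g : ZMod n)
      have e2 := congrArg (Int.cast : ℤ → ZMod n) huv
      rw [hxy] at e2
      push_cast at e2
      rw [ZMod.natCast_zmod_val, ZMod.natCast_zmod_val, ZMod.natCast_self] at e2
      rw [e2]
      push_cast
      ring
    have e3 : addOrderOf ((g : ℕ) : ZMod n) = n / g := by
      rw [ZMod.addOrderOf_coe g hz.ne, Nat.gcd_eq_right hgn]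
    rw [← e3, ← Nat.card_zmultiples]
    exact Nat.le_of_dvd Nat.card_pos (AddSubgroup.card_dvd_of_le (by
      rw [AddSubgroup.zmultiples_le]
      exact e1))
  refine h1.trans ?_
  by_contra hc
  push Not at hc
  obtain ⟨m, hm⟩ := hgn
  have hm0 : 0 < m := by
    rcases Nat.eq_zero_or_pos m with h | h
    · rw [h, mul_zero] at hm
      omega
    · exact h
  have h5 : n / g = m := by
    rw [hm, Nat.mul_div_cancel_left _ hg0]
  rw [h5] at h4
  have h6 : n * g * m < Nat.card φ.ker * Nat.card φ.range := by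
    calc n * g * m < Nat.card φ.ker * m := Nat.mul_lt_mul_of_pos_right hc hm0
      _ ≤ _ := Nat.mul_le_mul_left _ h4
  rw [h3, mul_assoc, ← hm] at h6
  exact lt_irrefl _ h6

end Pool.Agent.Lib.H89D
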