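import Pool.Agent.Lib.H89D.I2A
import Pool.Agent.Lib.H89D.I1C

/-!
# I2: the index of `PN`
-/

namespace Pool.Agent.Lib.H89D

open Pool.Agent.Lib.H56.Gen
open Pool.Agent.Lib.H56.Picard (mat)

/-- PROOF. The first column modulo `n` (coordinates in `ZMod n`, as in the proof of
`GamN_finiteIndex` in H56/Gen/LevelGroup.lean) is injective on the cosets `γ P(n)`:
`γ e₁ ≡ γ' e₁` gives `γ⁻¹ γ' e₁ ≡ e₁`; it satisfies the isotropy equation of `iso_count`
(`a = ` entry `0 0`, `b = ` entry `1 0`, `c = ` entry `2 0`; entry `0 0` of `γᴴ J γ = J`). -/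
theorem index_PN (q : QD) (n : ℕ) (hn : 1 ≤ n) :
    (PN q n).index ≤ (dd q).toNat * (n ^ 5 * n.divisors.card) ∧ (PN q n).index ≠ 0 := by
  have hz : NeZero n := ⟨by omega⟩
  have hcoord : ∀ (g : Gam q) (i j : Fin 3), ∃ a b : ℤ, mat g.1 i j = el q a b := fun g i j =>
    g.2 i j
  choose a b hab using hcoord
  have hD : 4 * q.n - q.t ^ 2 = ((dd q).toNat : ℤ) := by
    rw [Int.toNat_of_nonneg (dd_pos q).le, dd]
  have h0 : 0 < (dd q).toNat := by
    have := dd_pos q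
    omega
  let f : Gam q → (ZMod n × ZMod n) × (ZMod n × ZMod n) × (ZMod n × ZMod n) := fun g =>
    (((a g 0 0 : ZMod n), (b g 0 0 : ZMod n)), ((a g 1 0 : ZMod n), (b g 1 0 : ZMod n)),
      ((a g 2 0 : ZMod n), (b g 2 0 : ZMod n)))
  have hf : ∀ g, f g ∈ {v : (ZMod n × ZMod n) × (ZMod n × ZMod n) × (ZMod n × ZMod n) |
      (2 * v.2.2.1 + q.t * v.2.2.2) * v.1.1 + (q.t * v.2.2.1 + 2 * q.n * v.2.2.2) * v.1.2 +
        (v.2.1.1 ^ 2 + q.t * v.2.1.1 * v.2.1.2 + q.n * v.2.1.2 ^ 2) = 0} := by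
    intro g
    have h1 := rel00 g
    rw [hab, hab, hab] at h1
    have h2 : star (el q (a g 0 0) (b g 0 0)) * el q (a g 2 0) (b g 2 0) +
        star (el q (a g 2 0) (b g 2 0)) * el q (a g 0 0) (b g 0 0) +
        star (el q (a g 1 0) (b g 1 0)) * el q (a g 1 0) (b g 1 0) = 0 := by
      rw [← h1]; ring
    rw [form_el, norm_el] at h2
    have h3 : ((2 * a g 2 0 + q.t * b g 2 0) * a g 0 0 +
        (q.t * a g 2 0 + 2 * q.n * b g 2 0) * b g 0 0) +
        (a g 1 0 ^ 2 + q.t * a g 1 0 * b g 1 0 + q.n * b g 1 0 ^ 2) = 0 := by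
      exact_mod_cast h2
    have h4 := congrArg (Int.cast : ℤ → ZMod n) h3
    push_cast at h4
    exact h4
  have key := index_le_of_map (PN q n) f _ hf (by
    intro g h hgh
    have e1 : (a g 0 0 : ZMod n) = a h 0 0 := congrArg (fun v => v.1.1) hgh
    have e2 : (b g 0 0 : ZMod n) = b h 0 0 := congrArg (fun v => v.1.2) hgh
    have e3 : (a g 1 0 : ZMod n) = a h 1 0 := congrArg (fun v => v.2.1.1) hgh
    have e4 : (b g 1 0 : ZMod n) = b h 1 0 := congrArg (fun v => v.2.1.2) hgh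
    have e5 : (a g 2 0 : ZMod n) = a h 2 0 := congrArg (fun v => v.2.2.1) hgh
    have e6 : (b g 2 0 : ZMod n) = b h 2 0 := congrArg (fun v => v.2.2.2) hgh
    have hd : ∀ k, mat h.1 k 0 - mat g.1 k 0 ∈ PO q (n : ℂ) := by
      intro k
      rw [hab, hab]
      fin_cases k
      · exact sub_mem_PO_of_cast e1.symm e2.symm
      · exact sub_mem_PO_of_cast e3.symm e4.symm
      · exact sub_mem_PO_of_cast e5.symm e6.symm
    intro i
    have h0 : mat (g⁻¹).1 * mat g.1 = 1 := by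
      rw [← Pool.Agent.Lib.H56.Picard.mat_mul]
      have : (g⁻¹).1 * g.1 = 1 := congrArg (fun x : Gam q => x.1) (inv_mul_cancel g)
      rw [this, Pool.Agent.Lib.H56.Picard.mat_one]
    have e7 : mat (g⁻¹ * h).1 i 0 - (1 : Matrix (Fin 3) (Fin 3) ℂ) i 0 =
        ∑ k, mat (g⁻¹).1 i k * (mat h.1 k 0 - mat g.1 k 0) := by
      have e8 : mat (g⁻¹ * h).1 i 0 = ∑ k, mat (g⁻¹).1 i k * mat h.1 k 0 := by
        rw [← Matrix.mul_apply]; rfl
      have e9 : (1 : Matrix (Fin 3) (Fin 3) ℂ) i 0 = ∑ k, mat (g⁻¹).1 i k * mat g.1 k 0 := by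
        rw [← Matrix.mul_apply, h0]
      rw [e8, e9]
      simp only [mul_sub, Finset.sum_sub_distrib]
    rw [e7]
    exact (PO q (n : ℂ)).sum_mem fun k _ => PO_mul_left ((g⁻¹).2 i k) (hd k))
  exact ⟨key.1.trans (iso_count n q.t q.n _ hD h0), key.2⟩

end Pool.Agent.Lib.H89D
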