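import Pool.Agent.Lib.H89D.I2D

/-!
# I2A: tools for the index
-/

namespace Pool.Agent.Lib.H89D

open Pool.Agent.Lib.H56.Gen
open Pool.Agent.Lib.H56.Picard (mat)

lemma index_le_of_map {G T : Type*} [Group G] [Finite T] (H : Subgroup G) (f : G → T) (S : Set T)
    (hf : ∀ g, f g ∈ S) (hinj : ∀ g h, f g = f h → g⁻¹ * h ∈ H) :
    H.index ≤ S.ncard ∧ H.index ≠ 0 := by
  have hi : Function.Injective (fun x : G ⧸ H => (⟨f x.out, hf _⟩ : S)) := by
    intro x y hxy
    have h1 : f x.out = f y.out := congrArg Subtype.val hxy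
    have h2 := hinj _ _ h1
    rw [← QuotientGroup.eq, QuotientGroup.out_eq', QuotientGroup.out_eq'] at h2
    exact h2
  have hfin : Finite (G ⧸ H) := Finite.of_injective _ hi
  refine ⟨?_, ?_⟩
  · rw [Subgroup.index, ← Nat.card_coe_set_eq]
    exact Nat.card_le_card_of_injective _ hi
  · have := Subgroup.finiteIndex_of_finite_quotient (H := H)
    exact this.index_ne_zero

variable {q : QD}

lemma star_mem_PO {n : ℕ} {z : ℂ} (hz : z ∈ PO q (n : ℂ)) : star z ∈ PO q (n : ℂ) := by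
  obtain ⟨x, hx, rfl⟩ := hz
  refine ⟨star x, star_mem x hx, ?_⟩
  rw [star_mul']
  simp

lemma el_mem_PO {n : ℕ} {a b : ℤ} (ha : (n : ℤ) ∣ a) (hb : (n : ℤ) ∣ b) :
    el q a b ∈ PO q (n : ℂ) := by
  obtain ⟨c, rfl⟩ := ha
  obtain ⟨d, rfl⟩ := hb
  refine ⟨el q c d, el_mem c d, ?_⟩
  apply Complex.ext <;> simp [el] <;> ring

lemma dvd_of_el_mem_PO {n : ℕ} {a b : ℤ} (h : el q a b ∈ PO q (n : ℂ)) :
    (n : ℤ) ∣ a ∧ (n : ℤ) ∣ b := by
  obtain ⟨x, ⟨c, d, rfl⟩, hx⟩ := h
  have h1 : (n : ℂ) * el q c d = el q (n * c) (n * d) := by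
    apply Complex.ext <;> simp [el] <;> ring
  rw [h1, el_inj] at hx
  exact ⟨⟨c, hx.1⟩, ⟨d, hx.2⟩⟩

lemma sub_mem_PO_of_cast {n : ℕ} {a b c d : ℤ} (h1 : (a : ZMod n) = c) (h2 : (b : ZMod n) = d) :
    el q a b - el q c d ∈ PO q (n : ℂ) := by
  rw [el_sub]
  apply el_mem_PO
  · rw [← ZMod.intCast_zmod_eq_zero_iff_dvd]
    push_cast
    rw [h1, sub_self]
  · rw [← ZMod.intCast_zmod_eq_zero_iff_dvd]
    push_cast
    rw [h2, sub_self]

/-! ### Relations between the entries -/

lemma rel00 (g : Gam q) : star (mat g.1 0 0) * mat g.1 2 0 + star (mat g.1 1 0) * mat g.1 1 0 +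
    star (mat g.1 2 0) * mat g.1 0 0 = 0 := by
  have h := congrFun (congrFun (Pool.Agent.Lib.H56.Picard.mat_unitary g.1) 0) 0
  simp [Matrix.mul_apply, Fin.sum_univ_three, Matrix.conjTranspose_apply,
    Pool.Agent.Lib.H56.Picard.J] at h
  simp only [Complex.star_def]
  linear_combination h

lemma rel01 (g : Gam q) : star (mat g.1 0 0) * mat g.1 2 1 + star (mat g.1 1 0) * mat g.1 1 1 +
    star (mat g.1 2 0) * mat g.1 0 1 = 0 := by
  have h := congrFun (congrFun (Pool.Agent.Lib.H56.Picard.mat_unitary g.1) 0) 1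
  simp [Matrix.mul_apply, Fin.sum_univ_three, Matrix.conjTranspose_apply,
    Pool.Agent.Lib.H56.Picard.J] at h
  simp only [Complex.star_def]
  linear_combination h

lemma rel02 (g : Gam q) : star (mat g.1 0 0) * mat g.1 2 2 + star (mat g.1 1 0) * mat g.1 1 2 +
    star (mat g.1 2 0) * mat g.1 0 2 = 1 := by
  have h := congrFun (congrFun (Pool.Agent.Lib.H56.Picard.mat_unitary g.1) 0) 2
  simp [Matrix.mul_apply, Fin.sum_univ_three, Matrix.conjTranspose_apply,
    Pool.Agent.Lib.H56.Picard.J] at h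
  simp only [Complex.star_def]
  linear_combination h

lemma rel12 (g : Gam q) : star (mat g.1 0 1) * mat g.1 2 2 + star (mat g.1 1 1) * mat g.1 1 2 +
    star (mat g.1 2 1) * mat g.1 0 2 = 0 := by
  have h := congrFun (congrFun (Pool.Agent.Lib.H56.Picard.mat_unitary g.1) 1) 2
  simp [Matrix.mul_apply, Fin.sum_univ_three, Matrix.conjTranspose_apply,
    Pool.Agent.Lib.H56.Picard.J] at h
  simp only [Complex.star_def]
  linear_combination h

lemma rel22 (g : Gam q) : star (mat g.1 0 2) * mat g.1 2 2 + star (mat g.1 1 2) * mat g.1 1 2 +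
    star (mat g.1 2 2) * mat g.1 0 2 = 0 := by
  have h := congrFun (congrFun (Pool.Agent.Lib.H56.Picard.mat_unitary g.1) 2) 2
  simp [Matrix.mul_apply, Fin.sum_univ_three, Matrix.conjTranspose_apply,
    Pool.Agent.Lib.H56.Picard.J] at h
  simp only [Complex.star_def]
  linear_combination h

lemma relD (g : Gam q) : mat g.1 0 0 * mat g.1 1 1 * mat g.1 2 2 -
    mat g.1 0 0 * mat g.1 1 2 * mat g.1 2 1 - mat g.1 0 1 * mat g.1 1 0 * mat g.1 2 2 +
    mat g.1 0 1 * mat g.1 1 2 * mat g.1 2 0 + mat g.1 0 2 * mat g.1 1 0 * mat g.1 2 1 -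
    mat g.1 0 2 * mat g.1 1 1 * mat g.1 2 0 = 1 := by
  have h := g.1.2.2
  rw [Matrix.det_fin_three] at h
  exact h

/-- The form in coordinates. -/
lemma form_el (a b c d : ℤ) : star (el q a b) * el q c d + star (el q c d) * el q a b =
    (((2 * c + q.t * d) * a + (q.t * c + 2 * q.n * d) * b : ℤ) : ℂ) := by
  have h := sd_sq' q
  apply Complex.ext
  · simp only [el, Complex.star_def, Complex.add_re, Complex.mul_re, Complex.conj_re,
      Complex.conj_im, Complex.intCast_re]
    push_cast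
    linear_combination ((b : ℝ) * d / 2) * h
  · simp only [el, Complex.star_def, Complex.add_im, Complex.mul_im, Complex.conj_re,
      Complex.conj_im, Complex.intCast_im]
    ring

lemma norm_el (a b : ℤ) : star (el q a b) * el q a b =
    ((a ^ 2 + q.t * a * b + q.n * b ^ 2 : ℤ) : ℂ) := by
  have h := sd_sq' q
  apply Complex.ext
  · simp only [el, Complex.star_def, Complex.mul_re, Complex.conj_re,
      Complex.conj_im, Complex.intCast_re]
    push_cast
    linear_combination ((b : ℝ) * b / 4) * h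
  · simp only [el, Complex.star_def, Complex.mul_im, Complex.conj_re,
      Complex.conj_im, Complex.intCast_im]
    ring

end Pool.Agent.Lib.H89D
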