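import Pool.Agent.Lib.H56.Gen.LevelData
import Pool.Agent.Lib.H56.Gen.LevelGroup

/-!
# I2D: an intermediate group
-/

namespace Pool.Agent.Lib.H89D

open Pool.Agent.Lib.H56.Gen
open Pool.Agent.Lib.H56.Picard (mat)

/-- The elements `γ` with `γ e₁ ≡ e₁` modulo `n`. -/
def PN (q : QD) (n : ℕ) : Subgroup (Gam q) where
  carrier := {γ | ∀ i, mat γ.1 i 0 - (1 : Matrix (Fin 3) (Fin 3) ℂ) i 0 ∈ PO q (n : ℂ)}
  mul_mem' := by
    intro a b ha hb i
    have e2 : mat (a * b).1 i 0 - (1 : Matrix (Fin 3) (Fin 3) ℂ) i 0 =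
        (∑ k, mat a.1 i k * (mat b.1 k 0 - (1 : Matrix (Fin 3) (Fin 3) ℂ) k 0)) +
          (mat a.1 i 0 - (1 : Matrix (Fin 3) (Fin 3) ℂ) i 0) := by
      have e3 : ∑ k, mat a.1 i k * (1 : Matrix (Fin 3) (Fin 3) ℂ) k 0 = mat a.1 i 0 := by
        rw [← Matrix.mul_apply, Matrix.mul_one]
      simp only [mul_sub, Finset.sum_sub_distrib, e3]
      have e4 : mat (a * b).1 i 0 = ∑ k, mat a.1 i k * mat b.1 k 0 := by
        rw [← Matrix.mul_apply]
        rfl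
      rw [e4]
      ring
    rw [e2]
    exact (PO q (n : ℂ)).add_mem ((PO q (n : ℂ)).sum_mem fun k _ => PO_mul_left (a.2 i k) (hb k))
      (ha i)
  one_mem' := by
    intro i
    have h1 : mat ((1 : Gam q)).1 = 1 := Pool.Agent.Lib.H56.Picard.mat_one
    rw [h1, sub_self]
    exact (PO q (n : ℂ)).zero_mem
  inv_mem' := by
    intro a ha i
    have h0 : mat (a⁻¹).1 * mat a.1 = 1 := by
      rw [← Pool.Agent.Lib.H56.Picard.mat_mul]
      have : (a⁻¹).1 * a.1 = 1 := by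
        have := congrArg (fun x : Gam q => x.1) (inv_mul_cancel a)
        exact this
      rw [this, Pool.Agent.Lib.H56.Picard.mat_one]
    have e2 : mat (a⁻¹).1 i 0 - (1 : Matrix (Fin 3) (Fin 3) ℂ) i 0 =
        -(∑ k, mat (a⁻¹).1 i k * (mat a.1 k 0 - (1 : Matrix (Fin 3) (Fin 3) ℂ) k 0)) := by
      have e3 : ∑ k, mat (a⁻¹).1 i k * (1 : Matrix (Fin 3) (Fin 3) ℂ) k 0 = mat (a⁻¹).1 i 0 := by
        rw [← Matrix.mul_apply, Matrix.mul_one]
      have e4 : ∑ k, mat (a⁻¹).1 i k * mat a.1 k 0 = (1 : Matrix (Fin 3) (Fin 3) ℂ) i 0 := by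
        rw [← Matrix.mul_apply, h0]
      simp only [mul_sub, Finset.sum_sub_distrib, e3, e4]
      ring
    rw [e2]
    exact (PO q (n : ℂ)).neg_mem ((PO q (n : ℂ)).sum_mem fun k _ =>
      PO_mul_left ((a⁻¹).2 i k) (ha k))

end Pool.Agent.Lib.H89D
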