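import Pool.Agent.Lib.H89D.Defs

/-!
# INJ: injectivity
-/

namespace Pool.Agent.Lib.H89D

/-- `M` is determined by `c ≠ 0`, `τ`, `w`, `b`, `a`.

PROOF. `star d * c = b * star c - w` gives `d`; `n ρ = c + star c` gives `ρ`; `c h = b d - ρ` gives
`h`; `e = n τ - a - h`; `n c f = d + star b + n a d` gives `f`; `n c k = b + star d + n b e` gives `k`;
`n η = h + star h` gives `η`; `g c = τ - η + a e` gives `g`. -/
theorem inj {n : ℕ} (hn : 1 ≤ n) {M M' : M3} {ρ η ρ' η' : ℤ} {τ : Zi}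
    (h : RelsM n M ρ η τ) (h' : RelsM n M' ρ' η' τ) (hc : M 2 0 = M' 2 0) (hc0 : M 2 0 ≠ 0)
    (hw : ww M = ww M') (hb : M 1 0 = M' 1 0) (ha : M 0 0 = M' 0 0) : M = M' := by
  have hn0 : (n : Zi) ≠ 0 := by
    have : n ≠ 0 := by omega
    exact_mod_cast this
  have hd : M 2 1 = M' 2 1 := by
    have h1 : star (M 2 1) * M 2 0 = star (M' 2 1) * M 2 0 := by
      have := hw
      unfold ww at this
      rw [← hc, ← hb] at this
      linear_combination -this
    have h2 := mul_right_cancel₀ hc0 h1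
    exact star_injective h2
  have hρ : ρ = ρ' := by
    have h1 : (n : Zi) * ρ = n * ρ' := by
      rw [← h.hc, ← h'.hc, hc]
    have h2 := mul_left_cancel₀ hn0 h1
    exact_mod_cast h2
  have hh : M 1 1 = M' 1 1 := by
    have h1 := h.hρ
    have h2 := h'.hρ
    rw [← hb, ← hd, ← hc, ← hρ] at h2
    have h3 : M 2 0 * M 1 1 = M 2 0 * M' 1 1 := by linear_combination h2 - h1
    exact mul_left_cancel₀ hc0 h3
  have he : M 2 2 = M' 2 2 := by
    have h1 := h.hτ
    have h2 := h'.hτ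
    rw [← hh, ← ha] at h2
    linear_combination h1 - h2
  have hf : M 0 1 = M' 0 1 := by
    have h1 := h.hf
    have h2 := h'.hf
    rw [← hd, ← hb, ← hc, ← ha] at h2
    have h3 : (n : Zi) * M 2 0 * M 0 1 = n * M 2 0 * M' 0 1 := by rw [← h1, ← h2]
    exact mul_left_cancel₀ (mul_ne_zero hn0 hc0) h3
  have hk : M 1 2 = M' 1 2 := by
    have h1 := h.hk
    have h2 := h'.hk
    rw [← hd, ← hb, ← hc, ← he] at h2
    have h3 : (n : Zi) * M 2 0 * M 1 2 = n * M 2 0 * M' 1 2 := by rw [← h1, ← h2]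
    exact mul_left_cancel₀ (mul_ne_zero hn0 hc0) h3
  have hη : η = η' := by
    have h1 : (n : Zi) * η = n * η' := by
      rw [← h.hη, ← h'.hη, hh]
    have h2 := mul_left_cancel₀ hn0 h1
    exact_mod_cast h2
  have hg : M 0 2 = M' 0 2 := by
    have h1 := h.hg
    have h2 := h'.hg
    rw [← hc, ← hη, ← ha, ← he] at h2
    exact mul_right_cancel₀ hc0 (h1.trans h2.symm)
  refine Matrix.ext fun i j => ?_
  fin_cases i <;> fin_cases j
  · exact ha
  · exact hf
  · exact hg
  · exact hb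
  · exact hh
  · exact hk
  · exact hc
  · exact hd
  · exact he

end Pool.Agent.Lib.H89D
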