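import Pool.Agent.Lib.H89D.Defs

/-!
# TC: the number of `τ`
-/

namespace Pool.Agent.Lib.H89D

/-- The possible values of `τ`. -/
def TT (n : ℕ) (X : ℝ) : Set Zi := {τ | (n : ℝ) ^ 2 * ab τ ≤ 6 * X ∧ ∃ m : ℤ, 2 * τ.im = n * m}

/-- PROOF. `3 + n² τ` is the sum of the diagonal entries of `1 + n M` (`hτ`), so
`n² ab τ ≤ 3 X + 3 ≤ 6 X`; `hi`: `2 i Im τ = n m`. -/
theorem mem_TT {n : ℕ} {X : ℝ} (hX : 1 ≤ X) {M : M3} {ρ η : ℤ} {τ : Zi}
    (h : RelsM n M ρ η τ) (hB : Bdd n X M) : τ ∈ TT n X := by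
  refine ⟨?_, ?_⟩
  · have h1 : (n : Zi) ^ 2 * τ = ((1 + (n : Zi) • M) 0 0 + (1 + (n : Zi) • M) 1 1) +
        (1 + (n : Zi) • M) 2 2 - 3 := by
      simp only [Matrix.add_apply, Matrix.one_apply_eq, Matrix.smul_apply, smul_eq_mul]
      have := h.hτ
      linear_combination (-(n : Zi)) * this
    have h2 : (n : ℝ) ^ 2 * ab τ = ab ((n : Zi) ^ 2 * τ) := by
      rw [ab_mul, sq (n : Zi), ab_mul, ab_natCast]; ring
    rw [h2, h1]
    have h3 := ab_sub_le ((1 + (n : Zi) • M) 0 0 + (1 + (n : Zi) • M) 1 1 +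
      (1 + (n : Zi) • M) 2 2) 3
    have h4 := ab_add_le ((1 + (n : Zi) • M) 0 0 + (1 + (n : Zi) • M) 1 1)
      ((1 + (n : Zi) • M) 2 2)
    have h5 := ab_add_le ((1 + (n : Zi) • M) 0 0) ((1 + (n : Zi) • M) 1 1)
    have h6 := hB 0 0
    have h7 := hB 1 1
    have h8 := hB 2 2
    have h9 : ab (3 : Zi) = 3 := by
      have := ab_natCast 3
      exact_mod_cast this
    linarith
  · obtain ⟨m, hm⟩ := h.hi
    refine ⟨m.im, ?_⟩
    have h1 := congrArg Zsqrtd.im hm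
    simp at h1
    linarith

/-- PROOF. `|Re τ| ≤ 6 X / n²`; `2 Im τ = n m`, `|m| ≤ 12 X / n³`; an interval `[-Y, Y]` contains at
most `2 Y + 1` integers. -/
theorem tau_count (n : ℕ) (X : ℝ) (hn : 1 ≤ n) (hX : 1 ≤ X) :
    (TT n X).Finite ∧
      ((TT n X).ncard : ℝ) ≤ (1 + 12 * X / (n : ℝ) ^ 2) * (1 + 24 * X / (n : ℝ) ^ 3) := by
  have hn1 : (1:ℝ) ≤ n := by exact_mod_cast hn
  have hn0 : (0:ℝ) < n := by linarith
  set Y1 : ℝ := 6 * X / (n : ℝ) ^ 2 with hY1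
  set Y2 : ℝ := 12 * X / (n : ℝ) ^ 3 with hY2
  have hY1p : 0 ≤ Y1 := by positivity
  have hY2p : 0 ≤ Y2 := by positivity
  let B : Finset (ℤ × ℤ) := Finset.Icc (-⌊Y1⌋) ⌊Y1⌋ ×ˢ Finset.Icc (-⌊Y2⌋) ⌊Y2⌋
  let φ : ℤ × ℤ → Zi := fun p => ⟨p.1, (n : ℤ) * p.2 / 2⟩
  have habs : ∀ (k : ℤ) (Y : ℝ), |(k : ℝ)| ≤ Y → k ∈ Finset.Icc (-⌊Y⌋) ⌊Y⌋ := by
    intro k Y hk
    have h1 := abs_le.1 hk
    rw [Finset.mem_Icc]
    refine ⟨?_, Int.le_floor.2 h1.2⟩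
    have h2 : -k ≤ ⌊Y⌋ := Int.le_floor.2 (by push_cast; linarith)
    linarith
  have hsub : TT n X ⊆ ((B.image φ : Finset Zi) : Set Zi) := by
    rintro τ ⟨h1, m, hm⟩
    rw [Finset.coe_image]
    refine ⟨(τ.re, m), ?_, ?_⟩
    · have h2 : ab τ ≤ Y1 := by
        rw [hY1, le_div_iff₀ (by positivity)]
        linarith
      have h3 : |(τ.re : ℝ)| ≤ Y1 := (abs_re_le τ).trans h2
      have h4 : |(m : ℝ)| ≤ Y2 := by
        have h5 := (abs_im_le τ).trans h2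
        have h6 : (2 : ℝ) * τ.im = n * m := by exact_mod_cast hm
        have h7 : (n : ℝ) * |(m : ℝ)| = 2 * |(τ.im : ℝ)| := by
          rw [← abs_of_pos hn0, ← abs_mul, ← h6, abs_mul]
          norm_num
        have h8 : (n : ℝ) * |(m : ℝ)| ≤ 12 * X / (n : ℝ) ^ 2 := by
          rw [h7, show 12 * X / (n : ℝ) ^ 2 = 2 * Y1 by rw [hY1]; ring]
          linarith
        rw [hY2, le_div_iff₀ (by positivity)]
        rw [le_div_iff₀ (by positivity)] at h8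
        nlinarith
      exact Finset.mem_coe.2 (Finset.mem_product.2 ⟨habs _ _ h3, habs _ _ h4⟩)
    · apply Zsqrtd.ext
      · rfl
      · change (n : ℤ) * m / 2 = τ.im
        rw [← hm]
        exact Int.mul_ediv_cancel_left _ (by norm_num)
  have hfin : (TT n X).Finite := (Finset.finite_toSet _).subset hsub
  refine ⟨hfin, ?_⟩
  have h1 : (TT n X).ncard ≤ B.card := by
    refine (Set.ncard_le_ncard hsub (Finset.finite_toSet _)).trans ?_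
    rw [Set.ncard_coe_finset]
    exact Finset.card_image_le
  have hcard : ∀ Y : ℝ, 0 ≤ Y → ((Finset.Icc (-⌊Y⌋) ⌊Y⌋).card : ℝ) ≤ 1 + 2 * Y := by
    intro Y hY
    rw [Int.card_Icc]
    have h2 : 0 ≤ ⌊Y⌋ := Int.floor_nonneg.2 hY
    have h3 : (((⌊Y⌋ + 1 - -⌊Y⌋).toNat : ℤ) : ℝ) = 2 * (⌊Y⌋ : ℝ) + 1 := by
      rw [Int.toNat_of_nonneg (by linarith)]
      push_cast; ring
    have h4 : (((⌊Y⌋ + 1 - -⌊Y⌋).toNat : ℕ) : ℝ) = 2 * (⌊Y⌋ : ℝ) + 1 := by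
      rw [← h3]; norm_cast
    rw [h4]
    have := Int.floor_le Y
    linarith
  have h2 : ((TT n X).ncard : ℝ) ≤ (B.card : ℝ) := by exact_mod_cast h1
  refine h2.trans ?_
  rw [Finset.card_product, Nat.cast_mul]
  have e1 : 1 + 12 * X / (n : ℝ) ^ 2 = 1 + 2 * Y1 := by rw [hY1]; ring
  have e2 : 1 + 24 * X / (n : ℝ) ^ 3 = 1 + 2 * Y2 := by rw [hY2]; ring
  rw [e1, e2]
  exact mul_le_mul (hcard _ hY1p) (hcard _ hY2p) (by positivity) (by positivity)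

end Pool.Agent.Lib.H89D
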