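import Pool.Agent.Lib.H89D.FB
import Pool.Agent.Lib.H89D.WC
import Pool.Agent.Lib.H89D.TC
import Pool.Agent.Lib.H89D.INJ
import Pool.Agent.Lib.H89D.CS4

/-!
# N1: the number of elements of `S1`
-/

namespace Pool.Agent.Lib.H89D

/-- a set as a finset, when it is finite -/
noncomputable def N1_fs {α : Type} (s : Set α) : Finset α := by
  classical exact if h : s.Finite then h.toFinset else ∅

lemma N1_mem {α : Type} {s : Set α} (h : s.Finite) (x : α) : x ∈ N1_fs s ↔ x ∈ s := by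
  unfold N1_fs
  rw [dif_pos h, Set.Finite.mem_toFinset]

lemma N1_card {α : Type} {s : Set α} (h : s.Finite) : (N1_fs s).card = s.ncard := by
  unfold N1_fs
  rw [dif_pos h, Set.ncard_eq_toFinset_card _ h]

lemma N1_rho {n : ℕ} (hn : 1 ≤ n) {c : Zi} {ρ : ℤ} (h : c + star c = n * ρ) :
    2 * c.re = n * ρ ∧ rhoC n c = ρ.natAbs := by
  have h1 : 2 * c.re = n * ρ := by
    have := congrArg Zsqrtd.re h
    simp [Zsqrtd.re_star] at this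
    linarith
  refine ⟨h1, ?_⟩
  unfold rhoC
  rw [h1, Int.mul_ediv_cancel_left _ (by omega)]

/-- the inequality at the end -/
lemma N1_ineq {n : ℕ} (hn : 1 ≤ n) {X : ℝ} (hX : 1 ≤ X) (h : (n : ℝ) ^ 2 ≤ 2 * X) :
    (1 + 12 * X / (n : ℝ) ^ 2) * (1 + 24 * X / (n : ℝ) ^ 3) * (X ^ 2 / (n : ℝ) ^ 3) ≤
      350 * (X ^ 2 + X ^ 4 / (n : ℝ) ^ 8) := by
  have hn1 : (1 : ℝ) ≤ n := by exact_mod_cast hn
  have hn0 : (0 : ℝ) < n := by linarith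
  have hX0 : 0 < X := by linarith
  have h1 : 1 + 12 * X / (n : ℝ) ^ 2 ≤ 14 * X / (n : ℝ) ^ 2 := by
    have : 1 ≤ 2 * X / (n : ℝ) ^ 2 := by
      rw [le_div_iff₀ (by positivity)]; linarith
    have e : 14 * X / (n : ℝ) ^ 2 = 2 * X / (n : ℝ) ^ 2 + 12 * X / (n : ℝ) ^ 2 := by ring
    rw [e]; linarith
  have h2 : X ^ 3 / (n : ℝ) ^ 5 ≤ X ^ 2 + X ^ 4 / (n : ℝ) ^ 8 := by
    by_cases hc : X ≤ (n : ℝ) ^ 5
    · have : X ^ 3 / (n : ℝ) ^ 5 ≤ X ^ 2 := by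
        rw [div_le_iff₀ (by positivity)]
        nlinarith [pow_pos hX0 2]
      have h0 : 0 ≤ X ^ 4 / (n : ℝ) ^ 8 := by positivity
      linarith
    · push Not at hc
      have hn3 : (n : ℝ) ^ 3 ≤ X := by
        have : (n : ℝ) ^ 3 ≤ (n : ℝ) ^ 5 := pow_le_pow_right₀ hn1 (by norm_num)
        linarith
      have : X ^ 3 / (n : ℝ) ^ 5 ≤ X ^ 4 / (n : ℝ) ^ 8 := by
        rw [div_le_div_iff₀ (by positivity) (by positivity)]
        have e : X ^ 3 * (n : ℝ) ^ 8 = X ^ 3 * (n : ℝ) ^ 5 * (n : ℝ) ^ 3 := by ring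
        have e' : X ^ 4 * (n : ℝ) ^ 5 = X ^ 3 * (n : ℝ) ^ 5 * X := by ring
        rw [e, e']
        exact mul_le_mul_of_nonneg_left hn3 (by positivity)
      have h0 : 0 ≤ X ^ 2 := by positivity
      linarith
  calc (1 + 12 * X / (n : ℝ) ^ 2) * (1 + 24 * X / (n : ℝ) ^ 3) * (X ^ 2 / (n : ℝ) ^ 3)
      ≤ (14 * X / (n : ℝ) ^ 2) * (1 + 24 * X / (n : ℝ) ^ 3) * (X ^ 2 / (n : ℝ) ^ 3) := by
        apply mul_le_mul_of_nonneg_right _ (by positivity)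
        apply mul_le_mul_of_nonneg_right h1 (by positivity)
    _ = 14 * (X ^ 3 / (n : ℝ) ^ 5) + 336 * (X ^ 4 / (n : ℝ) ^ 8) := by
        field_simp
        ring
    _ ≤ 350 * (X ^ 2 + X ^ 4 / (n : ℝ) ^ 8) := by
        have h0 : 0 ≤ X ^ 2 := by positivity
        linarith

/-- The number of elements of `S1 n X`.

PROOF. `M ↦ (c, τ, w, (b, a))` is injective on `S1 n X` (`inj`, `sizes`: `c ≠ 0`), with
`c ∈ CC n X` (`hc`, `Bdd`), `τ ∈ TT n X` (`mem_TT`), `w` in the set of `w_count` and `(b, a)` in the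
set of `fib`. So the number is at most
`∑_{c ∈ CC n X} |TT n X| C₁ X ^ δ C₂ (ct c) ^ (1 + δ) RS (ct c) |ρ| (X / (n ab c))
 ≤ C X ^ (3 δ) (1 + 12 X / n²) (1 + 24 X / n³) X² / n³` by `csum` (with `δ = ε / 3`).
If `S1 n X` is not empty then `n ≤ X` and, because `n |ρ| / 2 = |Re c| ≤ ab c ≤ X / n`, `n² ≤ 2 X`;
so `1 + 12 X / n² ≤ 14 X / n²` and the bound is at most
`C X ^ ε (14 X³ / n⁵ + 336 X⁴ / n⁸)`; and `X³ / n⁵ ≤ X² + X⁴ / n⁸` (cases `X ≤ n⁵`, `X > n⁵`). -/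
theorem s1_count {ε : ℝ} (hε : 0 < ε) : ∃ C : ℝ, 0 < C ∧ ∀ n : ℕ, 1 ≤ n → ∀ X : ℝ, 1 ≤ X →
    (S1 n X).Finite ∧
      ((S1 n X).ncard : ℝ) ≤ C * X ^ ε * (X ^ 2 + X ^ 4 / (n : ℝ) ^ 8) := by
  classical
  obtain ⟨C1, hC1, H1⟩ := w_count (ε := ε / 3) (by positivity)
  obtain ⟨C2, hC2, H2⟩ := fib (ε := ε / 3) (by positivity)
  obtain ⟨C3, hC3, H3⟩ := csum (ε := ε / 3) (by positivity)
  refine ⟨C1 * C2 * C3 * 350, by positivity, ?_⟩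
  intro n hn X hX
  have hX0 : 0 < X := by linarith
  have hn1 : (1 : ℝ) ≤ n := by exact_mod_cast hn
  by_cases hemp : S1 n X = ∅
  · rw [hemp]
    refine ⟨Set.finite_empty, ?_⟩
    rw [Set.ncard_empty, Nat.cast_zero]
    positivity
  obtain ⟨M0, hM0⟩ := Set.nonempty_iff_ne_empty.2 hemp
  -- sizes of `n`
  have hsz : (n : ℝ) ≤ X ∧ (n : ℝ) ^ 2 ≤ 2 * X := by
    obtain ⟨⟨⟨ρ, η, τ, hR, hρ⟩, hB⟩, hab⟩ := hM0
    obtain ⟨s1, s2, -, -⟩ := sizes hn hX hR hρ hB hab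
    have hone := one_le_ab s1
    refine ⟨?_, ?_⟩
    · nlinarith
    · obtain ⟨r1, -⟩ := N1_rho hn hR.hc
      have r2 : (2 : ℝ) * ((M0 2 0).re : ℝ) = n * ρ := by exact_mod_cast r1
      have r3 : (1 : ℝ) ≤ |(ρ : ℝ)| := by
        have : (1 : ℤ) ≤ |ρ| := Int.one_le_abs hρ
        exact_mod_cast this
      have r4 : (n : ℝ) * |(ρ : ℝ)| = 2 * |((M0 2 0).re : ℝ)| := by
        have := congrArg abs r2
        rw [abs_mul, abs_mul, abs_two, Nat.abs_cast] at this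
        linarith
      have r5 := abs_re_le (M0 2 0)
      nlinarith
  -- the finsets
  set Cs := N1_fs (CC n X) with hCs
  set Ts := N1_fs (TT n X) with hTs
  have hCf := finite_CC n hn X
  obtain ⟨hTf, hTc⟩ := tau_count n X hn hX
  let Ws : Zi → Zi → Finset Zi := fun c τ => N1_fs {w : Zi | ∃ b a, PP n X c τ w b a}
  let Ps : Zi → Zi → Zi → Finset (Zi × Zi) := fun c τ w =>
    N1_fs {p : Zi × Zi | PP n X c τ w p.1 p.2}
  let T : Finset ((_ : Zi) × (_ : Zi) × (_ : Zi) × (Zi × Zi)) :=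
    Cs.sigma (fun c => Ts.sigma (fun τ => (Ws c τ).sigma (fun w => Ps c τ w)))
  let φ : M3 → ((_ : Zi) × (_ : Zi) × (_ : Zi) × (Zi × Zi)) := fun M =>
    ⟨M 2 0, if h : ∃ τ, ∃ ρ η, RelsM n M ρ η τ ∧ ρ ≠ 0 then h.choose else 0, ww M,
      (M 1 0, M 0 0)⟩
  have hτ : ∀ M ∈ S1 n X, ∃ τ ρ η, RelsM n M ρ η τ ∧ ρ ≠ 0 ∧
      (if h : ∃ τ, ∃ ρ η, RelsM n M ρ η τ ∧ ρ ≠ 0 then h.choose else 0) = τ := by
    intro M hM
    obtain ⟨⟨⟨ρ, η, τ, hR, hρ⟩, hB⟩, hab⟩ := hM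
    have h : ∃ τ, ∃ ρ η, RelsM n M ρ η τ ∧ ρ ≠ 0 := ⟨τ, ρ, η, hR, hρ⟩
    obtain ⟨ρ', η', hR', hρ'⟩ := h.choose_spec
    exact ⟨h.choose, ρ', η', hR', hρ', dif_pos h⟩
  have hmaps : ∀ M ∈ S1 n X, φ M ∈ T := by
    intro M hM
    obtain ⟨τ, ρ, η, hR, hρ, hτe⟩ := hτ M hM
    obtain ⟨⟨-, hB⟩, hab⟩ := hM
    obtain ⟨s1, s2, -, -⟩ := sizes hn hX hR hρ hB hab
    have hPP : PP n X (M 2 0) τ (ww M) (M 1 0) (M 0 0) :=
      ⟨M, ρ, η, hR, hρ, hB, hab, rfl, rfl, rfl, rfl⟩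
    change (⟨M 2 0, if h : ∃ τ, ∃ ρ η, RelsM n M ρ η τ ∧ ρ ≠ 0 then h.choose else 0, ww M,
      (M 1 0, M 0 0)⟩ : ((_ : Zi) × (_ : Zi) × (_ : Zi) × (Zi × Zi))) ∈ T
    rw [hτe]
    simp only [T, Finset.mem_sigma]
    refine ⟨?_, ?_, ?_, ?_⟩
    · rw [hCs, N1_mem hCf]
      exact ⟨⟨ρ, hρ, hR.hc⟩, s2⟩
    · rw [hTs, N1_mem hTf]
      exact mem_TT hX hR hB
    · exact (N1_mem (H1 n X hn hX _ _).1 _).2 ⟨_, _, hPP⟩
    · exact (N1_mem (H2 n X hn hX _ _ _ ρ hR.hc).1 _).2 hPP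
  have hinj : Set.InjOn φ (S1 n X) := by
    intro M hM M' hM' hMM
    obtain ⟨τ, ρ, η, hR, hρ, hτe⟩ := hτ M hM
    obtain ⟨τ', ρ', η', hR', hρ', hτe'⟩ := hτ M' hM'
    obtain ⟨⟨-, hB⟩, hab⟩ := hM
    obtain ⟨s1, -, -, -⟩ := sizes hn hX hR hρ hB hab
    have hMM2 : (⟨M 2 0, if h : ∃ τ, ∃ ρ η, RelsM n M ρ η τ ∧ ρ ≠ 0 then h.choose else 0, ww M,
      (M 1 0, M 0 0)⟩ : ((_ : Zi) × (_ : Zi) × (_ : Zi) × (Zi × Zi))) =
      ⟨M' 2 0, if h : ∃ τ, ∃ ρ η, RelsM n M' ρ η τ ∧ ρ ≠ 0 then h.choose else 0, ww M',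
      (M' 1 0, M' 0 0)⟩ := hMM
    rw [hτe, hτe'] at hMM2
    obtain ⟨q1, q2⟩ := Sigma.mk.inj hMM2
    obtain ⟨q3, q4⟩ := Sigma.mk.inj (eq_of_heq q2)
    obtain ⟨q5, q6⟩ := Sigma.mk.inj (eq_of_heq q4)
    obtain ⟨q7, q8⟩ := Prod.mk.inj (eq_of_heq q6)
    subst q3
    exact inj hn hR hR' q1 s1 q5 q7 q8
  have hfin : (S1 n X).Finite :=
    Set.Finite.of_injOn (t := (T : Set _)) (fun M hM => Finset.mem_coe.2 (hmaps M hM)) hinj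
      T.finite_toSet
  refine ⟨hfin, ?_⟩
  have hcard : (S1 n X).ncard ≤ T.card := by
    rw [← Set.ncard_coe_finset T]
    exact Set.ncard_le_ncard_of_injOn φ (fun M hM => Finset.mem_coe.2 (hmaps M hM)) hinj
      T.finite_toSet
  -- the sum
  have hsum : (T.card : ℝ) ≤ ∑ c ∈ Cs, (Ts.card : ℝ) * (C1 * X ^ (ε / 3) *
      (C2 * ((ct c : ℝ) ^ (1 + ε / 3) * RS (ct c) (rhoC n c) * (X / (n * ab c))))) := by
    simp only [T, Finset.card_sigma]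
    push_cast
    apply Finset.sum_le_sum
    intro c hc
    rw [hCs, N1_mem hCf] at hc
    obtain ⟨⟨ρ, hρ, hcρ⟩, hcX⟩ := hc
    obtain ⟨-, hrho⟩ := N1_rho hn hcρ
    rw [← nsmul_eq_mul, ← Finset.sum_const]
    apply Finset.sum_le_sum
    intro τ _
    obtain ⟨w1, w2⟩ := H1 n X hn hX c τ
    have hw : ∀ w ∈ Ws c τ, ((Ps c τ w).card : ℝ) ≤
        C2 * ((ct c : ℝ) ^ (1 + ε / 3) * RS (ct c) (rhoC n c) * (X / (n * ab c))) := by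
      intro w _
      obtain ⟨f1, f2⟩ := H2 n X hn hX c τ w ρ hcρ
      change ((N1_fs {p : Zi × Zi | PP n X c τ w p.1 p.2}).card : ℝ) ≤ _
      rw [N1_card f1, hrho]
      calc _ ≤ _ := f2
        _ = _ := by ring
    have hnn : 0 ≤ C2 * ((ct c : ℝ) ^ (1 + ε / 3) * RS (ct c) (rhoC n c) * (X / (n * ab c))) := by
      have := ab_nonneg c
      positivity
    calc ∑ w ∈ Ws c τ, ((Ps c τ w).card : ℝ)
        ≤ ∑ _w ∈ Ws c τ,
          C2 * ((ct c : ℝ) ^ (1 + ε / 3) * RS (ct c) (rhoC n c) * (X / (n * ab c))) :=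
          Finset.sum_le_sum hw
      _ = ((Ws c τ).card : ℝ) *
          (C2 * ((ct c : ℝ) ^ (1 + ε / 3) * RS (ct c) (rhoC n c) * (X / (n * ab c)))) := by
          rw [Finset.sum_const, nsmul_eq_mul]
      _ ≤ C1 * X ^ (ε / 3) *
          (C2 * ((ct c : ℝ) ^ (1 + ε / 3) * RS (ct c) (rhoC n c) * (X / (n * ab c)))) := by
          apply mul_le_mul_of_nonneg_right _ hnn
          change ((N1_fs {w : Zi | ∃ b a, PP n X c τ w b a}).card : ℝ) ≤ _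
          rw [N1_card w1]
          exact w2
  have hsum2 : (T.card : ℝ) ≤ (Ts.card : ℝ) * C1 * X ^ (ε / 3) * C2 *
      (C3 * X ^ (2 * (ε / 3)) * (X ^ 2 / (n : ℝ) ^ 3)) := by
    refine hsum.trans ?_
    have e : ∑ c ∈ Cs, (Ts.card : ℝ) * (C1 * X ^ (ε / 3) *
      (C2 * ((ct c : ℝ) ^ (1 + ε / 3) * RS (ct c) (rhoC n c) * (X / (n * ab c))))) =
      (Ts.card : ℝ) * C1 * X ^ (ε / 3) * C2 *
        ∑ c ∈ Cs, (ct c : ℝ) ^ (1 + ε / 3) * RS (ct c) (rhoC n c) * (X / (n * ab c)) := by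
      rw [Finset.mul_sum]
      apply Finset.sum_congr rfl
      intro c _
      ring
    rw [e]
    apply mul_le_mul_of_nonneg_left _ (by positivity)
    apply H3 n hn X hsz.1 Cs
    intro c hc
    rwa [hCs, N1_mem hCf] at hc
  have hTcard : (Ts.card : ℝ) ≤ (1 + 12 * X / (n : ℝ) ^ 2) * (1 + 24 * X / (n : ℝ) ^ 3) := by
    rw [hTs, N1_card hTf]; exact hTc
  have hpow : X ^ (ε / 3) * X ^ (2 * (ε / 3)) = X ^ ε := by
    rw [← Real.rpow_add hX0]; congr 1; ring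
  have hfinal := N1_ineq hn hX hsz.2
  have hc' : ((S1 n X).ncard : ℝ) ≤ (T.card : ℝ) := by exact_mod_cast hcard
  calc ((S1 n X).ncard : ℝ) ≤ (T.card : ℝ) := hc'
    _ ≤ (Ts.card : ℝ) * C1 * X ^ (ε / 3) * C2 *
      (C3 * X ^ (2 * (ε / 3)) * (X ^ 2 / (n : ℝ) ^ 3)) := hsum2
    _ = (C1 * C2 * C3 * (X ^ (ε / 3) * X ^ (2 * (ε / 3)))) *
        ((Ts.card : ℝ) * (X ^ 2 / (n : ℝ) ^ 3)) := by ring
    _ ≤ (C1 * C2 * C3 * (X ^ (ε / 3) * X ^ (2 * (ε / 3)))) *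
        (350 * (X ^ 2 + X ^ 4 / (n : ℝ) ^ 8)) := by
        apply mul_le_mul_of_nonneg_left _ (by positivity)
        refine le_trans ?_ hfinal
        apply mul_le_mul_of_nonneg_right hTcard (by positivity)
    _ = C1 * C2 * C3 * 350 * X ^ ε * (X ^ 2 + X ^ 4 / (n : ℝ) ^ 8) := by
        rw [hpow]; ring

end Pool.Agent.Lib.H89D
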