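import Pool.Agent.Lib.H89D.Defs

/-!
# R2A: primitive Gaussian integers of given norm
-/

namespace Pool.Agent.Lib.H89D

lemma R2A_finite (R : ℤ) : {w : Zi | w.norm = R}.Finite := by
  have h : {w : Zi | w.norm = R} ⊆ (fun p : ℤ × ℤ => (⟨p.1, p.2⟩ : Zi)) ''
      ((Set.Icc (-|R|) |R|) ×ˢ (Set.Icc (-|R|) |R|)) := by
    intro w hw
    have h1 : w.re ^ 2 + w.im ^ 2 = R := by
      have : w.norm = R := hw
      rw [Zsqrtd.norm_def] at this
      linarith
    have h2 : |w.re| ≤ |R| := by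
      have := Int.natAbs_le_self_sq w.re
      rw [Int.natCast_natAbs] at this
      have h3 := le_abs_self R
      nlinarith [sq_nonneg w.im]
    have h3 : |w.im| ≤ |R| := by
      have := Int.natAbs_le_self_sq w.im
      rw [Int.natCast_natAbs] at this
      have h3 := le_abs_self R
      nlinarith [sq_nonneg w.re]
    exact ⟨(w.re, w.im), ⟨⟨(abs_le.1 h2).1, (abs_le.1 h2).2⟩, ⟨(abs_le.1 h3).1, (abs_le.1 h3).2⟩⟩, rfl⟩
  exact (((Set.finite_Icc _ _).prod (Set.finite_Icc _ _)).image _).subset h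

lemma R2A_units (u : Zi) (hu : u.norm = 1) :
    u ∈ ({1, -1, ⟨0, 1⟩, ⟨0, -1⟩} : Finset Zi) := by
  rw [Zsqrtd.norm_def] at hu
  obtain ⟨x, y⟩ := u
  simp only at hu
  have hx : -1 ≤ x ∧ x ≤ 1 := by constructor <;> nlinarith [mul_self_nonneg y, mul_self_nonneg x]
  have hy : -1 ≤ y ∧ y ≤ 1 := by constructor <;> nlinarith [mul_self_nonneg y, mul_self_nonneg x]
  obtain ⟨hx1, hx2⟩ := hx
  obtain ⟨hy1, hy2⟩ := hy
  interval_cases x <;> interval_cases y <;> simp_all <;> decide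

lemma R2A_y_unit (m : ℕ) (w : Zi) (hw : w.norm = m) (hc : ct w = 1) :
    IsUnit ((w.im : ℤ) : ZMod m) := by
  rw [ZMod.coe_int_isUnit_iff_isCoprime]
  have h1 : IsCoprime w.re w.im := Int.isCoprime_iff_gcd_eq_one.2 hc
  rw [Zsqrtd.norm_def] at hw
  have h2 : (m : ℤ) = w.re * w.re + w.im * w.im := by linarith
  rw [h2]
  exact (h1.mul_left h1).add_mul_left_left w.im

/-- The ratio of the real and the imaginary part modulo `m`. -/
def R2A_s (m : ℕ) (w : Zi) : ZMod m := (w.re : ZMod m) * (w.im : ZMod m)⁻¹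

lemma R2A_s_spec (m : ℕ) (w : Zi) (hw : w.norm = m) (hc : ct w = 1) :
    R2A_s m w * (w.im : ZMod m) = (w.re : ZMod m) := by
  unfold R2A_s
  rw [mul_assoc, ZMod.inv_mul_of_unit _ (R2A_y_unit m w hw hc), mul_one]

lemma R2A_norm_cast (m : ℕ) (w : Zi) (hw : w.norm = m) :
    (w.re : ZMod m) * (w.re : ZMod m) + (w.im : ZMod m) * (w.im : ZMod m) = 0 := by
  rw [Zsqrtd.norm_def] at hw
  have h2 : w.re * w.re + w.im * w.im = (m : ℤ) := by linarith
  have h3 : ((w.re * w.re + w.im * w.im : ℤ) : ZMod m) = ((m : ℤ) : ZMod m) := by rw [h2]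
  push_cast at h3
  rw [h3]
  simp

lemma R2A_s_sq (m : ℕ) (w : Zi) (hw : w.norm = m) (hc : ct w = 1) :
    R2A_s m w * R2A_s m w = -1 := by
  have h1 := R2A_s_spec m w hw hc
  have h2 := R2A_norm_cast m w hw
  have h3 := R2A_y_unit m w hw hc
  have h4 : (R2A_s m w * R2A_s m w + 1) * ((w.im : ZMod m) * (w.im : ZMod m)) = 0 := by
    rw [← h2, ← h1]
    ring
  have h5 := ((h3.mul h3).mul_left_eq_zero).1 h4
  exact eq_neg_of_add_eq_zero_left h5

lemma R2A_same (m : ℕ) (hm : 1 ≤ m) (w w' : Zi) (hw : w.norm = m) (hc : ct w = 1)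
    (hw' : w'.norm = m) (hc' : ct w' = 1) (hs : R2A_s m w = R2A_s m w') :
    ∃ u : Zi, u.norm = 1 ∧ w' = u * w := by
  have h1 := R2A_s_spec m w hw hc
  have h1' := R2A_s_spec m w' hw' hc'
  rw [← hs] at h1'
  have hsq := R2A_s_sq m w hw hc
  have hre : ((w'.re * w.re + w'.im * w.im : ℤ) : ZMod m) = 0 := by
    push_cast
    rw [← h1, ← h1']
    linear_combination ((w.im : ZMod m) * (w'.im : ZMod m)) * hsq
  have him : ((w'.im * w.re - w'.re * w.im : ℤ) : ZMod m) = 0 := by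
    push_cast
    rw [← h1, ← h1']
    ring
  rw [ZMod.intCast_zmod_eq_zero_iff_dvd] at hre him
  obtain ⟨p, hp⟩ := hre
  obtain ⟨q, hq⟩ := him
  have hmul : w' * star w = (m : Zi) * ⟨p, q⟩ := by
    apply Zsqrtd.ext
    · simp [Zsqrtd.re_mul]
      linarith
    · simp [Zsqrtd.im_mul]
      linarith
  have hm0 : (m : ℤ) ≠ 0 := by exact_mod_cast (by omega : m ≠ 0)
  refine ⟨⟨p, q⟩, ?_, ?_⟩
  · have h2 := congrArg Zsqrtd.norm hmul
    rw [Zsqrtd.norm_mul, Zsqrtd.norm_mul, Zsqrtd.norm_conj, hw, hw'] at h2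
    have h3 : Zsqrtd.norm (m : Zi) = (m : ℤ) * m := by
      rw [Zsqrtd.norm_natCast]
    rw [h3] at h2
    have h4 : ((m : ℤ) * m) * (Zsqrtd.norm (⟨p, q⟩ : Zi)) = (m : ℤ) * m * 1 := by
      rw [mul_one]; exact h2.symm
    exact mul_left_cancel₀ (mul_ne_zero hm0 hm0) h4
  · have h5 : w * star w = (m : Zi) := by
      have := Zsqrtd.norm_eq_mul_conj w
      rw [← this, hw]
      simp
    have hmZ : (m : Zi) ≠ 0 := by
      intro h
      have : ((m : ℕ) : Zi) = 0 := h
      rw [Nat.cast_eq_zero] at this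
      omega
    apply mul_left_cancel₀ hmZ
    calc (m : Zi) * w' = w' * (w * star w) := by rw [h5, mul_comm]
      _ = (w' * star w) * w := by ring
      _ = (m : Zi) * (⟨p, q⟩ * w) := by rw [hmul]; ring

lemma R2A_two_torsion (m : ℕ) (hm : 1 ≤ m) :
    ∃ T : Finset (ZMod m), T.card ≤ 2 ∧ ∀ t : ZMod m, 2 * t = 0 → t ∈ T := by
  have : NeZero m := ⟨by omega⟩
  refine ⟨{0, ((m / 2 : ℕ) : ZMod m)}, Finset.card_le_two, ?_⟩
  intro t ht
  have h1 : ((2 * t.val : ℕ) : ZMod m) = 0 := by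
    push_cast
    rw [ZMod.natCast_zmod_val]
    exact ht
  rw [ZMod.natCast_eq_zero_iff] at h1
  have h2 : t.val < m := ZMod.val_lt t
  obtain ⟨k, hk⟩ := h1
  have h3 : k < 2 := by
    by_contra h
    have : m * 2 ≤ m * k := Nat.mul_le_mul_left m (by omega)
    omega
  have h4 : t = ((t.val : ℕ) : ZMod m) := (ZMod.natCast_zmod_val t).symm
  interval_cases k
  · have : t.val = 0 := by omega
    rw [Finset.mem_insert]
    left
    rw [h4, this]
    simp
  · have : t.val = m / 2 := by omega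
    rw [Finset.mem_insert, Finset.mem_singleton]
    right
    rw [h4, this]

lemma R2A_roots (m : ℕ) (hm : 1 ≤ m) (A : Finset (ZMod m)) (hA : ∀ s ∈ A, s * s = -1) :
    A.card ≤ 2 * m.divisors.card := by
  have : NeZero m := ⟨by omega⟩
  rcases A.eq_empty_or_nonempty with h0 | ⟨s₀, hs₀⟩
  · rw [h0]; simp
  let f : ZMod m → ℕ := fun s => Nat.gcd (s - s₀).val m
  have him : A.image f ⊆ m.divisors := by
    intro u hu
    rw [Finset.mem_image] at hu
    obtain ⟨s, _, rfl⟩ := hu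
    rw [Nat.mem_divisors]
    exact ⟨Nat.gcd_dvd_right _ _, by omega⟩
  obtain ⟨T, hT, hT2⟩ := R2A_two_torsion m hm
  refine (Finset.card_le_mul_card_image A 2 ?_).trans (Nat.mul_le_mul_left 2 (Finset.card_le_card him))
  intro u hu
  rw [Finset.mem_image] at hu
  obtain ⟨s₁, hs₁, hu₁⟩ := hu
  refine le_trans ?_ hT
  refine Finset.card_le_card_of_injOn (fun s => s - s₁) ?_ ?_
  · intro s hs
    rw [Finset.mem_coe, Finset.mem_filter] at hs
    obtain ⟨hs, hsu⟩ := hs
    apply hT2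
    -- integer representatives
    have hum : u ∣ m := by rw [← hsu]; exact Nat.gcd_dvd_right _ _
    obtain ⟨v, hv⟩ := hum
    have hu0 : 0 < u := by
      rcases Nat.eq_zero_or_pos u with h | h
      · rw [h] at hv; omega
      · exact h
    -- key facts
    have key : ∀ s ∈ A, f s = u → (u : ℤ) ∣ ((s.val : ℤ) - (s₀.val : ℤ)) ∧
        (v : ℤ) ∣ ((s.val : ℤ) + (s₀.val : ℤ)) := by
      intro s hs hsu
      have e1 : (((s - s₀).val : ℕ) : ZMod m) = s - s₀ := ZMod.natCast_zmod_val _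
      have e2 : ((s.val : ℕ) : ZMod m) = s := ZMod.natCast_zmod_val _
      have e3 : ((s₀.val : ℕ) : ZMod m) = s₀ := ZMod.natCast_zmod_val _
      have e4 : (m : ℤ) ∣ ((s - s₀).val : ℤ) - ((s.val : ℤ) - (s₀.val : ℤ)) := by
        rw [← ZMod.intCast_zmod_eq_zero_iff_dvd]
        push_cast
        rw [e1, e2, e3]
        ring
      have e5 : (m : ℤ) ∣ ((s - s₀).val : ℤ) * ((s.val : ℤ) + (s₀.val : ℤ)) := by
        rw [← ZMod.intCast_zmod_eq_zero_iff_dvd]
        push_cast
        rw [e1, e2, e3]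
        linear_combination hA s hs - hA s₀ hs₀
      have hgu : Nat.gcd (s - s₀).val m = u := hsu
      have humZ : (u : ℤ) ∣ (m : ℤ) := by rw [hv]; push_cast; exact dvd_mul_right _ _
      have hu1 : (u : ℤ) ∣ ((s - s₀).val : ℤ) := by
        rw [← hgu]
        exact_mod_cast Nat.gcd_dvd_left _ _
      refine ⟨?_, ?_⟩
      · have h := dvd_sub hu1 (humZ.trans e4)
        have h2 : ((s - s₀).val : ℤ) - (((s - s₀).val : ℤ) - ((s.val : ℤ) - (s₀.val : ℤ))) =
          (s.val : ℤ) - (s₀.val : ℤ) := by ring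
        rwa [h2] at h
      · obtain ⟨c, hc⟩ : u ∣ (s - s₀).val := by rw [← hgu]; exact Nat.gcd_dvd_left _ _
        have hcop : Nat.Coprime c v := by
          have h1 : Nat.gcd (u * c) (u * v) = u := by rw [← hc, ← hv]; exact hgu
          rw [Nat.gcd_mul_left] at h1
          have h2 : u * Nat.gcd c v = u * 1 := by rw [mul_one]; exact h1
          exact Nat.eq_of_mul_eq_mul_left hu0 h2
        have e6 : ((u : ℤ) * v) ∣ (u : ℤ) * ((c : ℤ) * ((s.val : ℤ) + (s₀.val : ℤ))) := by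
          have : ((s - s₀).val : ℤ) = (u : ℤ) * c := by rw [hc]; push_cast; ring
          have hvZ : (m : ℤ) = (u : ℤ) * v := by exact_mod_cast hv
          rw [this, hvZ, mul_assoc] at e5
          exact e5
        have e7 := Int.dvd_of_mul_dvd_mul_left (by exact_mod_cast hu0.ne') e6
        have e8 : IsCoprime (v : ℤ) (c : ℤ) := by
          rw [Nat.isCoprime_iff_coprime]
          exact hcop.symm
        exact e8.dvd_of_dvd_mul_left e7
    obtain ⟨k1, k2⟩ := key s hs hsu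
    obtain ⟨l1, l2⟩ := key s₁ hs₁ hu₁
    -- s₀ is a unit
    have hs0u : IsCoprime (m : ℤ) (s₀.val : ℤ) := by
      rw [← ZMod.coe_int_isUnit_iff_isCoprime]
      have e3 : ((s₀.val : ℕ) : ZMod m) = s₀ := ZMod.natCast_zmod_val _
      have : (((s₀.val : ℤ)) : ZMod m) = s₀ := by push_cast; exact e3
      rw [this]
      refine IsUnit.of_mul_eq_one (-s₀) ?_
      have := hA s₀ hs₀
      linear_combination -this
    set D : ℤ := (s.val : ℤ) - (s₁.val : ℤ) with hD
    have d1 : (u : ℤ) ∣ D := by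
      have := dvd_sub k1 l1
      have h2 : ((s.val : ℤ) - (s₀.val : ℤ)) - ((s₁.val : ℤ) - (s₀.val : ℤ)) = D := by
        rw [hD]; ring
      rwa [h2] at this
    have d2 : (v : ℤ) ∣ D := by
      have := dvd_sub k2 l2
      have h2 : ((s.val : ℤ) + (s₀.val : ℤ)) - ((s₁.val : ℤ) + (s₀.val : ℤ)) = D := by
        rw [hD]; ring
      rwa [h2] at this
    -- u v | gcd(u,v) * D
    have d3 : ((u : ℤ) * v) ∣ (Int.gcd u v : ℤ) * D := by
      rw [Int.gcd_eq_gcd_ab]
      have : ((u : ℤ) * Int.gcdA u v + v * Int.gcdB u v) * D =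
        (u : ℤ) * D * Int.gcdA u v + v * D * Int.gcdB u v := by ring
      rw [this]
      refine dvd_add (Dvd.dvd.mul_right (mul_dvd_mul_left _ d2) _) (Dvd.dvd.mul_right ?_ _)
      rw [mul_comm (u : ℤ) v]
      exact mul_dvd_mul_left _ d1
    have d4 : (Int.gcd u v : ℤ) ∣ 2 := by
      have g1 : (Int.gcd u v : ℤ) ∣ (u : ℤ) := Int.gcd_dvd_left _ _
      have g2 : (Int.gcd u v : ℤ) ∣ (v : ℤ) := Int.gcd_dvd_right _ _
      have g3 := dvd_sub (g2.trans k2) (g1.trans k1)
      have g4 : ((s.val : ℤ) + (s₀.val : ℤ)) - ((s.val : ℤ) - (s₀.val : ℤ)) = 2 * (s₀.val : ℤ) := by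
        ring
      rw [g4] at g3
      have g5 : IsCoprime (Int.gcd u v : ℤ) (s₀.val : ℤ) := by
        refine IsCoprime.of_isCoprime_of_dvd_left hs0u (g1.trans ?_)
        rw [hv]; push_cast; exact dvd_mul_right _ _
      exact g5.dvd_of_dvd_mul_right g3
    have d5 : (m : ℤ) ∣ 2 * D := by
      have : (m : ℤ) = (u : ℤ) * v := by rw [hv]; push_cast; ring
      rw [this]
      exact d3.trans (mul_dvd_mul_right d4 D)
    have d6 := (ZMod.intCast_zmod_eq_zero_iff_dvd (2 * D) m).2 d5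
    rw [hD] at d6
    push_cast at d6
    rw [ZMod.natCast_zmod_val, ZMod.natCast_zmod_val] at d6
    exact d6
  · intro a _ b _ hab
    exact sub_left_injective hab

/-- Number of primitive Gaussian integers of norm `m`.

PROOF. Let `w = x + i y`, `x² + y² = m`, `gcd (x, y) = 1`. Then `y` is a unit modulo `m`
(a prime dividing `y` and `m` divides `x`); let `s = x / y` in `ZMod m`, `s² = -1`.
(1) If `w`, `w'` have the same `s` then `w' * star w` is divisible by `m`
(real part `x x' + y y' ≡ (s² + 1) y y' = 0`, imaginary part `x y' - x' y ≡ 0`), so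
`w' * star w = m u`, norms: `u.norm = 1`; since `w * star w = m` we get `w' = u w`, and there are
four `u` of norm one. So at most `4` elements `w` for each `s`.
(2) The number of `s` in `ZMod m` with `s² = -1` is at most `2 d(m)`: fix one root `s₀` (integer
representative). For a root `s` put `u = gcd (s - s₀, m)`; then `m / u` divides `s + s₀`.
So `s` is determined modulo `lcm (u, m / u) = m / gcd (u, m / u)`, and `e = gcd (u, m / u)`
divides `2 s₀`; as `s₀` is a unit modulo `m`, `e` divides `2`. So at most two `s` for each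
divisor `u`. (`ZMod 1` included: `m = 1`, four `w`.) -/
theorem r2_prim (m : ℕ) (hm : 1 ≤ m) :
    {w : Zi | w.norm = m ∧ ct w = 1}.Finite ∧
      {w : Zi | w.norm = m ∧ ct w = 1}.ncard ≤ 8 * m.divisors.card := by
  have hfin : {w : Zi | w.norm = m ∧ ct w = 1}.Finite :=
    (R2A_finite m).subset (fun w hw => hw.1)
  refine ⟨hfin, ?_⟩
  rw [Set.ncard_eq_toFinset_card _ hfin]
  set S := hfin.toFinset with hS
  have hmem : ∀ w, w ∈ S ↔ (w.norm = m ∧ ct w = 1) := by
    intro w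
    rw [hS, Set.Finite.mem_toFinset]
    rfl
  have : NeZero m := ⟨by omega⟩
  have h1 : S.card ≤ 4 * (S.image (R2A_s m)).card := by
    refine Finset.card_le_mul_card_image S 4 ?_
    intro s hs
    rw [Finset.mem_image] at hs
    obtain ⟨w₀, hw₀, hs₀⟩ := hs
    have h2 : (S.filter (fun w => R2A_s m w = s)) ⊆
        ({1, -1, ⟨0, 1⟩, ⟨0, -1⟩} : Finset Zi).image (fun u => u * w₀) := by
      intro w hw
      rw [Finset.mem_filter, hmem] at hw
      rw [hmem] at hw₀
      obtain ⟨u, hu, hu2⟩ := R2A_same m hm w₀ w hw₀.1 hw₀.2 hw.1.1 hw.1.2 (by rw [hs₀, hw.2])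
      rw [Finset.mem_image]
      exact ⟨u, R2A_units u hu, hu2.symm⟩
    refine (Finset.card_le_card h2).trans (Finset.card_image_le.trans ?_)
    exact Finset.card_le_four
  have h3 : (S.image (R2A_s m)).card ≤ 2 * m.divisors.card := by
    apply R2A_roots m hm
    intro s hs
    rw [Finset.mem_image] at hs
    obtain ⟨w₀, hw₀, rfl⟩ := hs
    rw [hmem] at hw₀
    exact R2A_s_sq m w₀ hw₀.1 hw₀.2
  calc S.card ≤ 4 * (S.image (R2A_s m)).card := h1
    _ ≤ 4 * (2 * m.divisors.card) := Nat.mul_le_mul_left 4 h3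
    _ = 8 * m.divisors.card := by ring

end Pool.Agent.Lib.H89D
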