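import Pool.Agent.Lib.H89D.R2B
import Pool.Agent.Lib.H21AP.DivisorBound

/-!
# R2C: Gaussian integers of given norm, the bound in terms of powers
-/

namespace Pool.Agent.Lib.H89D

/-- The bound in terms of powers.

PROOF. `R < 0`: no `w`; `R = 0`: only `w = 0`; `R ≥ 1`: `r2_bound` and
`Pool.Agent.Lib.H21AP.divisor_bound` (file H21AP/DivisorBound.lean) with `ε / 2`. -/
theorem r2_eps {ε : ℝ} (hε : 0 < ε) : ∃ C : ℝ, 0 < C ∧ ∀ X : ℝ, 1 ≤ X → ∀ R : ℤ, (R : ℝ) ≤ X →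
    {w : Zi | w.norm = R}.Finite ∧ ({w : Zi | w.norm = R}.ncard : ℝ) ≤ C * X ^ ε := by
  obtain ⟨C, hC, hd⟩ := Pool.Agent.Lib.H21AP.divisor_bound (half_pos hε)
  refine ⟨8 * C ^ 2 + 1, by positivity, ?_⟩
  intro X hX R hR
  refine ⟨R2A_finite R, ?_⟩
  have hX1 : 1 ≤ X ^ ε := Real.one_le_rpow hX hε.le
  have hC2 : 0 ≤ 8 * C ^ 2 := by positivity
  rcases lt_trichotomy R 0 with h | h | h
  · have h0 : {w : Zi | w.norm = R} = ∅ := by
      ext w
      simp only [Set.mem_ofPred_eq, Set.mem_empty_iff_false, iff_false]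
      intro hw
      have := GaussianInt.norm_nonneg w
      omega
    rw [h0, Set.ncard_empty]
    push_cast
    positivity
  · have h0 : {w : Zi | w.norm = R} = {0} := by
      ext w
      simp only [Set.mem_ofPred_eq, Set.mem_singleton_iff]
      rw [h]
      exact GaussianInt.norm_eq_zero
    rw [h0, Set.ncard_singleton]
    push_cast
    nlinarith
  · obtain ⟨n, rfl⟩ := Int.eq_ofNat_of_zero_le h.le
    have hn : 1 ≤ n := by omega
    obtain ⟨_, h1⟩ := r2_bound n hn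
    have h2 := hd n hn
    have hn0 : (0 : ℝ) ≤ n := by positivity
    have h3 : ((n : ℝ) ^ (ε / 2)) ^ 2 = (n : ℝ) ^ ε := by
      rw [← Real.rpow_natCast, ← Real.rpow_mul hn0]
      congr 1
      push_cast
      ring
    have h4 : (n : ℝ) ^ ε ≤ X ^ ε := by
      apply Real.rpow_le_rpow hn0 _ hε.le
      exact_mod_cast hR
    have h5 : ((n.divisors.card : ℝ)) ^ 2 ≤ C ^ 2 * X ^ ε := by
      calc ((n.divisors.card : ℝ)) ^ 2 ≤ (C * (n : ℝ) ^ (ε / 2)) ^ 2 :=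
            pow_le_pow_left₀ (by positivity) h2 2
        _ = C ^ 2 * (n : ℝ) ^ ε := by rw [mul_pow, h3]
        _ ≤ C ^ 2 * X ^ ε := mul_le_mul_of_nonneg_left h4 (by positivity)
    have h6 : ({w : Zi | w.norm = (n : ℤ)}.ncard : ℝ) ≤ 8 * (n.divisors.card : ℝ) ^ 2 := by
      exact_mod_cast h1
    calc ({w : Zi | w.norm = (n : ℤ)}.ncard : ℝ) ≤ 8 * (n.divisors.card : ℝ) ^ 2 := h6
      _ ≤ 8 * (C ^ 2 * X ^ ε) := by linarith
      _ ≤ (8 * C ^ 2 + 1) * X ^ ε := by nlinarith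

end Pool.Agent.Lib.H89D
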