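import Pool.Agent.Lib.H89D.REL0

/-!
# REL: the relations
-/

namespace Pool.Agent.Lib.H89D

open Matrix

theorem REL_adj {A F G B H K C D E : Zi}
    (h1 : (!![A, F, G; B, H, K; C, D, E] : M3)ᴴ * JZ * !![A, F, G; B, H, K; C, D, E] = JZ)
    (h2 : (!![A, F, G; B, H, K; C, D, E] : M3).det = 1) :
    star C = B * D - H * C ∧ star B = F * C - A * D ∧ star D = K * C - B * E ∧
      star H = A * E - G * C ∧ star A * C + star B * B + star C * A = 0 ∧
      C * star E + D * star D + E * star C = 0 ∧
      (H * E - K * D) + (A * E - G * C) + (A * H - F * B) = star A + star H + star E ∧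
      A * H * E - A * K * D - F * B * E + F * K * C + G * B * D - G * H * C = 1 := by
  have hJ : JZ * JZ = 1 := by decide +kernel
  have e1 : (JZ * (!![A, F, G; B, H, K; C, D, E] : M3)ᴴ * JZ) * !![A, F, G; B, H, K; C, D, E] = 1 := by
    rw [mul_assoc JZ, mul_assoc JZ, h1, hJ]
  have e2 : (JZ * (!![A, F, G; B, H, K; C, D, E] : M3)ᴴ * JZ) =
      adjugate !![A, F, G; B, H, K; C, D, E] := by
    have h3 := mul_adjugate (!![A, F, G; B, H, K; C, D, E] : M3)
    rw [h2, one_smul] at h3
    calc (JZ * (!![A, F, G; B, H, K; C, D, E] : M3)ᴴ * JZ)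
        = (JZ * (!![A, F, G; B, H, K; C, D, E] : M3)ᴴ * JZ) *
          (!![A, F, G; B, H, K; C, D, E] * adjugate !![A, F, G; B, H, K; C, D, E]) := by
          rw [h3, mul_one]
      _ = _ := by rw [← mul_assoc, e1, one_mul]
  have e3 : (!![A, F, G; B, H, K; C, D, E] : M3) * JZ * (!![A, F, G; B, H, K; C, D, E] : M3)ᴴ = JZ := by
    have h3 := mul_adjugate (!![A, F, G; B, H, K; C, D, E] : M3)
    rw [h2, one_smul, ← e2] at h3
    have h4 : (!![A, F, G; B, H, K; C, D, E] : M3) * JZ * (!![A, F, G; B, H, K; C, D, E] : M3)ᴴ =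
      (!![A, F, G; B, H, K; C, D, E] * (JZ * (!![A, F, G; B, H, K; C, D, E] : M3)ᴴ * JZ)) * JZ := by
      simp only [mul_assoc]
      rw [hJ, mul_one]
    rw [h4, h3, one_mul]
  have q := fun i j => congrFun (congrFun e2 i) j
  have q1 := fun i j => congrFun (congrFun h1 i) j
  have q3 := fun i j => congrFun (congrFun e3 i) j
  rw [adjugate_fin_three] at q
  have q20 := q 2 0
  have q21 := q 2 1
  have q10 := q 1 0
  have q11 := q 1 1
  have q00 := q 0 0
  have q22 := q 2 2
  have p00 := q1 0 0
  have r22 := q3 2 2
  simp [JZ, Matrix.mul_apply, Matrix.vecMul, dotProduct, Fin.sum_univ_three,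
    Matrix.conjTranspose_apply] at q20 q21 q10 q11 q00 q22 p00 r22
  refine ⟨?_, ?_, ?_, ?_, ?_, ?_, ?_, ?_⟩
  · linear_combination q20
  · linear_combination q21
  · linear_combination q10
  · linear_combination q11
  · linear_combination p00
  · linear_combination r22
  · linear_combination -q00 - q11 - q22
  · rw [det_fin_three] at h2
    simpa using h2

theorem REL_real {n : ℕ} (hn : 1 ≤ n) {x y : Zi} (h : y = n * x) (hy : star y = y) :
    ∃ r : ℤ, x = r := by
  have hn0 : (n : Zi) ≠ 0 := by
    have : n ≠ 0 := by omega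
    exact_mod_cast this
  have h1 : star x = x := by
    apply mul_left_cancel₀ hn0
    rw [← h, ← hy, h, star_mul', star_natCast]
  refine ⟨x.re, ?_⟩
  apply Zsqrtd.ext
  · simp
  · have h2 := congrArg Zsqrtd.im h1
    rw [Zsqrtd.im_star] at h2
    simp
    omega

/-- The relations hold for the elements of `Γ(n)`.

PROOF. `g = 1 + n M` has determinant one, so its adjugate is its inverse, which is
`J gᴴ J` (because `J gᴴ J g = J J = 1`). Comparing the entries of `adjugate g` (cofactors) with
those of `J gᴴ J` (entry `i j` is `star (g (2 - j) (2 - i))`), with `g = !![A, F, G; B, H, K; C, D, E]`: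
`star C = B D - H C`, `star B = F C - A D`, `star D = K C - B E`, `star H = A E - G C`. And from
`gᴴ J g = J`, entry `0 0`: `star A C + B star B + star C A = 0`; from `g J gᴴ = J`, entry `2 2`:
`C star E + D star D + E star C = 0`.
Insert `A = 1 + n a`, `B = n b`, ... and divide by powers of `n`.
`ρ`: from `star C = B D - H C` one gets `c + star c = n (b d - c h)`; put `r = b d - c h`; since
`c + star c` has imaginary part zero so has `r` (`n ≥ 1`), `ρ = r.re`. `hc, hρ`. `ha`, `he`: from the
two norm relations, dividing by `n²` after inserting `hc`. `hf, hk`: from the relations for `star B`,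
`star D`. `star H = A E - G C`: `star h = a + e + n a e - n g c`, so with `T = a + e + h` (the trace):
`T = h + star h + n (g c - a e)`. `hτ`: `T` is divisible by `n`, i.e. `h + star h = 2 Re h` is:
the coefficient `e₂` of the characteristic polynomial, the trace of the adjugate
`= star (trace g)`: `3 + 2 n T + n² e₂(M) = 3 + n star T`, so `star T - 2 T = n e₂(M)`; and
`T - star T`: from `h + star h + n (g c - a e) = T` it is `≡ 0` modulo `n`; hence `T ≡ star T` and
`star T ≡ 2 T`, so `T ≡ 0` modulo `n`. Put `τ = T / n`; then `η = τ - (g c - a e)` satisfies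
`n η = h + star h`, is real; `hη, hg`. `hi`: the determinant:
`det (1 + n M) = 1 + n T + n² e₂(M) + n³ det M = 1`, with `n e₂(M) = star T - 2 T`:
`n T + n (star T - 2 T) + n³ det M = 0`, so `T - star T = n² det M`, `τ - star τ = n det M`. -/
theorem rels_of_elt {n : ℕ} (hn : 1 ≤ n) {M : M3} (h : Elt n M) :
    ∃ (ρ η : ℤ) (τ : Zi), RelsM n M ρ η τ := by
  obtain ⟨h1, h2⟩ := h
  have hn0 : (n : Zi) ≠ 0 := by
    have : n ≠ 0 := by omega
    exact_mod_cast this
  have hg : (1 + (n : Zi) • M : M3) = !![1 + n * M 0 0, n * M 0 1, n * M 0 2;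
      n * M 1 0, 1 + n * M 1 1, n * M 1 2; n * M 2 0, n * M 2 1, 1 + n * M 2 2] := by
    ext i j : 1
    fin_cases i <;> fin_cases j <;> simp
  rw [hg] at h1 h2
  obtain ⟨r1, r2, r3, r4, r5, r6, r7, r8⟩ := REL_adj h1 h2
  clear h1 h2 hg
  unfold RelsM
  generalize M 0 0 = a at *
  generalize M 0 1 = f at *
  generalize M 0 2 = g at *
  generalize M 1 0 = b at *
  generalize M 1 1 = h at *
  generalize M 1 2 = k at *
  generalize M 2 0 = c at *
  generalize M 2 1 = d at *
  generalize M 2 2 = e at *
  simp only [star_mul', star_add, star_one, star_natCast] at r1 r2 r3 r4 r5 r6 r7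
  have s1 : star c = n * b * d - (1 + n * h) * c := by
    apply mul_left_cancel₀ hn0
    linear_combination r1
  have t1 : c + star c = n * (b * d - c * h) := by linear_combination s1
  obtain ⟨ρ, hρ⟩ := REL_real hn t1 (by rw [star_add, star_star, add_comm])
  have t1' : c + star c = n * ρ := by rw [t1, hρ]
  -- eta
  have s4 : h + star h = a + e + h + n * (a * e - g * c) := by
    apply mul_left_cancel₀ hn0
    linear_combination r4
  have s7 : star a + star h + star e - 2 * (a + h + e) =
      n * (h * e - k * d + (a * e - g * c) + (a * h - f * b)) := by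
    apply mul_left_cancel₀ hn0
    linear_combination -r7
  have s8 : star a + star e + star h - (a + e + h) =
      n * ((a * e - g * c) - star (a * e - g * c)) := by
    have h3 := congrArg star s4
    simp only [star_add, star_star, star_mul', star_natCast] at h3
    linear_combination s4 - h3
  obtain ⟨τ, hτ⟩ : ∃ τ, τ = ((a * e - g * c) - star (a * e - g * c)) -
      (h * e - k * d + (a * e - g * c) + (a * h - f * b)) := ⟨_, rfl⟩
  have hT : a + e + h = n * τ := by
    rw [hτ]
    linear_combination s8 - s7
  have s9 : h + star h = n * (τ + (a * e - g * c)) := by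
    linear_combination s4 + hT
  obtain ⟨η, hη⟩ := REL_real hn s9 (by rw [star_add, star_star, add_comm])
  have hTs := congrArg star hT
  simp only [star_add, star_mul', star_natCast] at hTs
  refine ⟨ρ, η, τ, ?_, t1', ?_, ?_, hT, ?_, ?_, ?_, ?_, ?_⟩
  · linear_combination hρ
  · apply mul_left_cancel₀ hn0
    apply mul_left_cancel₀ hn0
    linear_combination r5 - n * t1'
  · apply mul_left_cancel₀ hn0
    apply mul_left_cancel₀ hn0
    linear_combination r6 - n * t1'
  · refine ⟨a * h * e - a * k * d - f * b * e + f * k * c + g * b * d - g * h * c, ?_⟩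
    apply mul_left_cancel₀ hn0
    apply mul_left_cancel₀ hn0
    linear_combination -(n : Zi) * hT + n * hTs - n * s7 - r8
  · apply mul_left_cancel₀ hn0
    linear_combination r2
  · apply mul_left_cancel₀ hn0
    linear_combination r3
  · rw [s9, hη]
  · linear_combination -hη

end Pool.Agent.Lib.H89D
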