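import Pool.Agent.Lib.H89D.Defs

/-!
# REL0: the unitarity relation
-/

namespace Pool.Agent.Lib.H89D

open Matrix

/-- PROOF. Expand `(1 + n Mᴴ) J (1 + n M) = J` and divide by `n ≥ 1`. -/
theorem elt_skew {n : ℕ} (hn : 1 ≤ n) {M : M3} (h : Elt n M) :
    Mᴴ * JZ + JZ * M + (n : Zi) • (Mᴴ * JZ * M) = 0 := by
  have hn0 : (n : Zi) ≠ 0 := by
    have : n ≠ 0 := by omega
    exact_mod_cast this
  have h1 := h.1
  have h2 : (1 + (n : Zi) • M)ᴴ = 1 + (n : Zi) • Mᴴ := by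
    rw [conjTranspose_add, conjTranspose_one, conjTranspose_smul, star_natCast]
  rw [h2] at h1
  have h3 : (n : Zi) • (Mᴴ * JZ + JZ * M + (n : Zi) • (Mᴴ * JZ * M)) = 0 := by
    have h4 : (1 + (n : Zi) • Mᴴ) * JZ * (1 + (n : Zi) • M) =
        JZ + (n : Zi) • (Mᴴ * JZ + JZ * M + (n : Zi) • (Mᴴ * JZ * M)) := by
      simp only [add_mul, mul_add, one_mul, mul_one, smul_mul_assoc, mul_smul_comm, smul_add]
      abel
    rw [h4] at h1
    exact add_eq_left.1 h1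
  exact (smul_eq_zero.1 h3).resolve_left hn0

end Pool.Agent.Lib.H89D
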